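import Mathlib

/-!
# Random chains: counting permutations (for MP_b87ef1_co)
-/

namespace Pool.Agent.Lib_MP_b87ef1_ex

open Finset

variable {n : ℕ}

/-- The first `i` elements in the ranking `s`. -/
def pre (s : Equiv.Perm (Fin n)) (i : ℕ) : Finset (Fin n) :=
  univ.filter fun x => (s x).val < i

lemma mem_pre {s : Equiv.Perm (Fin n)} {i : ℕ} {x : Fin n} :
    x ∈ pre s i ↔ (s x).val < i := by simp [pre]

lemma card_pre (s : Equiv.Perm (Fin n)) {i : ℕ} (hi : i ≤ n) : (pre s i).card = i := by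
  have h1 : (pre s i).card = ((univ : Finset (Fin n)).filter fun x => x.val < i).card := by
    refine Finset.card_bij (fun x _ => s x) ?_ ?_ ?_
    · intro x hx; simpa [pre] using hx
    · intro x _ y _ h; exact s.injective h
    · intro y hy
      refine ⟨s.symm y, ?_, by simp⟩
      simpa [pre] using hy
  rw [h1]
  have h2 : ((univ : Finset (Fin n)).filter fun x => x.val < i) =
      (Finset.univ : Finset (Fin i)).map (Fin.castLEEmb hi) := by
    ext x
    simp only [mem_filter, mem_univ, true_and, mem_map, Fin.castLEEmb_apply]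
    constructor
    · intro h; exact ⟨⟨x.val, h⟩, by ext; simp⟩
    · rintro ⟨y, rfl⟩; simp
  rw [h2]; simp

lemma pre_mono (s : Equiv.Perm (Fin n)) {i j : ℕ} (h : i ≤ j) : pre s i ⊆ pre s j := by
  intro x hx
  rw [mem_pre] at hx ⊢
  omega

lemma pre_ssubset (s : Equiv.Perm (Fin n)) {i j : ℕ} (h : i < j) (hj : j ≤ n) :
    pre s i ⊂ pre s j := by
  refine Finset.ssubset_iff_subset_ne.2 ⟨pre_mono s h.le, fun he => ?_⟩
  have h1 := card_pre s (h.le.trans hj)
  have h2 := card_pre s hj
  rw [he, h2] at h1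
  omega

lemma pre_top (s : Equiv.Perm (Fin n)) : pre s n = univ := by
  ext x; simp [mem_pre]

lemma pre_zero (s : Equiv.Perm (Fin n)) : pre s 0 = ∅ := by
  ext x; simp [mem_pre]

open Classical in
/-- The probability of an event for a uniform random permutation. -/
noncomputable def Pr (E : Equiv.Perm (Fin n) → Prop) : ℝ :=
  ((univ.filter E).card : ℝ) / (n.factorial : ℝ)

lemma Pr_eq (E : Equiv.Perm (Fin n) → Prop) [DecidablePred E] :
    Pr E = ((univ.filter E).card : ℝ) / (n.factorial : ℝ) := by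
  unfold Pr
  congr!

lemma fact_pos' (n : ℕ) : (0 : ℝ) < (n.factorial : ℝ) := by exact_mod_cast n.factorial_pos

lemma Pr_nonneg (E : Equiv.Perm (Fin n) → Prop) : 0 ≤ Pr E :=
  div_nonneg (Nat.cast_nonneg _) (fact_pos' n).le

lemma Pr_mono {E E' : Equiv.Perm (Fin n) → Prop} (h : ∀ s, E s → E' s) : Pr E ≤ Pr E' := by
  classical
  unfold Pr
  refine div_le_div_of_nonneg_right ?_ (fact_pos' n).le
  exact_mod_cast Finset.card_le_card (Finset.monotone_filter_right _ (fun s _ hs => h s hs))

lemma Pr_congr {E E' : Equiv.Perm (Fin n) → Prop} (h : ∀ s, E s ↔ E' s) : Pr E = Pr E' :=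
  le_antisymm (Pr_mono fun s => (h s).1) (Pr_mono fun s => (h s).2)

lemma Pr_true : Pr (fun _ : Equiv.Perm (Fin n) => True) = 1 := by
  classical
  unfold Pr
  simp only [filter_true, card_univ, Fintype.card_perm, Fintype.card_fin]
  exact div_self (fact_pos' n).ne'

lemma Pr_le_one (E : Equiv.Perm (Fin n) → Prop) : Pr E ≤ 1 := by
  rw [← Pr_true (n := n)]
  exact Pr_mono fun _ _ => trivial

lemma Pr_false : Pr (fun _ : Equiv.Perm (Fin n) => False) = 0 := by
  classical
  simp [Pr]

/-- Additivity over a split. -/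
lemma Pr_split (E D : Equiv.Perm (Fin n) → Prop) :
    Pr E = Pr (fun s => E s ∧ D s) + Pr (fun s => E s ∧ ¬ D s) := by
  classical
  unfold Pr
  rw [← add_div]
  congr 1
  rw [← Nat.cast_add]
  congr 1
  rw [← Finset.card_union_of_disjoint]
  · congr 1
    ext s
    simp only [mem_filter, mem_univ, true_and, mem_union]
    tauto
  · rw [Finset.disjoint_left]
    intro s hs hs'
    simp only [mem_filter, mem_univ, true_and] at hs hs'
    exact hs'.2 hs.2

lemma Pr_not (E : Equiv.Perm (Fin n) → Prop) : Pr (fun s => ¬ E s) = 1 - Pr E := by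
  have h := Pr_split (n := n) (fun _ => True) E
  rw [Pr_true] at h
  simp only [true_and] at h
  linarith

lemma Pr_or_le (E D : Equiv.Perm (Fin n) → Prop) :
    Pr (fun s => E s ∨ D s) ≤ Pr E + Pr D := by
  rw [Pr_split (fun s => E s ∨ D s) E]
  refine add_le_add (Pr_mono fun s h => h.2) (Pr_mono fun s h => ?_)
  exact h.1.resolve_left h.2

lemma Pr_or_add_and (E D : Equiv.Perm (Fin n) → Prop) :
    Pr (fun s => E s ∨ D s) + Pr (fun s => E s ∧ D s) = Pr E + Pr D := by
  rw [Pr_split (fun s => E s ∨ D s) E, Pr_split D E]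
  have h1 : Pr (fun s => (E s ∨ D s) ∧ E s) = Pr E := Pr_congr fun s => by tauto
  have h2 : Pr (fun s => (E s ∨ D s) ∧ ¬ E s) = Pr (fun s => D s ∧ ¬ E s) :=
    Pr_congr fun s => by tauto
  have h3 : Pr (fun s => E s ∧ D s) = Pr (fun s => D s ∧ E s) := Pr_congr fun s => by tauto
  rw [h1, h2, h3]; ring

/-- Disjoint sum over the value of a map into a finset. -/
lemma Pr_sum {α : Type*} [DecidableEq α] (g : Equiv.Perm (Fin n) → α) (T : Finset α)
    (E : Equiv.Perm (Fin n) → Prop) :
    Pr (fun s => g s ∈ T ∧ E s) = ∑ t ∈ T, Pr (fun s => g s = t ∧ E s) := by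
  classical
  unfold Pr
  rw [← Finset.sum_div]
  congr 1
  rw [← Nat.cast_sum]
  congr 1
  rw [Finset.card_eq_sum_card_fiberwise (f := g) (t := T)]
  · refine Finset.sum_congr rfl fun t ht => ?_
    congr 1
    ext s
    simp only [mem_filter, mem_univ, true_and]
    constructor
    · rintro ⟨⟨_, h2⟩, h3⟩; exact ⟨h3, h2⟩
    · rintro ⟨h1, h2⟩; exact ⟨⟨h1 ▸ ht, h2⟩, h1⟩
  · intro s hs
    simp only [coe_filter, mem_univ, true_and, Set.mem_ofPred_eq] at hs
    exact hs.1

lemma Pr_sum' {α : Type*} [DecidableEq α] (g : Equiv.Perm (Fin n) → α) (T : Finset α) :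
    Pr (fun s => g s ∈ T) = ∑ t ∈ T, Pr (fun s => g s = t) := by
  have h := Pr_sum g T (fun _ => True)
  simpa using h

lemma Pr_exists_le {ι : Type*} (T : Finset ι) (E : ι → Equiv.Perm (Fin n) → Prop) :
    Pr (fun s => ∃ t ∈ T, E t s) ≤ ∑ t ∈ T, Pr (E t) := by
  classical
  induction T using Finset.induction_on with
  | empty => simp [Pr_false]
  | insert a T ha ih =>
    rw [Finset.sum_insert ha]
    refine le_trans (le_trans (Pr_mono ?_) (Pr_or_le (E a) (fun s => ∃ t ∈ T, E t s))) ?_
    · rintro s ⟨t, ht, h⟩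
      rcases Finset.mem_insert.1 ht with rfl | ht
      · exact Or.inl h
      · exact Or.inr ⟨t, ht, h⟩
    · linarith

/-! ### The flag count -/

lemma exists_perm_of_fiber {κ : Type*} [DecidableEq κ] (f g : Fin n → κ)
    (h : ∀ y, (univ.filter fun x => f x = y).card = (univ.filter fun x => g x = y).card) :
    ∃ t : Equiv.Perm (Fin n), ∀ x, g (t x) = f x := by
  classical
  have e : ∀ y, Nonempty ({x // f x = y} ≃ {x // g x = y}) := by
    intro y
    refine ⟨Fintype.equivOfCardEq ?_⟩
    rw [Fintype.card_subtype, Fintype.card_subtype]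
    exact h y
  have e := fun y => (e y).some
  refine ⟨(Equiv.sigmaFiberEquiv f).symm.trans
    ((Equiv.sigmaCongrRight e).trans (Equiv.sigmaFiberEquiv g)), fun x => ?_⟩
  simp only [Equiv.trans_apply, Equiv.sigmaFiberEquiv, Equiv.coe_fn_symm_mk,
    Equiv.sigmaCongrRight_apply, Equiv.coe_fn_mk]
  exact (e (f x) ⟨x, rfl⟩).2

open Classical in
/-- The number of permutations through a flag depends only on the sizes. -/
lemma flag_card_eq {a c : ℕ} {A C A' C' : Finset (Fin n)} (hAC : A ⊆ C) (hAC' : A' ⊆ C')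
    (hA : A.card = a) (hC : C.card = c) (hA' : A'.card = a) (hC' : C'.card = c) :
    (univ.filter fun s : Equiv.Perm (Fin n) => pre s a = A ∧ pre s c = C).card =
      (univ.filter fun s : Equiv.Perm (Fin n) => pre s a = A' ∧ pre s c = C').card := by
  classical
  have key : ∀ (A C : Finset (Fin n)), A ⊆ C → A.card = a → C.card = c →
      ∀ y : Fin 3, (univ.filter fun x => (if x ∈ A then (0 : Fin 3) else if x ∈ C then 1 else 2) = y).card =
        if y = 0 then a else if y = 1 then c - a else n - c := by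
    intro A C hAC hA hC y
    fin_cases y
    · simp only [Fin.zero_eta, Fin.isValue, if_true]
      rw [← hA]
      congr 1
      ext x
      simp only [mem_filter, mem_univ, true_and]
      split_ifs <;> simp_all
    · simp only [Fin.mk_one, Fin.isValue, one_ne_zero, if_false, if_true]
      rw [← hA, ← hC, ← Finset.card_sdiff_of_subset hAC]
      congr 1
      ext x
      simp only [mem_filter, mem_univ, true_and, mem_sdiff]
      split_ifs with h1 h2
      · simp [h1]
      · simp [h1, h2]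
      · simp [h2]
    · simp only [Fin.reduceFinMk, Fin.isValue, Fin.reduceEq, if_false]
      rw [← hC]
      have : n - C.card = Cᶜ.card := by rw [Finset.card_compl, Fintype.card_fin]
      rw [this]
      congr 1
      ext x
      simp only [mem_filter, mem_univ, true_and, mem_compl]
      split_ifs with h1 h2
      · simp [hAC h1]
      · simp [h2]
      · simp [h2]
  obtain ⟨t, ht⟩ := exists_perm_of_fiber
    (fun x => if x ∈ A then (0 : Fin 3) else if x ∈ C then 1 else 2)
    (fun x => if x ∈ A' then (0 : Fin 3) else if x ∈ C' then 1 else 2)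
    (fun y => by rw [key A C hAC hA hC y, key A' C' hAC' hA' hC' y])
  have hmA : ∀ x, t x ∈ A' ↔ x ∈ A := by
    intro x
    have h := ht x
    constructor
    · intro h1
      by_contra h2
      rw [if_pos h1, if_neg h2] at h
      split_ifs at h <;> simp at h
    · intro h1
      by_contra h2
      rw [if_neg h2, if_pos h1] at h
      split_ifs at h <;> simp at h
  have hmC : ∀ x, t x ∈ C' ↔ x ∈ C := by
    intro x
    have h := ht x
    by_cases h0 : x ∈ A
    · have h0' := (hmA x).2 h0
      exact ⟨fun _ => hAC h0, fun _ => hAC' h0'⟩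
    · have h0' : t x ∉ A' := fun h' => h0 ((hmA x).1 h')
      rw [if_neg h0', if_neg h0] at h
      split_ifs at h with h1 h2 <;> simp_all
  refine (Finset.card_bij (fun s _ => t.trans s) ?_ ?_ ?_).symm
  · intro s hs
    simp only [mem_filter, mem_univ, true_and] at hs ⊢
    constructor
    · ext x
      rw [mem_pre, Equiv.trans_apply, ← mem_pre, hs.1, hmA]
    · ext x
      rw [mem_pre, Equiv.trans_apply, ← mem_pre, hs.2, hmC]
  · intro s _ s' _ h
    ext x
    have := congrArg (fun u : Equiv.Perm (Fin n) => u (t.symm x)) h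
    simp only [Equiv.trans_apply, Equiv.apply_symm_apply] at this
    rw [this]
  · intro s hs
    simp only [mem_filter, mem_univ, true_and] at hs
    refine ⟨t.symm.trans s, ?_, ?_⟩
    · simp only [mem_filter, mem_univ, true_and]
      constructor
      · ext x
        rw [mem_pre, Equiv.trans_apply, ← mem_pre, hs.1, ← hmA, Equiv.apply_symm_apply]
      · ext x
        rw [mem_pre, Equiv.trans_apply, ← mem_pre, hs.2, ← hmC, Equiv.apply_symm_apply]
    · ext x; simp

/-- `P(pre a = A, pre c = C) = 1 / (C(n,c) C(c,a))`. -/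
lemma Pr_flag' {a c : ℕ} {A C : Finset (Fin n)} (hAC : A ⊆ C) (hA : A.card = a)
    (hC : C.card = c) :
    Pr (fun s : Equiv.Perm (Fin n) => pre s a = A ∧ pre s c = C) =
      1 / ((n.choose c : ℝ) * (c.choose a : ℝ)) := by
  classical
  have hac : a ≤ c := by rw [← hA, ← hC]; exact Finset.card_le_card hAC
  have hcn : c ≤ n := by
    rw [← hC]; exact (Finset.card_le_univ C).trans (by simp)
  set T : Finset (Σ _ : Finset (Fin n), Finset (Fin n)) :=
    (powersetCard c (univ : Finset (Fin n))).sigma (fun D => powersetCard a D) with hT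
  have hTc : T.card = n.choose c * c.choose a := by
    rw [hT, Finset.card_sigma]
    rw [Finset.sum_congr rfl (g := fun _ => c.choose a)]
    · simp [Finset.card_powersetCard]
    · intro D hD
      rw [Finset.card_powersetCard, (Finset.mem_powersetCard.1 hD).2]
  set m := (univ.filter fun s : Equiv.Perm (Fin n) => pre s a = A ∧ pre s c = C).card with hm
  have hsum : n.factorial = ∑ q ∈ T, m := by
    have h1 : (univ : Finset (Equiv.Perm (Fin n))).card = n.factorial := by
      simp [Fintype.card_perm]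
    rw [← h1, Finset.card_eq_sum_card_fiberwise
      (f := fun s : Equiv.Perm (Fin n) => (⟨pre s c, pre s a⟩ : Σ _ : Finset (Fin n), Finset (Fin n)))
      (t := T)]
    · refine Finset.sum_congr rfl ?_
      rintro ⟨D, B⟩ hq
      rw [hT, Finset.mem_sigma] at hq
      obtain ⟨h2, h3⟩ := hq
      have h2' := (Finset.mem_powersetCard.1 h2).2
      obtain ⟨h4, h5⟩ := Finset.mem_powersetCard.1 h3
      rw [hm, flag_card_eq hAC h4 hA hC h5 h2']
      congr 1
      ext s
      simp only [mem_filter, mem_univ, true_and, Sigma.mk.injEq, heq_eq_eq]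
      tauto
    · intro s _
      simp only [hT, coe_sigma, Set.mem_sigma_iff, mem_coe, Finset.mem_powersetCard]
      exact ⟨⟨subset_univ _, card_pre s hcn⟩, pre_mono s hac, card_pre s (hac.trans hcn)⟩
  rw [Finset.sum_const, smul_eq_mul, hTc] at hsum
  have hpos : (0 : ℝ) < (n.choose c : ℝ) * (c.choose a : ℝ) := by
    have h1 := Nat.choose_pos hcn
    have h2 := Nat.choose_pos hac
    positivity
  have hf := fact_pos' n
  rw [Pr_eq, ← hm, div_eq_div_iff hf.ne' hpos.ne', one_mul]
  have : ((n.factorial : ℕ) : ℝ) = ((n.choose c * c.choose a * m : ℕ) : ℝ) := by rw [← hsum]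
  rw [this]
  push_cast
  ring

/-- `P(pre a = A, pre c = C) = 1 / (C(n,a) C(n-a,c-a))`. -/
lemma Pr_flag {a c : ℕ} {A C : Finset (Fin n)} (hAC : A ⊆ C) (hA : A.card = a)
    (hC : C.card = c) :
    Pr (fun s : Equiv.Perm (Fin n) => pre s a = A ∧ pre s c = C) =
      1 / ((n.choose a : ℝ) * ((n - a).choose (c - a) : ℝ)) := by
  rw [Pr_flag' hAC hA hC]
  have hac : a ≤ c := by rw [← hA, ← hC]; exact Finset.card_le_card hAC
  have hcn : c ≤ n := by
    rw [← hC]; exact (Finset.card_le_univ C).trans (by simp)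
  have h := Nat.choose_mul (n := n) (k := c) (s := a) hac
  have h' : (n.choose c : ℝ) * (c.choose a : ℝ) = (n.choose a : ℝ) * ((n - a).choose (c - a) : ℝ) := by
    exact_mod_cast h
  rw [h']

/-- `P(pre a = A) = 1 / C(n,a)`. -/
lemma Pr_pre {a : ℕ} {A : Finset (Fin n)} (hA : A.card = a) :
    Pr (fun s : Equiv.Perm (Fin n) => pre s a = A) = 1 / (n.choose a : ℝ) := by
  have h := Pr_flag (n := n) (a := a) (c := a) (A := A) (C := A) (Subset.refl _) hA hA
  simp only [and_self, Nat.sub_self, Nat.choose_zero_right, Nat.cast_one, mul_one] at h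
  exact h

/-- `P(pre a ∈ 𝒜) = |𝒜| / C(n,a)` for a family of `a`-sets. -/
lemma Pr_pre_mem {a : ℕ} (𝒜 : Finset (Finset (Fin n))) (h𝒜 : ∀ A ∈ 𝒜, A.card = a) :
    Pr (fun s : Equiv.Perm (Fin n) => pre s a ∈ 𝒜) = (𝒜.card : ℝ) / (n.choose a : ℝ) := by
  classical
  rw [Pr_sum' (fun s => pre s a) 𝒜, Finset.sum_congr rfl fun A hA => Pr_pre (h𝒜 A hA)]
  rw [Finset.sum_const, nsmul_eq_mul]
  ring

/-- `P(pre a = A, pre c ∈ 𝒞) = |𝒞| / (C(n,a) C(n-a,c-a))`. -/
lemma Pr_flag_mem {a c : ℕ} {A : Finset (Fin n)} (hA : A.card = a) (𝒞 : Finset (Finset (Fin n)))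
    (h𝒞 : ∀ C ∈ 𝒞, C.card = c ∧ A ⊆ C) :
    Pr (fun s : Equiv.Perm (Fin n) => pre s a = A ∧ pre s c ∈ 𝒞) =
      (𝒞.card : ℝ) / ((n.choose a : ℝ) * ((n - a).choose (c - a) : ℝ)) := by
  classical
  have h1 : Pr (fun s : Equiv.Perm (Fin n) => pre s a = A ∧ pre s c ∈ 𝒞) =
      Pr (fun s : Equiv.Perm (Fin n) => pre s c ∈ 𝒞 ∧ pre s a = A) :=
    Pr_congr fun s => by tauto
  rw [h1, Pr_sum (fun s => pre s c) 𝒞]
  rw [Finset.sum_congr rfl fun C hC => (Pr_congr (fun s => and_comm)).trans
    (Pr_flag (h𝒞 C hC).2 hA (h𝒞 C hC).1)]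
  rw [Finset.sum_const, nsmul_eq_mul]
  ring

/-! ### Reversal -/

/-- The reversed ranking. -/
def rev (s : Equiv.Perm (Fin n)) : Equiv.Perm (Fin n) := s.trans Fin.revPerm

lemma pre_rev (s : Equiv.Perm (Fin n)) {i : ℕ} (hi : i ≤ n) :
    pre (rev s) i = (pre s (n - i))ᶜ := by
  ext x
  rw [mem_pre, mem_compl, mem_pre]
  simp only [rev, Equiv.trans_apply, Fin.revPerm_apply, Fin.val_rev]
  have := (s x).isLt
  omega

lemma rev_rev (s : Equiv.Perm (Fin n)) : rev (rev s) = s := by
  ext x; simp [rev]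

lemma Pr_rev (E : Equiv.Perm (Fin n) → Prop) : Pr (fun s => E (rev s)) = Pr E := by
  classical
  unfold Pr
  congr 2
  refine Finset.card_bij (fun s _ => rev s) ?_ ?_ ?_
  · intro s hs; simpa using hs
  · intro s _ s' _ h
    rw [← rev_rev s, h, rev_rev]
  · intro s hs
    refine ⟨rev s, ?_, rev_rev s⟩
    simp only [mem_filter, mem_univ, true_and] at hs ⊢
    rw [rev_rev]; exact hs

end Pool.Agent.Lib_MP_b87ef1_ex
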