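import Pool.Agent.Lib_MP_b87ef1_ex.Ekr

/-!
# Levels, near levels, the weights `W`, complement families
-/

namespace Pool.Agent.Lib_MP_b87ef1_ex

open Finset
open Pool.Agent.Results.MP_b87ef1_co.ConjectureFalse

variable {n : ℕ}

/-- The members of size `i`. -/
def lev (F : Finset (Finset (Fin n))) (i : ℕ) : Finset (Finset (Fin n)) :=
  F.filter fun A => A.card = i

/-- The density of level `i`. -/
noncomputable def dens (F : Finset (Finset (Fin n))) (i : ℕ) : ℝ :=
  ((lev F i).card : ℝ) / (n.choose i : ℝ)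

/-- Near levels. -/
def nearS (n : ℕ) : Finset ℕ := (range (n + 1)).filter fun i => n ≤ 3 * i ∧ 3 * i ≤ 2 * n

/-- The distance `|n - 2c|`. -/
def dst (n c : ℕ) : ℕ := (n - 2 * c) + (2 * c - n)

/-- The chain of `s` has a near member. -/
def hit (F : Finset (Finset (Fin n))) (s : Equiv.Perm (Fin n)) : Prop :=
  ∃ c ∈ nearS n, pre s c ∈ F

/-- The weight of level `i`. -/
noncomputable def W (F : Finset (Finset (Fin n))) (i : ℕ) : ℝ :=
  (Pr (fun s : Equiv.Perm (Fin n) =>
      pre s i ∈ F ∧ ∃ c ∈ nearS n, dst n c < dst n i ∧ pre s c ∈ F) +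
   Pr (fun s : Equiv.Perm (Fin n) =>
      pre s i ∈ F ∧ ∃ c ∈ nearS n, c ≠ i ∧ dst n c ≤ dst n i ∧ pre s c ∈ F)) / 2

/-- The family of complements. -/
def cmp (F : Finset (Finset (Fin n))) : Finset (Finset (Fin n)) := F.image compl

lemma mem_nearS {i : ℕ} : i ∈ nearS n ↔ n ≤ 3 * i ∧ 3 * i ≤ 2 * n := by
  simp only [nearS, mem_filter, mem_range]
  constructor
  · rintro ⟨_, h⟩; exact h
  · intro h; exact ⟨by omega, h⟩

lemma nearS_le {i : ℕ} (h : i ∈ nearS n) : i ≤ n := by
  rw [mem_nearS] at h; omega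

lemma nearS_sub {i : ℕ} (h : i ∈ nearS n) : n - i ∈ nearS n := by
  rw [mem_nearS] at h ⊢; omega

lemma dst_sub {c : ℕ} (h : c ≤ n) : dst n (n - c) = dst n c := by
  unfold dst; omega

lemma mem_lev {F : Finset (Finset (Fin n))} {i : ℕ} {A : Finset (Fin n)} :
    A ∈ lev F i ↔ A ∈ F ∧ A.card = i := by simp [lev]

lemma dens_nonneg (F : Finset (Finset (Fin n))) (i : ℕ) : 0 ≤ dens F i := by
  unfold dens; positivity

lemma card_lev {F : Finset (Finset (Fin n))} {i : ℕ} (hi : i ≤ n) :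
    ((lev F i).card : ℝ) = dens F i * (n.choose i : ℝ) := by
  have : (0 : ℝ) < (n.choose i : ℝ) := by exact_mod_cast Nat.choose_pos hi
  unfold dens
  field_simp

lemma Pr_lev (F : Finset (Finset (Fin n))) {i : ℕ} (hi : i ≤ n) :
    Pr (fun s : Equiv.Perm (Fin n) => pre s i ∈ F) = dens F i := by
  rw [dens, ← Pr_pre_mem (lev F i) (fun A hA => (mem_lev.1 hA).2)]
  refine Pr_congr fun s => ?_
  rw [mem_lev]
  exact ⟨fun h => ⟨h, card_pre s hi⟩, fun h => h.1⟩

lemma dens_le_one (F : Finset (Finset (Fin n))) {i : ℕ} (hi : i ≤ n) : dens F i ≤ 1 := by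
  rw [← Pr_lev F hi]; exact Pr_le_one _

/-- Splitting an event over the members of a level. -/
lemma Pr_lev_and (F : Finset (Finset (Fin n))) {i : ℕ} (hi : i ≤ n)
    (E : Equiv.Perm (Fin n) → Prop) :
    Pr (fun s : Equiv.Perm (Fin n) => pre s i ∈ F ∧ E s) =
      ∑ A ∈ lev F i, Pr (fun s : Equiv.Perm (Fin n) => pre s i = A ∧ E s) := by
  classical
  rw [← Pr_sum (fun s => pre s i) (lev F i) E]
  refine Pr_congr fun s => ?_
  rw [mem_lev]
  exact ⟨fun h => ⟨⟨h.1, card_pre s hi⟩, h.2⟩, fun h => ⟨h.1.1, h.2⟩⟩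

/-! ### Complements -/

lemma mem_cmp {F : Finset (Finset (Fin n))} {A : Finset (Fin n)} : A ∈ cmp F ↔ Aᶜ ∈ F := by
  simp only [cmp, mem_image]
  constructor
  · rintro ⟨B, hB, rfl⟩; simpa using hB
  · intro h; exact ⟨Aᶜ, h, by simp⟩

lemma cmp_cmp (F : Finset (Finset (Fin n))) : cmp (cmp F) = F := by
  ext A; rw [mem_cmp, mem_cmp, compl_compl]

lemma adm_cmp {F : Finset (Finset (Fin n))} (hF : Admissible F) : Admissible (cmp F) := by
  intro A hA B hB C hC hAB hAC hBC
  rw [mem_cmp] at hA hB hC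
  have h := hF Aᶜ hA Bᶜ hB Cᶜ hC (fun h => hAB (compl_injective h))
    (fun h => hAC (compl_injective h)) (fun h => hBC (compl_injective h))
  constructor
  · intro h'
    apply h.2
    rw [← h', Finset.compl_union]
  · intro h'
    apply h.1
    rw [← h', Finset.compl_inter]

lemma card_cmp (F : Finset (Finset (Fin n))) : (cmp F).card = F.card :=
  Finset.card_image_of_injective _ compl_injective

lemma card_lev_cmp (F : Finset (Finset (Fin n))) {i : ℕ} (hi : i ≤ n) :
    (lev (cmp F) i).card = (lev F (n - i)).card := by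
  have : lev (cmp F) i = cmp (lev F (n - i)) := by
    ext A
    rw [mem_lev, mem_cmp, mem_cmp, mem_lev, Finset.card_compl, Fintype.card_fin]
    have := (Finset.card_le_univ A).trans_eq (Fintype.card_fin n)
    constructor
    · rintro ⟨h1, h2⟩; exact ⟨h1, by omega⟩
    · rintro ⟨h1, h2⟩; exact ⟨h1, by omega⟩
  rw [this, card_cmp]

lemma dens_cmp (F : Finset (Finset (Fin n))) {i : ℕ} (hi : i ≤ n) :
    dens (cmp F) i = dens F (n - i) := by
  unfold dens
  rw [card_lev_cmp F hi, Nat.choose_symm hi]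

lemma pre_mem_cmp (F : Finset (Finset (Fin n))) (s : Equiv.Perm (Fin n)) {i : ℕ} (hi : i ≤ n) :
    pre s i ∈ cmp F ↔ pre (rev s) (n - i) ∈ F := by
  rw [mem_cmp, pre_rev s (Nat.sub_le n i), show n - (n - i) = i by omega]

lemma Pr_hit_cmp (F : Finset (Finset (Fin n))) : Pr (hit (cmp F)) = Pr (hit F) := by
  rw [← Pr_rev (hit F)]
  refine Pr_congr fun s => ?_
  constructor
  · rintro ⟨c, hc, h⟩
    exact ⟨n - c, nearS_sub hc, (pre_mem_cmp F s (nearS_le hc)).1 h⟩
  · rintro ⟨c, hc, h⟩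
    refine ⟨n - c, nearS_sub hc, ?_⟩
    rw [pre_mem_cmp F s (Nat.sub_le n c), show n - (n - c) = c by have := nearS_le hc; omega]
    exact h

lemma W_cmp (F : Finset (Finset (Fin n))) {i : ℕ} (hi : i ≤ n) : W (cmp F) i = W F (n - i) := by
  have key : ∀ (R : ℕ → Prop),
      Pr (fun s : Equiv.Perm (Fin n) => pre s i ∈ cmp F ∧ ∃ c ∈ nearS n, R c ∧ pre s c ∈ cmp F) =
      Pr (fun s : Equiv.Perm (Fin n) =>
        pre s (n - i) ∈ F ∧ ∃ c ∈ nearS n, R (n - c) ∧ pre s c ∈ F) := by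
    intro R
    rw [← Pr_rev (fun s : Equiv.Perm (Fin n) =>
        pre s (n - i) ∈ F ∧ ∃ c ∈ nearS n, R (n - c) ∧ pre s c ∈ F)]
    refine Pr_congr fun s => ?_
    rw [pre_mem_cmp F s hi]
    refine and_congr_right fun _ => ?_
    constructor
    · rintro ⟨c, hc, hR, h⟩
      have hcn := nearS_le hc
      refine ⟨n - c, nearS_sub hc, ?_, (pre_mem_cmp F s hcn).1 h⟩
      rwa [show n - (n - c) = c by omega]
    · rintro ⟨c, hc, hR, h⟩
      have hcn := nearS_le hc
      refine ⟨n - c, nearS_sub hc, hR, ?_⟩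
      rw [pre_mem_cmp F s (Nat.sub_le n c), show n - (n - c) = c by omega]
      exact h
  unfold W
  have h1 := key (fun c => dst n c < dst n i)
  have h2 := key (fun c => c ≠ i ∧ dst n c ≤ dst n i)
  simp only [and_assoc] at h1 h2
  rw [h1, h2]
  congr 2
  · refine Pr_congr fun s => and_congr_right fun _ => ?_
    refine exists_congr fun c => and_congr_right fun hc => ?_
    rw [dst_sub (nearS_le hc), dst_sub hi]
  · refine Pr_congr fun s => and_congr_right fun _ => ?_
    refine exists_congr fun c => and_congr_right fun hc => ?_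
    have hcn := nearS_le hc
    rw [dst_sub hcn, dst_sub hi]
    refine and_congr_left fun _ => ?_
    constructor
    · intro h h'; apply h; omega
    · intro h h'; apply h; omega

end Pool.Agent.Lib_MP_b87ef1_ex
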