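import Pool.Agent.Lib_MP_b87ef1_ex.Base
import Pool.Agent.Results.MP_b87ef1_co.ConjectureFalse

/-!
# The Erdős–Ko–Rado step
-/

namespace Pool.Agent.Lib_MP_b87ef1_ex

open Finset
open Pool.Agent.Results.MP_b87ef1_co.ConjectureFalse

variable {n : ℕ}

/-- Erdős–Ko–Rado inside a ground set `B`. -/
lemma ekr_in (B : Finset (Fin n)) {m D : ℕ} (hB : B.card = m) (hD : 1 ≤ D) (hDm : 2 * D ≤ m)
    (𝒟 : Finset (Finset (Fin n))) (hsub : ∀ S ∈ 𝒟, S ⊆ B) (hcard : ∀ S ∈ 𝒟, S.card = D)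
    (hint : ∀ S ∈ 𝒟, ∀ T ∈ 𝒟, ¬ Disjoint S T) :
    𝒟.card ≤ (m - 1).choose (D - 1) := by
  classical
  let e : B ≃ Fin m := B.equivFinOfCardEq hB
  let g : Finset (Fin n) → Finset (Fin m) := fun S => univ.filter fun i => (e.symm i : Fin n) ∈ S
  have hg : ∀ S i, i ∈ g S ↔ (e.symm i : Fin n) ∈ S := by intro S i; simp [g]
  have hinj : Set.InjOn g (𝒟 : Set (Finset (Fin n))) := by
    intro S hS T hT h
    ext x
    constructor
    · intro hx
      have hxB := hsub S hS hx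
      have h1 : e ⟨x, hxB⟩ ∈ g S := by rw [hg]; simpa using hx
      rw [h, hg] at h1
      simpa using h1
    · intro hx
      have hxB := hsub T hT hx
      have h1 : e ⟨x, hxB⟩ ∈ g T := by rw [hg]; simpa using hx
      rw [← h, hg] at h1
      simpa using h1
  rw [← Finset.card_image_of_injOn hinj]
  refine Finset.erdos_ko_rado ?_ ?_ ?_
  · intro X hX Y hY hXY
    simp only [coe_image, Set.mem_image, mem_coe] at hX hY
    obtain ⟨S, hS, rfl⟩ := hX
    obtain ⟨T, hT, rfl⟩ := hY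
    refine hint S hS T hT ?_
    rw [Finset.disjoint_left] at hXY ⊢
    intro x hx hx'
    have hxB := hsub S hS hx
    have h1 : e ⟨x, hxB⟩ ∈ g S := by rw [hg]; simpa using hx
    have h2 : e ⟨x, hxB⟩ ∈ g T := by rw [hg]; simpa using hx'
    exact hXY h1 h2
  · intro X hX
    simp only [coe_image, Set.mem_image, mem_coe] at hX
    obtain ⟨S, hS, rfl⟩ := hX
    rw [← hcard S hS]
    refine Finset.card_bij (fun i _ => (e.symm i : Fin n)) ?_ ?_ ?_
    · intro i hi; exact (hg S i).1 hi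
    · intro i _ j _ h
      exact e.symm.injective (Subtype.ext h)
    · intro x hx
      refine ⟨e ⟨x, hsub S hS hx⟩, ?_, by simp⟩
      rw [hg]; simpa using hx
  · omega

/-- Two members strictly above `A ∈ F` meet outside `A`. -/
lemma above_meet {F : Finset (Finset (Fin n))} (hF : Admissible F) {A U V : Finset (Fin n)}
    (hA : A ∈ F) (hU : U ∈ F) (hV : V ∈ F) (hAU : A ⊂ U) (hAV : A ⊂ V) :
    ¬ Disjoint (U \ A) (V \ A) := by
  intro hd
  have hne : U ≠ V := by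
    rintro rfl
    rw [disjoint_self] at hd
    exact (Finset.sdiff_nonempty.2 hAU.2).ne_empty hd
  have hi : U ∩ V = A := by
    ext x
    rw [mem_inter]
    constructor
    · rintro ⟨h1, h2⟩
      by_contra h3
      exact Finset.disjoint_left.1 hd (mem_sdiff.2 ⟨h1, h3⟩) (mem_sdiff.2 ⟨h2, h3⟩)
    · intro h; exact ⟨hAU.1 h, hAV.1 h⟩
  exact (hF U hU V hV A hA hne hAU.ne' hAV.ne').2 hi

lemma choose_ratio {m D : ℕ} (hD : 1 ≤ D) (hDm : D ≤ m) :
    ((m - 1).choose (D - 1) : ℝ) / (m.choose D : ℝ) = (D : ℝ) / (m : ℝ) := by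
  obtain ⟨d, rfl⟩ : ∃ d, D = d + 1 := ⟨D - 1, by omega⟩
  obtain ⟨k, rfl⟩ : ∃ k, m = k + 1 := ⟨m - 1, by omega⟩
  have h := Nat.add_one_mul_choose_eq k d
  have h' : ((k : ℝ) + 1) * (k.choose d : ℝ) = ((k + 1).choose (d + 1) : ℝ) * ((d : ℝ) + 1) := by
    exact_mod_cast h
  have hpos : (0 : ℝ) < ((k + 1).choose (d + 1) : ℝ) := by
    exact_mod_cast Nat.choose_pos hDm
  simp only [Nat.add_sub_cancel]
  rw [div_eq_div_iff hpos.ne' (by positivity)]
  push_cast
  linarith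

/-- The EKR step. -/
lemma ekr_step {F : Finset (Finset (Fin n))} (hF : Admissible F) {A : Finset (Fin n)} {a D : ℕ}
    (hA : A ∈ F) (ha : A.card = a) (hD : 1 ≤ D) (hDn : 2 * D ≤ n - a) :
    Pr (fun s : Equiv.Perm (Fin n) => pre s a = A ∧ ∃ c, a < c ∧ c ≤ a + D ∧ pre s c ∈ F) ≤
      1 / (n.choose a : ℝ) * ((D : ℝ) / ((n - a : ℕ) : ℝ)) := by
  classical
  have han : a ≤ n := by rw [← ha]; exact (Finset.card_le_univ A).trans (by simp)
  set 𝒞 : Finset (Finset (Fin n)) :=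
    univ.filter fun C => C.card = a + D ∧ A ⊆ C ∧ ∃ U ∈ F, A ⊂ U ∧ U ⊆ C with h𝒞
  have h1 : Pr (fun s : Equiv.Perm (Fin n) => pre s a = A ∧ ∃ c, a < c ∧ c ≤ a + D ∧ pre s c ∈ F) ≤
      Pr (fun s : Equiv.Perm (Fin n) => pre s a = A ∧ pre s (a + D) ∈ 𝒞) := by
    refine Pr_mono ?_
    rintro s ⟨h2, c, h3, h4, h5⟩
    refine ⟨h2, ?_⟩
    rw [h𝒞, mem_filter]
    refine ⟨mem_univ _, card_pre s (by omega), ?_, pre s c, h5, ?_, pre_mono s h4⟩
    · rw [← h2]; exact pre_mono s (by omega)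
    · rw [← h2]; exact pre_ssubset s h3 (by omega)
  refine h1.trans ?_
  rw [Pr_flag_mem ha 𝒞 (fun C hC => by
    rw [h𝒞, mem_filter] at hC; exact ⟨hC.2.1, hC.2.2.1⟩)]
  have hcard : 𝒞.card ≤ (n - a - 1).choose (D - 1) := by
    have hinj : Set.InjOn (fun C : Finset (Fin n) => C \ A) (𝒞 : Set (Finset (Fin n))) := by
      intro C hC C' hC' h
      rw [mem_coe, h𝒞, mem_filter] at hC hC'
      have h2 : C = (C \ A) ∪ A := (Finset.sdiff_union_of_subset hC.2.2.1).symm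
      have h3 : C' = (C' \ A) ∪ A := (Finset.sdiff_union_of_subset hC'.2.2.1).symm
      rw [h2, h3]
      exact congrArg (· ∪ A) h
    rw [← Finset.card_image_of_injOn hinj]
    refine ekr_in Aᶜ (m := n - a) ?_ hD hDn _ ?_ ?_ ?_
    · rw [Finset.card_compl, Fintype.card_fin, ha]
    · intro S hS
      obtain ⟨C, _, rfl⟩ := mem_image.1 hS
      intro x hx
      rw [mem_compl]; exact (mem_sdiff.1 hx).2
    · intro S hS
      obtain ⟨C, hC, rfl⟩ := mem_image.1 hS
      rw [h𝒞, mem_filter] at hC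
      show (C \ A).card = D
      rw [Finset.card_sdiff_of_subset hC.2.2.1, hC.2.1, ha]; omega
    · intro S hS T hT hd
      obtain ⟨C, hC, rfl⟩ := mem_image.1 hS
      obtain ⟨C', hC', rfl⟩ := mem_image.1 hT
      rw [h𝒞, mem_filter] at hC hC'
      obtain ⟨_, _, _, U, hU, hAU, hUC⟩ := hC
      obtain ⟨_, _, _, V, hV, hAV, hVC⟩ := hC'
      refine above_meet hF hA hU hV hAU hAV ?_
      exact Disjoint.mono (Finset.sdiff_subset_sdiff hUC (Subset.refl _))
        (Finset.sdiff_subset_sdiff hVC (Subset.refl _)) hd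
  have hsub : a + D - a = D := by omega
  rw [hsub]
  have hp1 : (0 : ℝ) < (n.choose a : ℝ) := by exact_mod_cast Nat.choose_pos han
  have hp2 : (0 : ℝ) < ((n - a).choose D : ℝ) := by
    exact_mod_cast Nat.choose_pos (show D ≤ n - a by omega)
  rw [← choose_ratio hD (show D ≤ n - a by omega), one_div, ← div_eq_inv_mul, div_div,
    mul_comm ((n - a).choose D : ℝ)]
  refine div_le_div_of_nonneg_right ?_ (by positivity)
  exact_mod_cast hcard

end Pool.Agent.Lib_MP_b87ef1_ex
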