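import Pool.Agent.Lib_MP_b87ef1_ex.Low

/-!
# Even `n = 2k`: levels at distance at least two, and the bad triples
-/

namespace Pool.Agent.Lib_MP_b87ef1_ex

open Finset
open Pool.Agent.Results.MP_b87ef1_co.ConjectureFalse

/-- Binomials below the middle are monotone. -/
lemma choose_mono_half {n i j : ℕ} (hij : i ≤ j) (hj : 2 * j ≤ n) :
    n.choose i ≤ n.choose j := by
  induction j, hij using Nat.le_induction with
  | base => exact le_rfl
  | succ j hij ih =>
    refine (ih (by omega)).trans ?_
    exact Nat.choose_le_succ_of_lt_half_left (by omega)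

lemma choose_step (n i : ℕ) (hi : i < n) :
    (n.choose (i + 1) : ℝ) * ((i : ℝ) + 1) = (n.choose i : ℝ) * ((n : ℝ) - i) := by
  have h := Nat.choose_succ_right_eq n i
  have h' : (n.choose (i + 1) : ℝ) * ((i : ℝ) + 1) = (n.choose i : ℝ) * ((n - i : ℕ) : ℝ) := by
    exact_mod_cast h
  rw [h', Nat.cast_sub hi.le]

/-- The numerical inequality for even `n`, distance `j ≥ 2`. -/
lemma even_num {k j : ℕ} (hj : 2 ≤ j) (hjk : 3 * j ≤ k) :
    ((2 * k : ℕ) : ℝ) - 2 * ((k - j : ℕ) : ℝ) - 1 / 2 ≤
      (((2 * k : ℕ) : ℝ) - ((k - j : ℕ) : ℝ)) *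
        (1 - ((2 * k).choose (k - j) : ℝ) / ((2 * k).choose k : ℝ) - 1 / (8 * (k : ℝ))) := by
  have hN : (0 : ℝ) < ((2 * k).choose k : ℝ) := by
    exact_mod_cast Nat.choose_pos (by omega)
  have hk : (0 : ℝ) < (k : ℝ) := by exact_mod_cast (show 0 < k by omega)
  have hj' : (3 : ℝ) * j ≤ k := by exact_mod_cast hjk
  have hj2 : (2 : ℝ) ≤ j := by exact_mod_cast hj
  have e1 : ((k - j : ℕ) : ℝ) = (k : ℝ) - j := Nat.cast_sub (by omega)
  -- `(k+j) C(k-j) = (k-j+1) C(k-j+1)`
  have h1 := choose_step (2 * k) (k - j) (by omega)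
  -- `C(2k,k-j+1) ≤ C(2k,k-1)`
  have h2 : ((2 * k).choose (k - j + 1) : ℝ) ≤ ((2 * k).choose (k - 1) : ℝ) := by
    exact_mod_cast choose_mono_half (n := 2 * k) (show k - j + 1 ≤ k - 1 by omega) (by omega)
  have h3 := choose_step (2 * k) (k - 1) (by omega)
  have e2 : ((k - 1 : ℕ) : ℝ) = (k : ℝ) - 1 := by rw [Nat.cast_sub (by omega)]; simp
  rw [show k - 1 + 1 = k by omega, e2] at h3
  rw [e1] at h1 ⊢
  push_cast at h1 h3 ⊢
  set N := ((2 * k).choose k : ℝ) with hNdef
  set a := ((2 * k).choose (k - j) : ℝ)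
  set b := ((2 * k).choose (k - j + 1) : ℝ)
  set c := ((2 * k).choose (k - 1) : ℝ)
  have h4 : c * (k + 1) = N * k := by linarith
  have h5 : b * (k + 1) ≤ N * k := by nlinarith
  have h6 : a * (k + j) = b * (k - j + 1) := by linarith
  have h7 : a / N * (k + j) * (k + 1) ≤ k * (k - j + 1) := by
    rw [div_mul_eq_mul_div, div_mul_eq_mul_div, div_le_iff₀ hN, h6]
    have : 0 ≤ (k : ℝ) - j + 1 := by linarith
    nlinarith
  have h8 : (1 / (8 * (k : ℝ))) * (k + j) ≤ 1 / 6 := by
    rw [one_div, inv_mul_le_iff₀ (by positivity)]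
    linarith
  -- goal: `2j - 1/2 ≤ (k+j)(1 - a/N - 1/(8k))`
  have h9 : a / N * (k + j) ≤ (k - j + 1) - 2 / 3 := by
    have h10 : (a / N * (k + j)) * (k + 1) ≤ ((k - j + 1) - 2 / 3) * (k + 1) := by
      nlinarith
    exact le_of_mul_le_mul_right h10 (by positivity)
  have h11 : (2 * (k : ℝ) - (k - j)) * (1 - a / N - 1 / (8 * k)) =
      (k + j) - a / N * (k + j) - (1 / (8 * (k : ℝ))) * (k + j) := by ring
  rw [h11]
  linarith

/-- Even `n`, distance `j ≥ 2`. -/
lemma even_low {k j : ℕ} (hj : 2 ≤ j) (hjk : 3 * j ≤ k)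
    {F : Finset (Finset (Fin (2 * k)))} (hF : Admissible F) :
    W F (k - j) ≤ dens F (k - j) *
      (1 - ((2 * k).choose (k - j) : ℝ) / ((2 * k).choose k : ℝ) - 1 / (8 * (k : ℝ))) := by
  refine (W_low hF (i := k - j) (by omega) (by omega)).trans ?_
  refine mul_le_mul_of_nonneg_left ?_ (dens_nonneg _ _)
  have hpos : (0 : ℝ) < ((2 * k : ℕ) : ℝ) - ((k - j : ℕ) : ℝ) := by
    have : ((k - j : ℕ) : ℝ) < ((2 * k : ℕ) : ℝ) := by exact_mod_cast (show k - j < 2 * k by omega)
    linarith
  rw [div_le_iff₀ hpos]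
  exact (even_num hj hjk).trans (le_of_eq (mul_comm _ _))

/-- The bad members of size `k - 1`. -/
noncomputable def tri {k : ℕ} (F : Finset (Finset (Fin (2 * k)))) : Finset (Finset (Fin (2 * k))) := by
  classical
  exact (lev F (k - 1)).filter fun A =>
    ∃ x y, x ∉ A ∧ y ∉ A ∧ x ≠ y ∧ insert x A ∈ F ∧ insert y (insert x A) ∈ F

lemma mem_tri {k : ℕ} {F : Finset (Finset (Fin (2 * k)))} {A : Finset (Fin (2 * k))} :
    A ∈ tri F ↔ A ∈ lev F (k - 1) ∧
      ∃ x y, x ∉ A ∧ y ∉ A ∧ x ≠ y ∧ insert x A ∈ F ∧ insert y (insert x A) ∈ F := by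
  classical
  simp [tri]

/-- A `(c+1)`-set above `A` on a chain. -/
lemma pre_succ_eq {n : ℕ} {s : Equiv.Perm (Fin n)} {a : ℕ} {A : Finset (Fin n)} (ha : a + 1 ≤ n)
    (h : pre s a = A) : ∃ x, x ∉ A ∧ pre s (a + 1) = insert x A := by
  classical
  have h1 : (pre s (a + 1) \ pre s a).card = 1 := by
    rw [Finset.card_sdiff_of_subset (pre_mono s (Nat.le_succ a)), card_pre s ha,
      card_pre s (by omega)]; omega
  obtain ⟨x, hx⟩ := Finset.card_eq_one.1 h1
  refine ⟨x, ?_, ?_⟩
  · have : x ∈ pre s (a + 1) \ pre s a := by rw [hx]; simp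
    rw [← h]; exact (mem_sdiff.1 this).2
  · have h2 := Finset.sdiff_union_of_subset (pre_mono s (Nat.le_succ a))
    rw [hx, h] at h2
    rw [← h2]; rfl

/-- `U` for sets of size `k-1` and the bad ones. -/
lemma even_mid_set {k : ℕ} (hk : 4 ≤ k) {F : Finset (Finset (Fin (2 * k)))} (hF : Admissible F)
    {A : Finset (Fin (2 * k))} (hA : A ∈ lev F (k - 1)) :
    (U F A (k - 1) 1 + U F A (k - 1) 2) / 2 ≤
      1 / ((2 * k).choose (k - 1) : ℝ) *
        (1 / ((k : ℝ) + 1) + (if A ∈ tri F then 1 else 0) / ((k : ℝ) * ((k : ℝ) + 1))) := by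
  classical
  obtain ⟨hAF, hAc⟩ := mem_lev.1 hA
  have hk0 : (0 : ℝ) < (k : ℝ) := by exact_mod_cast (show 0 < k by omega)
  have hC : (0 : ℝ) < ((2 * k).choose (k - 1) : ℝ) := by
    exact_mod_cast Nat.choose_pos (show k - 1 ≤ 2 * k by omega)
  have hnk : 2 * k - (k - 1) = k + 1 := by omega
  by_cases hx : ∃ x, x ∉ A ∧ insert x A ∈ F
  · obtain ⟨x, hxA, hxF⟩ := hx
    -- uniqueness of `x`
    have hux : ∀ z, z ∉ A → insert z A ∈ F → z = x := by
      intro z hz hzF
      by_contra hne
      have hA1 : A ⊂ insert x A := Finset.ssubset_insert hxA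
      have hA2 : A ⊂ insert z A := Finset.ssubset_insert hz
      refine above_meet hF hAF hxF hzF hA1 hA2 ?_
      rw [Finset.disjoint_left]
      intro w hw hw'
      simp only [mem_sdiff, mem_insert] at hw hw'
      have h1 : w = x := hw.1.resolve_right hw.2
      have h2 : w = z := hw'.1.resolve_right hw'.2
      exact hne (h2.symm.trans h1)
    have hB : Pr (fun s : Equiv.Perm (Fin (2 * k)) => pre s (k - 1) = A ∧ pre s k = insert x A) =
        1 / ((2 * k).choose (k - 1) : ℝ) * (1 / ((k : ℝ) + 1)) := by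
      rw [Pr_flag (Finset.subset_insert x A) hAc (c := k) (by
        rw [Finset.card_insert_of_notMem hxA, hAc]; omega), hnk,
        show k - (k - 1) = 1 by omega, Nat.choose_one_right]
      push_cast
      field_simp
    have hU1 : U F A (k - 1) 1 ≤ 1 / ((2 * k).choose (k - 1) : ℝ) * (1 / ((k : ℝ) + 1)) := by
      rw [← hB]
      refine Pr_mono ?_
      rintro s ⟨h1, c, h2, h3, h4⟩
      have hc : c = k := by omega
      subst hc
      refine ⟨h1, ?_⟩
      obtain ⟨z, hz, h5⟩ := pre_succ_eq (show c - 1 + 1 ≤ 2 * c by omega) h1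
      rw [show c - 1 + 1 = c by omega] at h5
      rw [h5] at h4
      rw [h5, hux z hz h4]
    by_cases hy : ∃ y, y ∉ A ∧ x ≠ y ∧ insert y (insert x A) ∈ F
    · obtain ⟨y, hyA, hxy, hyF⟩ := hy
      have htri : A ∈ tri F := mem_tri.2 ⟨hA, x, y, hxA, hyA, hxy, hxF, hyF⟩
      rw [if_pos htri]
      have hyx : y ∉ insert x A := by
        rw [mem_insert]; push Not; exact ⟨hxy.symm, hyA⟩
      -- `C = A + x + y` is the only member of size `k+1` above `A`
      have hCB : Pr (fun s : Equiv.Perm (Fin (2 * k)) =>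
          pre s (k - 1) = A ∧ pre s (k + 1) = insert y (insert x A)) =
          1 / ((2 * k).choose (k - 1) : ℝ) * (2 / ((k : ℝ) * ((k : ℝ) + 1))) := by
        rw [Pr_flag (A := A) (C := insert y (insert x A)) (a := k - 1) (c := k + 1)
          ((Finset.subset_insert x A).trans (Finset.subset_insert y _)) hAc (by
          rw [Finset.card_insert_of_notMem hyx, Finset.card_insert_of_notMem hxA, hAc]; omega), hnk,
          show k + 1 - (k - 1) = 2 by omega, Nat.choose_two_right]
        have : (((k + 1) * (k + 1 - 1) / 2 : ℕ) : ℝ) = ((k : ℝ) + 1) * k / 2 := by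
          rw [Nat.cast_div]
          · push_cast; simp
          · rw [Nat.add_sub_cancel, mul_comm]
            exact (Nat.even_mul_succ_self k).two_dvd
          · norm_num
        rw [this]
        field_simp
      have hU2 : U F A (k - 1) 2 ≤ 1 / ((2 * k).choose (k - 1) : ℝ) * (1 / ((k : ℝ) + 1)) +
          1 / ((2 * k).choose (k - 1) : ℝ) * (2 / ((k : ℝ) * ((k : ℝ) + 1))) := by
        rw [← hB, ← hCB]
        refine le_trans (Pr_mono ?_) (Pr_or_le _ _)
        rintro s ⟨h1, c, h2, h3, h4⟩
        obtain ⟨z, hz, h5⟩ := pre_succ_eq (show k - 1 + 1 ≤ 2 * k by omega) h1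
        rw [show k - 1 + 1 = k by omega] at h5
        rcases Nat.lt_or_ge c (k + 1) with h6 | h6
        · have hc : c = k := by omega
          subst hc
          left
          refine ⟨h1, ?_⟩
          rw [h5] at h4
          rw [h5, hux z hz h4]
        · have hc : c = k + 1 := by omega
          subst hc
          right
          refine ⟨h1, ?_⟩
          by_contra hne
          -- the member `C' = pre (k+1)` differs from `C`
          have hAC' : A ⊂ pre s (k + 1) := by rw [← h1]; exact pre_ssubset s (by omega) (by omega)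
          have hcard : (pre s (k + 1)).card = k + 1 := card_pre s (by omega)
          -- x ∈ C'
          have hxC' : x ∈ pre s (k + 1) := by
            by_contra hx'
            refine above_meet hF hAF hxF h4 (Finset.ssubset_insert hxA) hAC' ?_
            rw [Finset.disjoint_left]
            intro w hw hw'
            simp only [mem_sdiff, mem_insert] at hw hw'
            have h7 : w = x := hw.1.resolve_right hw.2
            exact hx' (h7 ▸ hw'.1)
          have hBC' : insert x A ⊆ pre s (k + 1) := Finset.insert_subset hxC' hAC'.1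
          have hBC : insert x A ⊆ insert y (insert x A) := Finset.subset_insert _ _
          have hcB : (insert x A).card = k := by
            rw [Finset.card_insert_of_notMem hxA, hAc]; omega
          have hcC : (insert y (insert x A)).card = k + 1 := by
            rw [Finset.card_insert_of_notMem hyx, hcB]
          have hBC'' : insert x A ⊂ pre s (k + 1) := by
            refine Finset.ssubset_iff_subset_ne.2 ⟨hBC', fun he => ?_⟩
            rw [← he, hcB] at hcard; omega
          have hBCs : insert x A ⊂ insert y (insert x A) := Finset.ssubset_insert hyx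
          refine above_meet hF hxF h4 hyF hBC'' hBCs ?_
          rw [Finset.disjoint_left]
          intro w hw hw'
          simp only [mem_sdiff] at hw hw'
          have h7 : w = y := by
            rcases mem_insert.1 hw'.1 with h8 | h8
            · exact h8
            · exact absurd h8 hw'.2
          -- then `C ⊆ C'` and equality of sizes
          apply hne
          refine (Finset.eq_of_subset_of_card_le ?_ ?_).symm
          · exact Finset.insert_subset (h7 ▸ hw.1) hBC'
          · rw [hcard, hcC]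
      refine (div_le_div_of_nonneg_right (add_le_add hU1 hU2) (by norm_num)).trans (le_of_eq ?_)
      ring
    · -- no `y`
      have hU2 : U F A (k - 1) 2 ≤ 1 / ((2 * k).choose (k - 1) : ℝ) * (1 / ((k : ℝ) + 1)) := by
        rw [← hB]
        refine Pr_mono ?_
        rintro s ⟨h1, c, h2, h3, h4⟩
        obtain ⟨z, hz, h5⟩ := pre_succ_eq (show k - 1 + 1 ≤ 2 * k by omega) h1
        rw [show k - 1 + 1 = k by omega] at h5
        rcases Nat.lt_or_ge c (k + 1) with h6 | h6
        · have hc : c = k := by omega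
          subst hc
          refine ⟨h1, ?_⟩
          rw [h5] at h4
          rw [h5, hux z hz h4]
        · have hc : c = k + 1 := by omega
          subst hc
          exfalso
          have hAC' : A ⊂ pre s (k + 1) := by rw [← h1]; exact pre_ssubset s (by omega) (by omega)
          have hcard : (pre s (k + 1)).card = k + 1 := card_pre s (by omega)
          have hxC' : x ∈ pre s (k + 1) := by
            by_contra hx'
            refine above_meet hF hAF hxF h4 (Finset.ssubset_insert hxA) hAC' ?_
            rw [Finset.disjoint_left]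
            intro w hw hw'
            simp only [mem_sdiff, mem_insert] at hw hw'
            have h7 : w = x := hw.1.resolve_right hw.2
            exact hx' (h7 ▸ hw'.1)
          have hBC' : insert x A ⊆ pre s (k + 1) := Finset.insert_subset hxC' hAC'.1
          have hcB : (insert x A).card = k := by
            rw [Finset.card_insert_of_notMem hxA, hAc]; omega
          have h8 : (pre s (k + 1) \ insert x A).card = 1 := by
            rw [Finset.card_sdiff_of_subset hBC', hcard, hcB]; omega
          obtain ⟨y, hy'⟩ := Finset.card_eq_one.1 h8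
          have hy1 : y ∈ pre s (k + 1) \ insert x A := by rw [hy']; simp
          rw [mem_sdiff, mem_insert] at hy1
          push Not at hy1
          apply hy
          refine ⟨y, hy1.2.2, hy1.2.1.symm, ?_⟩
          have h9 := Finset.sdiff_union_of_subset hBC'
          rw [hy'] at h9
          rw [show insert y (insert x A) = pre s (k + 1) by rw [← h9]; rfl]
          exact h4
      have h0 : 0 ≤ 1 / ((2 * k).choose (k - 1) : ℝ) *
          ((if A ∈ tri F then 1 else 0) / ((k : ℝ) * ((k : ℝ) + 1))) := by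
        have : (0 : ℝ) ≤ (if A ∈ tri F then 1 else 0) := by split_ifs <;> norm_num
        positivity
      rw [mul_add]
      have h1 := div_le_div_of_nonneg_right (add_le_add hU1 hU2) (by norm_num : (0 : ℝ) ≤ 2)
      have h2 : (1 / ((2 * k).choose (k - 1) : ℝ) * (1 / ((k : ℝ) + 1)) +
        1 / ((2 * k).choose (k - 1) : ℝ) * (1 / ((k : ℝ) + 1))) / 2 =
        1 / ((2 * k).choose (k - 1) : ℝ) * (1 / ((k : ℝ) + 1)) := by ring
      linarith
  · -- no member of size `k` above `A`
    have hU1 : U F A (k - 1) 1 ≤ 0 := by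
      rw [← Pr_false (n := 2 * k)]
      refine Pr_mono ?_
      rintro s ⟨h1, c, h2, h3, h4⟩
      have hc : c = k := by omega
      subst hc
      obtain ⟨z, hz, h5⟩ := pre_succ_eq (show c - 1 + 1 ≤ 2 * c by omega) h1
      rw [show c - 1 + 1 = c by omega] at h5
      exact hx ⟨z, hz, h5 ▸ h4⟩
    have hU2 := U_le hF hAF hAc (D := 2) (by norm_num) (by omega)
    rw [hnk] at hU2
    push_cast at hU2
    have h0 : 0 ≤ 1 / ((2 * k).choose (k - 1) : ℝ) *
        ((if A ∈ tri F then 1 else 0) / ((k : ℝ) * ((k : ℝ) + 1))) := by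
      have : (0 : ℝ) ≤ (if A ∈ tri F then 1 else 0) := by split_ifs <;> norm_num
      positivity
    rw [mul_add]
    have h2 : (1 / ((2 * k).choose (k - 1) : ℝ) * (2 / ((k : ℝ) + 1))) / 2 =
        1 / ((2 * k).choose (k - 1) : ℝ) * (1 / ((k : ℝ) + 1)) := by ring
    linarith

/-- Even `n`, the level `k - 1`. -/
lemma even_mid {k : ℕ} (hk : 4 ≤ k) {F : Finset (Finset (Fin (2 * k)))} (hF : Admissible F) :
    W F (k - 1) ≤ dens F (k - 1) * (1 / ((k : ℝ) + 1)) +
      ((tri F).card : ℝ) / ((2 * k).choose (k - 1) : ℝ) / ((k : ℝ) * ((k : ℝ) + 1)) := by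
  classical
  have h1 := W_low_sum F (i := k - 1) (show 2 * (k - 1) < 2 * k by omega)
  rw [show 2 * k - 2 * (k - 1) - 1 = 1 by omega, show 2 * k - 2 * (k - 1) = 2 by omega] at h1
  refine h1.trans ((Finset.sum_le_sum fun A hA => even_mid_set hk hF hA).trans (le_of_eq ?_))
  rw [← Finset.mul_sum, Finset.sum_add_distrib, Finset.sum_const, nsmul_eq_mul, ← Finset.sum_div,
    Finset.sum_boole]
  have h2 : (lev F (k - 1)).filter (fun A => A ∈ tri F) = tri F := by
    ext A
    rw [mem_filter]
    exact ⟨fun h => h.2, fun h => ⟨(mem_tri.1 h).1, h⟩⟩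
  rw [h2, dens]
  ring

end Pool.Agent.Lib_MP_b87ef1_ex
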