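import Pool.Agent.Lib_MP_b87ef1_ex.Even1

/-!
# Even `n = 2k`: few bad triples
-/

namespace Pool.Agent.Lib_MP_b87ef1_ex

open Finset
open Pool.Agent.Results.MP_b87ef1_co.ConjectureFalse

/-- `P(pre c = C, y ∉ pre i) = (c-i)/c / C(n,c)` for `y ∈ C`, as an upper bound. -/
lemma Pr_late {n : ℕ} {c i : ℕ} {C : Finset (Fin n)} (hC : C.card = c) {y : Fin n} (hy : y ∈ C)
    (hic : i ≤ c) (hc0 : 0 < c) :
    Pr (fun s : Equiv.Perm (Fin n) => pre s c = C ∧ y ∉ pre s i) ≤
      1 / (n.choose c : ℝ) * (((c : ℝ) - i) / c) := by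
  classical
  have hcn : c ≤ n := by rw [← hC]; exact (Finset.card_le_univ C).trans (by simp)
  have h1 : Pr (fun s : Equiv.Perm (Fin n) => pre s c = C ∧ y ∉ pre s i) ≤
      Pr (fun s : Equiv.Perm (Fin n) => pre s i ∈ powersetCard i (C.erase y) ∧ pre s c = C) := by
    refine Pr_mono ?_
    rintro s ⟨h1, h2⟩
    refine ⟨?_, h1⟩
    rw [mem_powersetCard]
    refine ⟨?_, card_pre s (hic.trans hcn)⟩
    intro z hz
    rw [mem_erase]
    refine ⟨?_, ?_⟩
    · rintro rfl; exact h2 hz
    · rw [← h1]; exact pre_mono s hic hz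
  refine h1.trans ?_
  rw [Pr_sum (fun s => pre s i) (powersetCard i (C.erase y))]
  rw [Finset.sum_congr rfl (g := fun _ => 1 / ((n.choose c : ℝ) * (c.choose i : ℝ)))]
  · rw [Finset.sum_const, nsmul_eq_mul, card_powersetCard, card_erase_of_mem hy, hC]
    have hp1 : (0 : ℝ) < (n.choose c : ℝ) := by exact_mod_cast Nat.choose_pos hcn
    have hp2 : (0 : ℝ) < (c.choose i : ℝ) := by exact_mod_cast Nat.choose_pos hic
    have hp3 : (0 : ℝ) < (c : ℝ) := by exact_mod_cast hc0
    have h2 : ((c - 1).choose i : ℝ) * c = (c.choose i : ℝ) * ((c : ℝ) - i) := by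
      obtain ⟨d, rfl⟩ : ∃ d, c = d + 1 := ⟨c - 1, by omega⟩
      rw [Nat.add_sub_cancel]
      have h3 := Nat.choose_mul_succ_eq d i
      have h4 : (d.choose i : ℝ) * ((d : ℝ) + 1) = ((d + 1).choose i : ℝ) * ((d + 1 - i : ℕ) : ℝ) := by
        exact_mod_cast h3
      rw [Nat.cast_sub hic] at h4
      push_cast at h4 ⊢
      exact h4
    have h5 : ((c - 1).choose i : ℝ) = (c.choose i : ℝ) * ((c : ℝ) - i) / c := by
      rw [eq_div_iff hp3.ne']; exact h2
    rw [h5]
    refine le_of_eq ?_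
    field_simp
  · intro A hA
    rw [mem_powersetCard] at hA
    exact Pr_flag' (hA.1.trans (Finset.erase_subset _ _)) hA.2 hC

/-- `P(pre c = C, x ∈ pre i)` for `x ∉ C`, `i ≥ c`. -/
lemma Pr_early {n : ℕ} {c i : ℕ} {C : Finset (Fin n)} (hC : C.card = c) {x : Fin n} (hx : x ∉ C)
    (hci : c ≤ i) (hin : i ≤ n) :
    Pr (fun s : Equiv.Perm (Fin n) => pre s c = C ∧ x ∈ pre s i) ≤
      1 / (n.choose c : ℝ) * (((i : ℝ) - c) / ((n : ℝ) - c)) := by
  classical
  have hcn : c < n := by
    rw [← hC]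
    calc C.card < (univ : Finset (Fin n)).card := by
          refine Finset.card_lt_card (Finset.ssubset_univ_iff.2 ?_)
          rintro rfl; exact hx (mem_univ _)
      _ = n := by simp
  -- reversal
  have h1 : Pr (fun s : Equiv.Perm (Fin n) => pre s c = C ∧ x ∈ pre s i) =
      Pr (fun s : Equiv.Perm (Fin n) => pre s (n - c) = Cᶜ ∧ x ∉ pre s (n - i)) := by
    rw [← Pr_rev (fun s : Equiv.Perm (Fin n) => pre s (n - c) = Cᶜ ∧ x ∉ pre s (n - i))]
    refine Pr_congr fun s => ?_
    rw [pre_rev s (Nat.sub_le n c), pre_rev s (Nat.sub_le n i), show n - (n - c) = c by omega,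
      show n - (n - i) = i by omega, compl_inj_iff, mem_compl, not_not]
  rw [h1]
  have h2 := Pr_late (n := n) (c := n - c) (i := n - i) (C := Cᶜ)
    (by rw [Finset.card_compl, Fintype.card_fin, hC]) (mem_compl.2 hx) (by omega) (by omega)
  refine h2.trans (le_of_eq ?_)
  rw [Nat.choose_symm hcn.le, Nat.cast_sub hcn.le, Nat.cast_sub hin]
  congr 1
  congr 1
  ring

/-- Structure around a bad set. -/
lemma tri_struct {k : ℕ} {F : Finset (Finset (Fin (2 * k)))} (hF : Admissible F)
    {A : Finset (Fin (2 * k))} {x y : Fin (2 * k)} (hA : A ∈ F) (hx : x ∉ A) (hy : y ∉ A)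
    (hxy : x ≠ y) (hB : insert x A ∈ F) (hC : insert y (insert x A) ∈ F) :
    insert y A ∉ F ∧ (∀ G ∈ F, G ⊂ insert y A → G ⊆ A) ∧
      (∀ G ∈ F, insert y A ⊂ G → x ∈ G) := by
  classical
  have hyB : y ∉ insert x A := by
    rw [mem_insert]; push Not; exact ⟨hxy.symm, hy⟩
  have hxB' : x ∉ insert y A := by
    rw [mem_insert]; push Not; exact ⟨hxy, hx⟩
  have hAB : A ≠ insert x A := fun h => hx (h ▸ mem_insert_self _ _)
  refine ⟨?_, ?_, ?_⟩
  · intro h
    refine (hF _ hB _ h A hA ?_ hAB.symm ?_).2 ?_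
    · intro h'; exact hxB' (h' ▸ mem_insert_self _ _)
    · intro h'; exact hy (h' ▸ mem_insert_self _ _)
    · ext z
      simp only [mem_inter, mem_insert]
      constructor
      · rintro ⟨h1, h2⟩
        rcases h1 with rfl | h1
        · rcases h2 with h2 | h2
          · exact absurd h2 hxy
          · exact h2
        · exact h1
      · intro h; exact ⟨Or.inr h, Or.inr h⟩
  · intro G hG hGs
    by_contra hGA
    have hyG : y ∈ G := by
      by_contra hyG
      apply hGA
      intro z hz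
      rcases mem_insert.1 (hGs.1 hz) with rfl | h
      · exact absurd hz hyG
      · exact h
    have hxG : x ∉ G := fun h => hxB' (hGs.1 h)
    refine (hF _ hG _ hB _ hC ?_ ?_ ?_).1 ?_
    · intro h'; exact hyB (h' ▸ hyG)
    · intro h'; exact hxG (h' ▸ mem_insert_of_mem (mem_insert_self _ _))
    · intro h'; exact hyB (h' ▸ mem_insert_self _ _)
    · ext z
      simp only [mem_union, mem_insert]
      constructor
      · rintro (h | h | h)
        · rcases mem_insert.1 (hGs.1 h) with h | h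
          · exact Or.inl h
          · exact Or.inr (Or.inr h)
        · exact Or.inr (Or.inl h)
        · exact Or.inr (Or.inr h)
      · rintro (rfl | h | h)
        · exact Or.inl hyG
        · exact Or.inr (Or.inl h)
        · exact Or.inr (Or.inr h)
  · intro G hG hGs
    by_contra hxG
    refine (hF _ hG _ hB _ hA ?_ ?_ hAB.symm).2 ?_
    · intro h'; exact hxG (h' ▸ mem_insert_self _ _)
    · intro h'
      exact hy (h' ▸ hGs.1 (mem_insert_self _ _))
    · ext z
      simp only [mem_inter, mem_insert]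
      constructor
      · rintro ⟨h1, h2⟩
        rcases h2 with rfl | h2
        · exact absurd h1 hxG
        · exact h2
      · intro h; exact ⟨hGs.1 (mem_insert_of_mem h), Or.inr h⟩

/-- Few bad sets. -/
lemma even_tri {k : ℕ} (hk : 3 ≤ k) {F : Finset (Finset (Fin (2 * k)))} (hF : Admissible F) :
    ((tri F).card : ℝ) ≤ 3 * ((2 * k).choose k : ℝ) * Pr (fun s => ¬ hit F s) := by
  classical
  have hch : ∀ A ∈ tri F, ∃ x y, x ∉ A ∧ y ∉ A ∧ x ≠ y ∧ insert x A ∈ F ∧
      insert y (insert x A) ∈ F := fun A hA => (mem_tri.1 hA).2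
  have : Nonempty (Fin (2 * k)) := ⟨⟨0, by omega⟩⟩
  choose! fx fy h1 h2 h3 h4 h5 using hch
  let B' : Finset (Fin (2 * k)) → Finset (Fin (2 * k)) := fun A => insert (fy A) A
  have hN : (0 : ℝ) < ((2 * k).choose k : ℝ) := by
    exact_mod_cast Nat.choose_pos (show k ≤ 2 * k by omega)
  have hk0 : (0 : ℝ) < (k : ℝ) := by exact_mod_cast (show 0 < k by omega)
  have hinj : Set.InjOn B' (tri F : Set (Finset (Fin (2 * k)))) := by
    intro A hA A' hA' h
    have hA1 := mem_lev.1 (mem_tri.1 hA).1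
    have hA2 := mem_lev.1 (mem_tri.1 hA').1
    have hs := tri_struct hF hA1.1 (h1 A hA) (h2 A hA) (h3 A hA) (h4 A hA) (h5 A hA)
    have h6 : A' ⊂ insert (fy A) A := by
      have : A' ⊂ insert (fy A') A' := Finset.ssubset_insert (h2 A' hA')
      change insert (fy A) A = insert (fy A') A' at h
      rw [h]; exact this
    exact (Finset.eq_of_subset_of_card_le (hs.2.1 A' hA2.1 h6) (by rw [hA1.2, hA2.2])).symm
  have hcard : ((tri F).image B').card = (tri F).card := Finset.card_image_of_injOn hinj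
  -- each `B'` carries a chain without near members
  have hkey : ∀ D ∈ (tri F).image B', 1 / (3 * ((2 * k).choose k : ℝ)) ≤
      Pr (fun s : Equiv.Perm (Fin (2 * k)) => pre s k = D ∧ ¬ hit F s) := by
    intro D hD
    obtain ⟨A, hA, rfl⟩ := mem_image.1 hD
    have hA1 := mem_lev.1 (mem_tri.1 hA).1
    obtain ⟨s1, s2, s3⟩ := tri_struct hF hA1.1 (h1 A hA) (h2 A hA) (h3 A hA) (h4 A hA) (h5 A hA)
    have hBc : (B' A).card = k := by
      show (insert (fy A) A).card = k
      rw [Finset.card_insert_of_notMem (h2 A hA), hA1.2]; omega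
    have hxB : fx A ∉ B' A := by
      show fx A ∉ insert (fy A) A
      rw [mem_insert]; push Not; exact ⟨h3 A hA, h1 A hA⟩
    -- split
    have e1 := Pr_split (fun s : Equiv.Perm (Fin (2 * k)) => pre s k = B' A) (fun s => hit F s)
    rw [Pr_pre hBc] at e1
    have e2 : Pr (fun s : Equiv.Perm (Fin (2 * k)) => pre s k = B' A ∧ hit F s) ≤
        Pr (fun s : Equiv.Perm (Fin (2 * k)) => pre s k = B' A ∧ fy A ∉ pre s ((2 * k + 2) / 3)) +
        Pr (fun s : Equiv.Perm (Fin (2 * k)) => pre s k = B' A ∧ fx A ∈ pre s (4 * k / 3)) := by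
      refine le_trans (Pr_mono ?_) (Pr_or_le _ _)
      rintro s ⟨hs, c, hc, hcF⟩
      rw [mem_nearS] at hc
      rcases lt_trichotomy c k with h | h | h
      · left
        refine ⟨hs, fun hy => ?_⟩
        have hsub : pre s c ⊂ B' A := by rw [← hs]; exact pre_ssubset s h (by omega)
        have h7 := s2 _ hcF hsub
        exact h2 A hA (h7 (pre_mono s (by omega) hy))
      · subst h
        rw [hs] at hcF
        exact absurd hcF s1
      · right
        refine ⟨hs, ?_⟩
        have hsub : B' A ⊂ pre s c := by rw [← hs]; exact pre_ssubset s h (by omega)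
        exact pre_mono s (by omega) (s3 _ hcF hsub)
    have e3 := Pr_late (n := 2 * k) (c := k) (i := (2 * k + 2) / 3) hBc
      (y := fy A) (mem_insert_self _ _) (by omega) (by omega)
    have e4 := Pr_early (n := 2 * k) (c := k) (i := 4 * k / 3) hBc hxB (by omega) (by omega)
    have e5 : ((k : ℝ) - (((2 * k + 2) / 3 : ℕ) : ℝ)) / k ≤ 1 / 3 := by
      rw [div_le_div_iff₀ hk0 (by norm_num)]
      have : (2 : ℝ) * k ≤ 3 * (((2 * k + 2) / 3 : ℕ) : ℝ) := by
        exact_mod_cast (show 2 * k ≤ 3 * ((2 * k + 2) / 3) by omega)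
      linarith
    have e6 : ((((4 * k / 3 : ℕ)) : ℝ) - k) / (((2 * k : ℕ) : ℝ) - k) ≤ 1 / 3 := by
      have h8 : ((2 * k : ℕ) : ℝ) - k = k := by push_cast; ring
      rw [h8, div_le_div_iff₀ hk0 (by norm_num)]
      have : (3 : ℝ) * ((4 * k / 3 : ℕ) : ℝ) ≤ 4 * k := by
        exact_mod_cast (show 3 * (4 * k / 3) ≤ 4 * k by omega)
      linarith
    have hinv : (0 : ℝ) ≤ 1 / ((2 * k).choose k : ℝ) := by positivity
    have e7 := mul_le_mul_of_nonneg_left e5 hinv
    have e8 := mul_le_mul_of_nonneg_left e6 hinv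
    have e9 : 1 / (3 * ((2 * k).choose k : ℝ)) = 1 / ((2 * k).choose k : ℝ) * (1 / 3) := by
      field_simp
    rw [e9]
    linarith
  have h6 := Finset.card_nsmul_le_sum _ _ _ hkey
  rw [nsmul_eq_mul, hcard, ← Pr_sum (fun s => pre s k) ((tri F).image B')] at h6
  have h7 : Pr (fun s : Equiv.Perm (Fin (2 * k)) => pre s k ∈ (tri F).image B' ∧ ¬ hit F s) ≤
      Pr (fun s => ¬ hit F s) := Pr_mono fun s h => h.2
  have h8 := h6.trans h7
  rw [mul_one_div, div_le_iff₀ (by positivity)] at h8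
  linarith

end Pool.Agent.Lib_MP_b87ef1_ex
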