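import Pool.Agent.Lib_MP_b87ef1_ex.Even2

/-!
# Even `n = 2k`: the near levels together
-/

namespace Pool.Agent.Lib_MP_b87ef1_ex

open Finset
open Pool.Agent.Results.MP_b87ef1_co.ConjectureFalse

/-- The near levels at distance at least two from the middle. -/
def restS (k : ℕ) : Finset ℕ := (nearS (2 * k)).filter fun i => i ≠ k - 1 ∧ i ≠ k ∧ i ≠ k + 1

/-- The slack. -/
noncomputable def Q {k : ℕ} (F : Finset (Finset (Fin (2 * k)))) : ℝ :=
  Pr (fun s => ¬ hit F s) + ∑ i ∈ restS k, dens F i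

lemma Q_nonneg {k : ℕ} (F : Finset (Finset (Fin (2 * k)))) : 0 ≤ Q F :=
  add_nonneg (Pr_nonneg _) (Finset.sum_nonneg fun _ _ => dens_nonneg _ _)

lemma P0_le_Q {k : ℕ} (F : Finset (Finset (Fin (2 * k)))) : Pr (fun s => ¬ hit F s) ≤ Q F :=
  le_add_of_nonneg_right (Finset.sum_nonneg fun _ _ => dens_nonneg _ _)

lemma restS_symm {k i : ℕ} (hk : 3 ≤ k) (h : i ∈ restS k) : 2 * k - i ∈ restS k := by
  simp only [restS, mem_filter, mem_nearS] at h ⊢
  omega

lemma Q_cmp {k : ℕ} (hk : 3 ≤ k) (F : Finset (Finset (Fin (2 * k)))) : Q (cmp F) = Q F := by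
  unfold Q
  congr 1
  · rw [Pr_not, Pr_not]
    have := Pr_hit_cmp F
    exact congrArg (fun t => 1 - t) this
  · refine Finset.sum_bij' (fun i _ => 2 * k - i) (fun i _ => 2 * k - i) ?_ ?_ ?_ ?_ ?_
    · intro i hi; exact restS_symm hk hi
    · intro i hi; exact restS_symm hk hi
    · intro i hi
      simp only [restS, mem_filter, mem_nearS] at hi
      omega
    · intro i hi
      simp only [restS, mem_filter, mem_nearS] at hi
      omega
    · intro i hi
      simp only [restS, mem_filter, mem_nearS] at hi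
      exact dens_cmp F (by omega)

lemma W_mid {k : ℕ} (F : Finset (Finset (Fin (2 * k)))) : W F k = 0 := by
  unfold W
  have h1 : Pr (fun s : Equiv.Perm (Fin (2 * k)) =>
      pre s k ∈ F ∧ ∃ c ∈ nearS (2 * k), dst (2 * k) c < dst (2 * k) k ∧ pre s c ∈ F) = 0 := by
    rw [← Pr_false (n := 2 * k)]
    refine Pr_congr fun s => ?_
    simp only [iff_false]
    rintro ⟨_, c, _, h, _⟩
    unfold dst at h; omega
  have h2 : Pr (fun s : Equiv.Perm (Fin (2 * k)) =>
      pre s k ∈ F ∧ ∃ c ∈ nearS (2 * k), c ≠ k ∧ dst (2 * k) c ≤ dst (2 * k) k ∧ pre s c ∈ F) = 0 := by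
    rw [← Pr_false (n := 2 * k)]
    refine Pr_congr fun s => ?_
    simp only [iff_false]
    rintro ⟨_, c, _, h, h', _⟩
    unfold dst at h'; omega
  rw [h1, h2]; norm_num

/-- All near levels together, even `n`. -/
theorem even_near {k : ℕ} (hk : 4 ≤ k) {F : Finset (Finset (Fin (2 * k)))} (hF : Admissible F) :
    ∑ i ∈ nearS (2 * k), ((lev F i).card : ℝ) ≤
      ((2 * k).choose k : ℝ) * (1 - Q F / (8 * (k : ℝ))) := by
  classical
  have hk0 : (0 : ℝ) < (k : ℝ) := by exact_mod_cast (show 0 < k by omega)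
  have hk4 : (4 : ℝ) ≤ (k : ℝ) := by exact_mod_cast hk
  set N := ((2 * k).choose k : ℝ) with hNdef
  have hN : (0 : ℝ) < N := by
    rw [hNdef]; exact_mod_cast Nat.choose_pos (show k ≤ 2 * k by omega)
  -- the value of `C(2k,k-1)`
  have hc : ((2 * k).choose (k - 1) : ℝ) * (k + 1) = N * k := by
    have h3 := choose_step (2 * k) (k - 1) (by omega)
    have e2 : ((k - 1 : ℕ) : ℝ) = (k : ℝ) - 1 := by rw [Nat.cast_sub (by omega)]; simp
    rw [show k - 1 + 1 = k by omega, e2] at h3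
    push_cast at h3
    linarith
  have hcpos : (0 : ℝ) < ((2 * k).choose (k - 1) : ℝ) := by
    exact_mod_cast Nat.choose_pos (show k - 1 ≤ 2 * k by omega)
  have hv1 : ((2 * k).choose (k - 1) : ℝ) / N = 1 - 1 / ((k : ℝ) + 1) := by
    rw [div_eq_iff hN.ne']
    field_simp
    linarith
  -- bad triples
  have hT : ∀ {G : Finset (Finset (Fin (2 * k)))}, Admissible G →
      ((tri G).card : ℝ) / ((2 * k).choose (k - 1) : ℝ) / ((k : ℝ) * ((k : ℝ) + 1)) ≤
        3 * Pr (fun s => ¬ hit G s) / (k : ℝ) ^ 2 := by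
    intro G hG
    have h1 := even_tri (show 3 ≤ k by omega) hG
    rw [div_div, div_le_div_iff₀ (by positivity) (by positivity)]
    have h2 : ((2 * k).choose (k - 1) : ℝ) * ((k : ℝ) * ((k : ℝ) + 1)) = N * (k : ℝ) ^ 2 := by
      calc ((2 * k).choose (k - 1) : ℝ) * ((k : ℝ) * ((k : ℝ) + 1)) =
          (((2 * k).choose (k - 1) : ℝ) * ((k : ℝ) + 1)) * k := by ring
        _ = N * (k : ℝ) ^ 2 := by rw [hc]; ring
    rw [h2]
    have h3 := mul_le_mul_of_nonneg_right h1 (by positivity : (0 : ℝ) ≤ (k : ℝ) ^ 2)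
    refine h3.trans (le_of_eq ?_)
    rw [← hNdef]; ring
  set P0 := Pr (fun s => ¬ hit F s) with hP0
  have hP0c : Pr (fun s => ¬ hit (cmp F) s) = P0 := by
    rw [hP0, Pr_not, Pr_not]
    exact congrArg (fun t => 1 - t) (Pr_hit_cmp F)
  have hP0n : 0 ≤ P0 := Pr_nonneg _
  -- the excess of each level
  have hex : ∀ i ∈ nearS (2 * k), W F i - (1 - ((2 * k).choose i : ℝ) / N) * dens F i ≤
      if i = k - 1 then 3 * P0 / (k : ℝ) ^ 2 else if i = k then 0 else
        if i = k + 1 then 3 * P0 / (k : ℝ) ^ 2 else -(dens F i) / (8 * (k : ℝ)) := by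
    intro i hi
    rw [mem_nearS] at hi
    by_cases h1 : i = k - 1
    · rw [if_pos h1, h1]
      have h2 := even_mid hk hF
      have h3 := hT hF
      rw [hv1]
      have : (1 - (1 - 1 / ((k : ℝ) + 1))) * dens F (k - 1) =
        dens F (k - 1) * (1 / ((k : ℝ) + 1)) := by ring
      rw [this]
      linarith
    rw [if_neg h1]
    by_cases h2 : i = k
    · rw [if_pos h2, h2, W_mid, ← hNdef, div_self hN.ne']
      simp
    rw [if_neg h2]
    by_cases h3 : i = k + 1
    · rw [if_pos h3, h3]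
      have h4 := even_mid hk (adm_cmp hF)
      have h5 := hT (adm_cmp hF)
      rw [hP0c] at h5
      rw [W_cmp F (show k - 1 ≤ 2 * k by omega), dens_cmp F (show k - 1 ≤ 2 * k by omega),
        show 2 * k - (k - 1) = k + 1 by omega] at h4
      have h6 : (2 * k).choose (k + 1) = (2 * k).choose (k - 1) := by
        rw [← Nat.choose_symm (show k + 1 ≤ 2 * k by omega)]
        congr 1; omega
      rw [h6, hv1]
      have : (1 - (1 - 1 / ((k : ℝ) + 1))) * dens F (k + 1) =
        dens F (k + 1) * (1 / ((k : ℝ) + 1)) := by ring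
      rw [this]
      linarith
    rw [if_neg h3]
    rcases Nat.lt_or_ge i k with h4 | h4
    · have h5 := even_low (k := k) (j := k - i) (by omega) (by omega) hF
      rw [show k - (k - i) = i by omega] at h5
      rw [← hNdef] at h5
      have : dens F i * (1 - ((2 * k).choose i : ℝ) / N - 1 / (8 * (k : ℝ))) =
        (1 - ((2 * k).choose i : ℝ) / N) * dens F i - dens F i / (8 * (k : ℝ)) := by ring
      rw [this] at h5
      rw [neg_div]
      linarith
    · have h5 := even_low (k := k) (j := i - k) (by omega) (by omega) (adm_cmp hF)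
      rw [show k - (i - k) = 2 * k - i by omega] at h5
      rw [W_cmp F (show 2 * k - i ≤ 2 * k by omega), dens_cmp F (show 2 * k - i ≤ 2 * k by omega),
        show 2 * k - (2 * k - i) = i by omega, Nat.choose_symm (show i ≤ 2 * k by omega),
        ← hNdef] at h5
      have : dens F i * (1 - ((2 * k).choose i : ℝ) / N - 1 / (8 * (k : ℝ))) =
        (1 - ((2 * k).choose i : ℝ) / N) * dens F i - dens F i / (8 * (k : ℝ)) := by ring
      rw [this] at h5
      rw [neg_div]
      linarith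
  have hsum := Finset.sum_le_sum hex
  -- evaluate the right side
  have hmem1 : k - 1 ∈ nearS (2 * k) := by rw [mem_nearS]; omega
  have hmem2 : k ∈ nearS (2 * k) := by rw [mem_nearS]; omega
  have hmem3 : k + 1 ∈ nearS (2 * k) := by rw [mem_nearS]; omega
  have hR : ∑ i ∈ nearS (2 * k), (if i = k - 1 then 3 * P0 / (k : ℝ) ^ 2 else if i = k then 0 else
        if i = k + 1 then 3 * P0 / (k : ℝ) ^ 2 else -(dens F i) / (8 * (k : ℝ))) =
      6 * P0 / (k : ℝ) ^ 2 - (∑ i ∈ restS k, dens F i) / (8 * (k : ℝ)) := by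
    have h1 : ∀ i ∈ nearS (2 * k), (if i = k - 1 then 3 * P0 / (k : ℝ) ^ 2 else if i = k then 0 else
        if i = k + 1 then 3 * P0 / (k : ℝ) ^ 2 else -(dens F i) / (8 * (k : ℝ))) =
        (if i = k - 1 then 3 * P0 / (k : ℝ) ^ 2 else 0) +
        (if i = k + 1 then 3 * P0 / (k : ℝ) ^ 2 else 0) +
        (if (i ≠ k - 1 ∧ i ≠ k ∧ i ≠ k + 1) then -(dens F i) / (8 * (k : ℝ)) else 0) := by
      intro i _
      by_cases a1 : i = k - 1
      · have a2 : ¬ i = k + 1 := by omega
        have a3 : ¬ (i ≠ k - 1 ∧ i ≠ k ∧ i ≠ k + 1) := by tauto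
        rw [if_pos a1, if_pos a1, if_neg a2, if_neg a3]; ring
      · by_cases a2 : i = k
        · have a4 : ¬ i = k + 1 := by omega
          have a3 : ¬ (i ≠ k - 1 ∧ i ≠ k ∧ i ≠ k + 1) := by tauto
          rw [if_neg a1, if_pos a2, if_neg a1, if_neg a4, if_neg a3]; ring
        · by_cases a4 : i = k + 1
          · have a3 : ¬ (i ≠ k - 1 ∧ i ≠ k ∧ i ≠ k + 1) := by tauto
            rw [if_neg a1, if_neg a2, if_pos a4, if_neg a1, if_pos a4, if_neg a3]; ring
          · have a3 : (i ≠ k - 1 ∧ i ≠ k ∧ i ≠ k + 1) := ⟨a1, a2, a4⟩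
            rw [if_neg a1, if_neg a2, if_neg a4, if_neg a1, if_neg a4, if_pos a3]; ring
    rw [Finset.sum_congr rfl h1, Finset.sum_add_distrib, Finset.sum_add_distrib,
      Finset.sum_ite_eq' (nearS (2 * k)) (k - 1) (fun _ => 3 * P0 / (k : ℝ) ^ 2), if_pos hmem1,
      Finset.sum_ite_eq' (nearS (2 * k)) (k + 1) (fun _ => 3 * P0 / (k : ℝ) ^ 2), if_pos hmem3,
      ← Finset.sum_filter]
    have h2 : ∑ i ∈ (nearS (2 * k)).filter (fun i => i ≠ k - 1 ∧ i ≠ k ∧ i ≠ k + 1),
        -(dens F i) / (8 * (k : ℝ)) = -((∑ i ∈ restS k, dens F i) / (8 * (k : ℝ))) := by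
      rw [restS, Finset.sum_div, ← Finset.sum_neg_distrib]
      refine Finset.sum_congr rfl fun i _ => ?_
      ring
    rw [h2]; ring
  rw [hR, Finset.sum_sub_distrib] at hsum
  have hmain := main_ineq F
  have hhit : Pr (hit F) = 1 - P0 := by
    rw [hP0, Pr_not]; ring
  rw [hhit] at hmain
  -- put together
  have hL : ∑ i ∈ nearS (2 * k), ((lev F i).card : ℝ) =
      N * (∑ i ∈ nearS (2 * k), dens F i -
        ∑ i ∈ nearS (2 * k), (1 - ((2 * k).choose i : ℝ) / N) * dens F i) := by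
    rw [← Finset.sum_sub_distrib, Finset.mul_sum]
    refine Finset.sum_congr rfl fun i hi => ?_
    rw [card_lev (nearS_le hi)]
    field_simp
    ring
  rw [hL]
  refine mul_le_mul_of_nonneg_left ?_ hN.le
  have h6 : 6 * P0 / (k : ℝ) ^ 2 ≤ P0 - P0 / (8 * k) := by
    have h7 : 6 / (k : ℝ) ^ 2 + 1 / (8 * k) ≤ 1 := by
      have h8 : 6 / (k : ℝ) ^ 2 ≤ 6 / 16 := by
        refine div_le_div_of_nonneg_left (by norm_num) (by norm_num) ?_
        nlinarith
      have h9 : 1 / (8 * (k : ℝ)) ≤ 1 / 32 := by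
        refine div_le_div_of_nonneg_left (by norm_num) (by norm_num) ?_
        linarith
      linarith
    have h10 := mul_le_mul_of_nonneg_left h7 hP0n
    have h11 : P0 * (6 / (k : ℝ) ^ 2 + 1 / (8 * k)) = 6 * P0 / (k : ℝ) ^ 2 + P0 / (8 * k) := by ring
    rw [h11] at h10
    linarith
  have h12 : Q F / (8 * (k : ℝ)) = P0 / (8 * k) + (∑ i ∈ restS k, dens F i) / (8 * (k : ℝ)) := by
    rw [Q, ← hP0]; ring
  rw [h12]
  linarith

end Pool.Agent.Lib_MP_b87ef1_ex
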