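import Pool.Agent.Lib_MP_b87ef1_ex.Even3

/-!
# Even `n = 2k`: far levels and the master inequality
-/

namespace Pool.Agent.Lib_MP_b87ef1_ex

open Finset
open Pool.Agent.Results.MP_b87ef1_co.ConjectureFalse

/-- Low far levels. -/
def farS (n : ℕ) : Finset ℕ := (range (n + 1)).filter fun a => 2 ≤ a ∧ 3 * a < n

lemma mem_farS {n a : ℕ} : a ∈ farS n ↔ 2 ≤ a ∧ 3 * a < n := by
  simp only [farS, mem_filter, mem_range]
  constructor
  · rintro ⟨_, h⟩; exact h
  · intro h; exact ⟨by omega, h⟩

/-- No member at near levels `≤ k + 1`. -/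
lemma Pr_clear_le {k : ℕ} (F : Finset (Finset (Fin (2 * k)))) :
    Pr (fun s : Equiv.Perm (Fin (2 * k)) => ∀ c ∈ nearS (2 * k), c ≤ k + 1 → pre s c ∉ F) ≤ Q F := by
  have h1 : Pr (fun s : Equiv.Perm (Fin (2 * k)) => ∀ c ∈ nearS (2 * k), c ≤ k + 1 → pre s c ∉ F) ≤
      Pr (fun s : Equiv.Perm (Fin (2 * k)) => ¬ hit F s) +
      Pr (fun s : Equiv.Perm (Fin (2 * k)) => ∃ c ∈ restS k, pre s c ∈ F) := by
    refine le_trans (Pr_mono ?_) (Pr_or_le _ _)
    intro s hs
    by_cases h : hit F s
    · right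
      obtain ⟨c, hc, hcF⟩ := h
      refine ⟨c, ?_, hcF⟩
      have h2 : ¬ c ≤ k + 1 := fun h => hs c hc h hcF
      simp only [restS, mem_filter]
      exact ⟨hc, by omega, by omega, by omega⟩
    · left; exact h
  refine h1.trans ?_
  unfold Q
  refine add_le_add le_rfl ((Pr_exists_le (restS k) (fun c s => pre s c ∈ F)).trans (le_of_eq ?_))
  refine Finset.sum_congr rfl fun c hc => ?_
  simp only [restS, mem_filter] at hc
  exact Pr_lev F (nearS_le hc.1)

lemma far_level {k a : ℕ} (ha : a ∈ farS (2 * k)) {F : Finset (Finset (Fin (2 * k)))}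
    (hF : Admissible F) : ((lev F a).card : ℝ) ≤ 2 * ((2 * k).choose a : ℝ) * Q F := by
  rw [mem_farS] at ha
  refine (far_general hF (m := k + 1) (show a < k + 1 by omega) (by omega)).trans ?_
  refine mul_le_mul_of_nonneg_left (le_trans (Pr_mono ?_) (Pr_clear_le F)) (by positivity)
  intro s hs c hc hck
  rw [mem_nearS] at hc
  exact hs c (by omega) hck

/-- The extreme levels. -/
def ext {n : ℕ} (F : Finset (Finset (Fin n))) : ℕ :=
  (lev F 0).card + (lev F 1).card + (lev F (n - 1)).card + (lev F n).card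

/-- Levels partition the family. -/
lemma card_eq_levels {n : ℕ} (hn : 6 ≤ n) (F : Finset (Finset (Fin n))) :
    F.card = ∑ i ∈ nearS n, (lev F i).card + ∑ a ∈ farS n, (lev F a).card +
      ∑ a ∈ farS n, (lev F (n - a)).card + ext F := by
  classical
  have h1 : F.card = ∑ i ∈ range (n + 1), (lev F i).card := by
    rw [Finset.card_eq_sum_card_fiberwise (f := fun A => A.card) (t := range (n + 1))]
    · rfl
    · intro A _
      rw [mem_coe, mem_range]
      have := (Finset.card_le_univ A).trans_eq (Fintype.card_fin n)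
      show A.card < n + 1
      omega
  have himg : ∑ a ∈ farS n, (lev F (n - a)).card =
      ∑ i ∈ (farS n).image (fun a => n - a), (lev F i).card := by
    rw [Finset.sum_image]
    intro a ha b hb h
    rw [mem_coe, mem_farS] at ha hb
    simp only at h
    omega
  have hext : ext F = ∑ i ∈ ({0, 1, n - 1, n} : Finset ℕ), (lev F i).card := by
    rw [Finset.sum_insert, Finset.sum_insert, Finset.sum_insert, Finset.sum_singleton]
    · unfold ext; ring
    · rw [mem_singleton]; omega
    · simp only [mem_insert, mem_singleton]; omega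
    · simp only [mem_insert, mem_singleton]; omega
  have hset : range (n + 1) = nearS n ∪ farS n ∪ (farS n).image (fun a => n - a) ∪
      ({0, 1, n - 1, n} : Finset ℕ) := by
    ext i
    simp only [mem_union, mem_range, mem_nearS, mem_farS, mem_image, mem_insert, mem_singleton]
    constructor
    · intro h
      by_cases h1 : n ≤ 3 * i ∧ 3 * i ≤ 2 * n
      · exact Or.inl (Or.inl (Or.inl h1))
      · by_cases h2 : i ≤ 1
        · right; omega
        · by_cases h3 : n - 1 ≤ i
          · right; omega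
          · left
            rcases Nat.lt_or_ge (3 * i) n with h4 | h4
            · left; right; omega
            · right
              exact ⟨n - i, by omega, by omega⟩
    · rintro (((h | h) | ⟨a, h, rfl⟩) | h) <;> omega
  rw [h1, hset, Finset.sum_union, Finset.sum_union, Finset.sum_union, himg, hext]
  · rw [Finset.disjoint_left]
    intro i h1 h2
    rw [mem_nearS] at h1; rw [mem_farS] at h2; omega
  · rw [Finset.disjoint_left]
    intro i h1 h2
    rw [mem_union, mem_nearS, mem_farS] at h1
    rw [mem_image] at h2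
    obtain ⟨a, h3, rfl⟩ := h2
    rw [mem_farS] at h3
    omega
  · rw [Finset.disjoint_left]
    intro i h1 h2
    simp only [mem_union, mem_nearS, mem_farS, mem_image, mem_insert, mem_singleton] at h1 h2
    rcases h1 with (h1 | h1) | ⟨a, h3, rfl⟩ <;> omega

/-- The master inequality for even `n`, with the near sum left open. -/
lemma even_master_near {k : ℕ} (hk : 4 ≤ k) {F : Finset (Finset (Fin (2 * k)))}
    (hF : Admissible F)
    (hnum : 64 * (k : ℝ) * (∑ a ∈ farS (2 * k), ((2 * k).choose a : ℝ)) ≤ ((2 * k).choose k : ℝ)) :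
    (F.card : ℝ) ≤ ∑ i ∈ nearS (2 * k), ((lev F i).card : ℝ) +
      ((2 * k).choose k : ℝ) * Q F / (16 * k) + (ext F : ℝ) := by
  have hk0 : (0 : ℝ) < (k : ℝ) := by exact_mod_cast (show 0 < k by omega)
  have h1 := card_eq_levels (show 6 ≤ 2 * k by omega) F
  have h1' : (F.card : ℝ) = ∑ i ∈ nearS (2 * k), ((lev F i).card : ℝ) +
      ∑ a ∈ farS (2 * k), ((lev F a).card : ℝ) +
      ∑ a ∈ farS (2 * k), ((lev F (2 * k - a)).card : ℝ) + (ext F : ℝ) := by
    exact_mod_cast h1
  have h2 : ∑ a ∈ farS (2 * k), ((lev F a).card : ℝ) ≤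
      2 * (∑ a ∈ farS (2 * k), ((2 * k).choose a : ℝ)) * Q F := by
    rw [Finset.mul_sum, Finset.sum_mul]
    exact Finset.sum_le_sum fun a ha => far_level ha hF
  have h3 : ∑ a ∈ farS (2 * k), ((lev F (2 * k - a)).card : ℝ) ≤
      2 * (∑ a ∈ farS (2 * k), ((2 * k).choose a : ℝ)) * Q F := by
    rw [Finset.mul_sum, Finset.sum_mul]
    refine Finset.sum_le_sum fun a ha => ?_
    have h4 := far_level ha (adm_cmp hF)
    rw [Q_cmp (by omega), card_lev_cmp F (by have := (mem_farS.1 ha); omega)] at h4
    exact h4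
  set S := ∑ a ∈ farS (2 * k), ((2 * k).choose a : ℝ)
  have hQ := Q_nonneg F
  have h5 : 4 * S * Q F ≤ ((2 * k).choose k : ℝ) * Q F / (16 * k) := by
    rw [le_div_iff₀ (by positivity)]
    have := mul_le_mul_of_nonneg_right hnum hQ
    nlinarith
  rw [h1']
  nlinarith

/-- The master inequality for even `n`. -/
lemma even_master {k : ℕ} (hk : 4 ≤ k) {F : Finset (Finset (Fin (2 * k)))}
    (hF : Admissible F)
    (hnum : 64 * (k : ℝ) * (∑ a ∈ farS (2 * k), ((2 * k).choose a : ℝ)) ≤ ((2 * k).choose k : ℝ)) :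
    (F.card : ℝ) ≤ ((2 * k).choose k : ℝ) - ((2 * k).choose k : ℝ) * Q F / (16 * k) + (ext F : ℝ) := by
  have hk0 : (0 : ℝ) < (k : ℝ) := by exact_mod_cast (show 0 < k by omega)
  have h1 := even_master_near hk hF hnum
  have h2 := even_near hk hF
  have h3 : ((2 * k).choose k : ℝ) * (1 - Q F / (8 * (k : ℝ))) + ((2 * k).choose k : ℝ) * Q F / (16 * k)
      = ((2 * k).choose k : ℝ) - ((2 * k).choose k : ℝ) * Q F / (16 * k) := by
    field_simp
    ring
  linarith

/-- The extreme levels have at most `2n + 2` members. -/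
lemma ext_le {n : ℕ} (hn : 1 ≤ n) (F : Finset (Finset (Fin n))) : ext F ≤ 2 * n + 2 := by
  have h : ∀ i, (lev F i).card ≤ n.choose i := by
    intro i
    have : lev F i ⊆ powersetCard i univ := by
      intro A hA
      rw [mem_powersetCard]
      exact ⟨subset_univ _, (mem_lev.1 hA).2⟩
    have := Finset.card_le_card this
    rwa [card_powersetCard, card_univ, Fintype.card_fin] at this
  have h0 := h 0
  have h1 := h 1
  have h2 := h (n - 1)
  have h3 := h n
  rw [Nat.choose_symm hn] at h2
  simp only [Nat.choose_zero_right, Nat.choose_one_right, Nat.choose_self] at h0 h1 h2 h3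
  unfold ext
  omega

lemma ext_cmp {n : ℕ} (hn : 1 ≤ n) (F : Finset (Finset (Fin n))) : ext (cmp F) = ext F := by
  unfold ext
  rw [card_lev_cmp F (Nat.zero_le _), card_lev_cmp F hn, card_lev_cmp F (Nat.sub_le n 1),
    card_lev_cmp F le_rfl, show n - (n - 1) = 1 by omega, Nat.sub_zero, Nat.sub_self]
  ring

end Pool.Agent.Lib_MP_b87ef1_ex
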