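import Pool.Agent.Lib_MP_b87ef1_ex.Even4

/-!
# Even `n = 2k`: the cases with many extreme members
-/

namespace Pool.Agent.Lib_MP_b87ef1_ex

open Finset
open Pool.Agent.Results.MP_b87ef1_co.ConjectureFalse

/-- Case (a): `∅` and a singleton. -/
lemma case_a {k : ℕ} (hk : 2 ≤ k) {F : Finset (Finset (Fin (2 * k)))} (hF : Admissible F)
    (h0 : ∅ ∈ F) {x : Fin (2 * k)} (hx : {x} ∈ F) : 1 / (2 * (k : ℝ)) ≤ Q F := by
  classical
  refine le_trans ?_ (P0_le_Q F)
  have hc : ({x}ᶜ : Finset (Fin (2 * k))).card = 2 * k - 1 := by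
    rw [Finset.card_compl, Fintype.card_fin, Finset.card_singleton]
  have h1 := Pr_pre (n := 2 * k) hc
  rw [Nat.choose_symm (show 1 ≤ 2 * k by omega), Nat.choose_one_right] at h1
  push_cast at h1
  rw [← h1]
  refine Pr_mono ?_
  rintro s hs ⟨c, hc, hcF⟩
  rw [mem_nearS] at hc
  have hcard : (pre s c).card = c := card_pre s (by omega)
  have hsub : pre s c ⊆ ({x}ᶜ : Finset (Fin (2 * k))) := by
    rw [← hs]; exact pre_mono s (by omega)
  have hxn : x ∉ pre s c := fun h => by
    have := hsub h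
    rw [mem_compl, mem_singleton] at this
    exact this rfl
  refine (hF _ hcF _ hx ∅ h0 ?_ ?_ ?_).2 ?_
  · rintro h; exact hxn (h ▸ mem_singleton_self x)
  · intro h; rw [h, card_empty] at hcard; omega
  · exact (singleton_ne_empty x)
  · rw [Finset.inter_singleton_of_notMem hxn]

section caseD

variable {k : ℕ}

/-- The `(k+1)`-sets containing `x` with no near member through `x` inside. -/
noncomputable def RR (F : Finset (Finset (Fin (2 * k)))) (x : Fin (2 * k)) :
    Finset (Finset (Fin (2 * k))) := by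
  classical
  exact univ.filter fun C => x ∈ C ∧ C.card = k + 1 ∧
    ∀ S ∈ F, S.card ∈ nearS (2 * k) → x ∈ S → ¬ S ⊆ C

/-- The `(k+1)`-sets containing `x` that are not members. -/
noncomputable def MM (F : Finset (Finset (Fin (2 * k)))) (x : Fin (2 * k)) :
    Finset (Finset (Fin (2 * k))) := by
  classical
  exact univ.filter fun C => x ∈ C ∧ C.card = k + 1 ∧ C ∉ F

lemma mem_RR {F : Finset (Finset (Fin (2 * k)))} {x : Fin (2 * k)} {C : Finset (Fin (2 * k))} :
    C ∈ RR F x ↔ x ∈ C ∧ C.card = k + 1 ∧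
      ∀ S ∈ F, S.card ∈ nearS (2 * k) → x ∈ S → ¬ S ⊆ C := by
  classical
  simp [RR]

lemma mem_MM {F : Finset (Finset (Fin (2 * k)))} {x : Fin (2 * k)} {C : Finset (Fin (2 * k))} :
    C ∈ MM F x ↔ x ∈ C ∧ C.card = k + 1 ∧ C ∉ F := by
  classical
  simp [MM]

lemma choose_id (hk : 1 ≤ k) :
    (((2 * k).choose 1 : ℕ) : ℝ) * ((2 * k - 1).choose k : ℝ) = (k : ℝ) * ((2 * k).choose k : ℝ) := by
  have h1 := choose_step (2 * k) k (by omega)
  have h2 := Nat.add_one_mul_choose_eq (2 * k - 1) k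
  rw [show 2 * k - 1 + 1 = 2 * k by omega] at h2
  have h3 : ((2 * k : ℕ) : ℝ) * ((2 * k - 1).choose k : ℝ) =
      ((2 * k).choose (k + 1) : ℝ) * ((k : ℝ) + 1) := by exact_mod_cast h2
  rw [Nat.choose_one_right, h3, h1]
  push_cast; ring

/-- `|R_x| ≤ k N Q`. -/
lemma card_RR (hk : 4 ≤ k) {F : Finset (Finset (Fin (2 * k)))} (x : Fin (2 * k)) :
    ((RR F x).card : ℝ) ≤ (k : ℝ) * ((2 * k).choose k : ℝ) * Q F := by
  classical
  have h1 := Pr_flag_mem (n := 2 * k) (a := 1) (c := k + 1) (A := {x}) (card_singleton x)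
    (RR F x) (fun C hC => ⟨(mem_RR.1 hC).2.1, singleton_subset_iff.2 (mem_RR.1 hC).1⟩)
  rw [show k + 1 - 1 = k by omega, choose_id (by omega)] at h1
  have h2 : Pr (fun s : Equiv.Perm (Fin (2 * k)) => pre s 1 = {x} ∧ pre s (k + 1) ∈ RR F x) ≤ Q F := by
    refine le_trans (Pr_mono ?_) (Pr_clear_le F)
    rintro s ⟨h3, h4⟩ c hc hck hcF
    have hc' := mem_nearS.1 hc
    have hcard : (pre s c).card = c := card_pre s (by omega)
    refine (mem_RR.1 h4).2.2 _ hcF (by rw [hcard]; exact hc) ?_ (pre_mono s hck)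
    have : pre s 1 ⊆ pre s c := pre_mono s (by omega)
    rw [h3] at this
    exact singleton_subset_iff.1 this
  rw [h1] at h2
  have hN : (0 : ℝ) < ((2 * k).choose k : ℝ) := by
    exact_mod_cast Nat.choose_pos (show k ≤ 2 * k by omega)
  have hk0 : (0 : ℝ) < (k : ℝ) := by exact_mod_cast (show 0 < k by omega)
  rw [div_le_iff₀ (by positivity)] at h2
  linarith

/-- Members through `x` meeting in `{x}` only are impossible. -/
lemma meet_x {F : Finset (Finset (Fin (2 * k)))} (hF : Admissible F) {x : Fin (2 * k)}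
    (hx : {x} ∈ F) {S S' : Finset (Fin (2 * k))} (hS : S ∈ F) (hS' : S' ∈ F) (h2 : 2 ≤ S.card)
    (h2' : 2 ≤ S'.card) (hxS : x ∈ S) (hxS' : x ∈ S') (hi : ∀ z, z ∈ S → z ∈ S' → z = x) : False := by
  have he : S ∩ S' = {x} := by
    ext z
    rw [mem_inter, mem_singleton]
    exact ⟨fun h => hi z h.1 h.2, fun h => h ▸ ⟨hxS, hxS'⟩⟩
  refine (hF S hS S' hS' {x} hx ?_ ?_ ?_).2 he
  · rintro rfl
    rw [inter_self] at he
    rw [he, card_singleton] at h2; omega
  · rintro rfl; rw [card_singleton] at h2; omega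
  · rintro rfl; rw [card_singleton] at h2'; omega

lemma near_card {S : Finset (Fin (2 * k))} (hk : 4 ≤ k) (h : S.card ∈ nearS (2 * k)) :
    2 ≤ S.card := by
  rw [mem_nearS] at h; omega

/-- Members of size `k` through `x`. -/
lemma card_Lk (hk : 4 ≤ k) {F : Finset (Finset (Fin (2 * k)))} (hF : Admissible F)
    {x : Fin (2 * k)} (hx : {x} ∈ F) :
    ((lev F k).filter fun S => x ∈ S).card ≤ (RR F x).card := by
  classical
  refine Finset.card_le_card_of_injOn (fun S => insert x Sᶜ) ?_ ?_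
  · intro S hS
    rw [mem_coe, mem_filter, mem_lev] at hS
    obtain ⟨⟨hSF, hSc⟩, hxS⟩ := hS
    rw [mem_coe, mem_RR]
    refine ⟨mem_insert_self _ _, ?_, ?_⟩
    · rw [card_insert_of_notMem (by simpa using hxS), card_compl, Fintype.card_fin, hSc]; omega
    · intro S' hS' hn hxS' hsub
      refine meet_x hF hx hSF hS' (by omega) (near_card hk hn) hxS hxS' ?_
      intro z hz hz'
      have := hsub hz'
      rw [mem_insert, mem_compl] at this
      exact this.resolve_right (fun h => h hz)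
  · intro S hS S' hS' h
    rw [mem_coe, mem_filter] at hS hS'
    have h1 : Sᶜ = S'ᶜ := by
      have a1 : x ∉ Sᶜ := by simpa using hS.2
      have a2 : x ∉ S'ᶜ := by simpa using hS'.2
      have h' : insert x Sᶜ = insert x S'ᶜ := h
      rw [← erase_insert a1, ← erase_insert a2, h']
    exact compl_injective h1

/-- Members of size `k - 1` through `x`. -/
lemma card_Lk1 (hk : 4 ≤ k) {F : Finset (Finset (Fin (2 * k)))} (hF : Admissible F)
    {x : Fin (2 * k)} (hx : {x} ∈ F) :
    ((lev F (k - 1)).filter fun S => x ∈ S).card ≤ (RR F x).card * (2 * k) := by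
  classical
  have hz : ∀ S ∈ (lev F (k - 1)).filter (fun S => x ∈ S), ∃ z, z ∉ S := by
    intro S hS
    rw [mem_filter, mem_lev] at hS
    by_contra h
    push Not at h
    have : S = univ := eq_univ_iff_forall.2 h
    have h2 := hS.1.2
    rw [this, card_univ, Fintype.card_fin] at h2
    omega
  have : Nonempty (Fin (2 * k)) := ⟨x⟩
  choose! z hz using hz
  have hcard : (RR F x).card * (2 * k) = (RR F x ×ˢ (univ : Finset (Fin (2 * k)))).card := by
    rw [card_product, card_univ, Fintype.card_fin]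
  rw [hcard]
  refine Finset.card_le_card_of_injOn (fun S => (insert x (Sᶜ.erase (z S)), z S)) ?_ ?_
  · intro S hS'
    rw [mem_coe] at hS'
    have hS := hS'
    rw [mem_filter, mem_lev] at hS
    obtain ⟨⟨hSF, hSc⟩, hxS⟩ := hS
    rw [mem_coe, mem_product]
    refine ⟨?_, mem_univ _⟩
    rw [mem_RR]
    refine ⟨mem_insert_self _ _, ?_, ?_⟩
    · have h1 : x ∉ Sᶜ.erase (z S) := by
        rw [mem_erase, mem_compl]; rintro ⟨_, h⟩; exact h hxS
      rw [card_insert_of_notMem h1, card_erase_of_mem (mem_compl.2 (hz S hS')), card_compl,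
        Fintype.card_fin, hSc]; omega
    · intro S' hS' hn hxS' hsub
      refine meet_x hF hx hSF hS' (by omega) (near_card hk hn) hxS hxS' ?_
      intro w hw hw'
      have := hsub hw'
      rw [mem_insert, mem_erase, mem_compl] at this
      exact this.resolve_right (fun h => h.2 hw)
  · intro S hS S' hS' h
    rw [mem_coe] at hS hS'
    have hxS := (mem_filter.1 hS).2
    have hxS' := (mem_filter.1 hS').2
    simp only [Prod.mk.injEq] at h
    obtain ⟨h1, h2⟩ := h
    have a1 : x ∉ Sᶜ.erase (z S) := by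
      rw [mem_erase, mem_compl]; rintro ⟨_, h⟩; exact h hxS
    have a2 : x ∉ S'ᶜ.erase (z S') := by
      rw [mem_erase, mem_compl]; rintro ⟨_, h⟩; exact h hxS'
    have h3 : Sᶜ.erase (z S) = S'ᶜ.erase (z S') := by
      rw [← erase_insert a1, ← erase_insert a2, h1]
    have h4 : Sᶜ = S'ᶜ := by
      rw [← insert_erase (mem_compl.2 (hz S hS)), ← insert_erase (mem_compl.2 (hz S' hS')), h3, h2]
    exact compl_injective h4

/-- `|M_x| ≤ 4 k^3 N Q`. -/
lemma card_MM (hk : 4 ≤ k) {F : Finset (Finset (Fin (2 * k)))} (hF : Admissible F)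
    {x : Fin (2 * k)} (hx : {x} ∈ F) :
    ((MM F x).card : ℝ) ≤ 4 * (k : ℝ) ^ 3 * ((2 * k).choose k : ℝ) * Q F := by
  classical
  have hN : (0 : ℝ) < ((2 * k).choose k : ℝ) := by
    exact_mod_cast Nat.choose_pos (show k ≤ 2 * k by omega)
  have hk0 : (0 : ℝ) < (k : ℝ) := by exact_mod_cast (show 0 < k by omega)
  have hk4 : (4 : ℝ) ≤ (k : ℝ) := by exact_mod_cast hk
  have hQ := Q_nonneg F
  have h1 := Pr_flag_mem (n := 2 * k) (a := 1) (c := k + 1) (A := {x}) (card_singleton x)
    (MM F x) (fun C hC => ⟨(mem_MM.1 hC).2.1, singleton_subset_iff.2 (mem_MM.1 hC).1⟩)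
  rw [show k + 1 - 1 = k by omega, choose_id (by omega)] at h1
  set L0 := (lev F k).filter fun S => x ∈ S with hL0
  set L1 := (lev F (k - 1)).filter fun S => x ∈ S with hL1
  have h2 : Pr (fun s : Equiv.Perm (Fin (2 * k)) => pre s 1 = {x} ∧ pre s (k + 1) ∈ MM F x) ≤
      Pr (fun s : Equiv.Perm (Fin (2 * k)) => ∀ c ∈ nearS (2 * k), c ≤ k + 1 → pre s c ∉ F) +
      (Pr (fun s : Equiv.Perm (Fin (2 * k)) => pre s k ∈ L0) +
      (Pr (fun s : Equiv.Perm (Fin (2 * k)) => pre s (k - 1) ∈ L1) +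
      Pr (fun s : Equiv.Perm (Fin (2 * k)) => ∃ c ∈ restS k, pre s c ∈ F))) := by
    refine le_trans (Pr_mono ?_) ((Pr_or_le _ _).trans (add_le_add le_rfl
      ((Pr_or_le _ _).trans (add_le_add le_rfl (Pr_or_le _ _)))))
    rintro s ⟨h3, h4⟩
    by_cases h5 : ∀ c ∈ nearS (2 * k), c ≤ k + 1 → pre s c ∉ F
    · exact Or.inl h5
    · right
      push Not at h5
      obtain ⟨c, hc, hck, hcF⟩ := h5
      have hc' := mem_nearS.1 hc
      have hcard : (pre s c).card = c := card_pre s (by omega)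
      have hxc : x ∈ pre s c := by
        have : pre s 1 ⊆ pre s c := pre_mono s (by omega)
        rw [h3] at this
        exact singleton_subset_iff.1 this
      by_cases e1 : c = k + 1
      · subst e1
        exact absurd hcF (mem_MM.1 h4).2.2
      by_cases e2 : c = k
      · subst e2
        left
        rw [hL0, mem_filter, mem_lev]
        exact ⟨⟨hcF, hcard⟩, hxc⟩
      by_cases e3 : c = k - 1
      · right; left
        rw [hL1, mem_filter, mem_lev, ← e3]
        exact ⟨⟨hcF, hcard⟩, hxc⟩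
      · right; right
        refine ⟨c, ?_, hcF⟩
        simp only [restS, mem_filter]
        exact ⟨hc, e3, e2, e1⟩
  have h3 := Pr_clear_le F
  have h4 : Pr (fun s : Equiv.Perm (Fin (2 * k)) => ∃ c ∈ restS k, pre s c ∈ F) ≤ Q F := by
    refine ((Pr_exists_le (restS k) (fun c s => pre s c ∈ F)).trans ?_)
    unfold Q
    refine le_trans (le_of_eq ?_) (le_add_of_nonneg_left (Pr_nonneg _))
    refine Finset.sum_congr rfl fun c hc => ?_
    simp only [restS, mem_filter] at hc
    exact Pr_lev F (nearS_le hc.1)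
  have hR := card_RR hk (F := F) x
  have h5 : Pr (fun s : Equiv.Perm (Fin (2 * k)) => pre s k ∈ L0) ≤ (k : ℝ) * Q F := by
    rw [Pr_pre_mem L0 (fun A hA => (mem_lev.1 (mem_filter.1 hA).1).2), div_le_iff₀ hN]
    have : ((L0.card : ℕ) : ℝ) ≤ ((RR F x).card : ℝ) := by exact_mod_cast card_Lk hk hF hx
    nlinarith
  have hc : ((2 * k).choose (k - 1) : ℝ) * (k + 1) = ((2 * k).choose k : ℝ) * k := by
    have h3 := choose_step (2 * k) (k - 1) (by omega)
    have e2 : ((k - 1 : ℕ) : ℝ) = (k : ℝ) - 1 := by rw [Nat.cast_sub (by omega)]; simp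
    rw [show k - 1 + 1 = k by omega, e2] at h3
    push_cast at h3
    linarith
  have hcpos : (0 : ℝ) < ((2 * k).choose (k - 1) : ℝ) := by
    exact_mod_cast Nat.choose_pos (show k - 1 ≤ 2 * k by omega)
  have h6 : Pr (fun s : Equiv.Perm (Fin (2 * k)) => pre s (k - 1) ∈ L1) ≤
      2 * (k : ℝ) * ((k : ℝ) + 1) * Q F := by
    rw [Pr_pre_mem L1 (fun A hA => (mem_lev.1 (mem_filter.1 hA).1).2), div_le_iff₀ hcpos]
    have h7 : ((L1.card : ℕ) : ℝ) ≤ ((RR F x).card : ℝ) * (2 * k) := by
      exact_mod_cast card_Lk1 hk hF hx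
    have h8 : ((RR F x).card : ℝ) * (2 * k) ≤ (k : ℝ) * ((2 * k).choose k : ℝ) * Q F * (2 * k) :=
      mul_le_mul_of_nonneg_right hR (by positivity)
    have h9 : 2 * (k : ℝ) * ((k : ℝ) + 1) * Q F * ((2 * k).choose (k - 1) : ℝ) =
        2 * (k : ℝ) * Q F * (((2 * k).choose (k - 1) : ℝ) * ((k : ℝ) + 1)) := by ring
    rw [h9, hc]
    linarith
  rw [h1] at h2
  have h7 : ((MM F x).card : ℝ) / ((k : ℝ) * ((2 * k).choose k : ℝ)) ≤ 4 * (k : ℝ) ^ 2 * Q F := by
    refine h2.trans ?_
    have h8 : 2 + (k : ℝ) + 2 * (k : ℝ) * ((k : ℝ) + 1) ≤ 4 * (k : ℝ) ^ 2 := by nlinarith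
    have h9 := mul_le_mul_of_nonneg_right h8 hQ
    linarith
  rw [div_le_iff₀ (by positivity)] at h7
  refine h7.trans (le_of_eq ?_)
  ring

/-- Members of size `k` avoiding `x`. -/
lemma card_Nk (hk : 4 ≤ k) {F : Finset (Finset (Fin (2 * k)))} (hF : Admissible F)
    {x : Fin (2 * k)} (hx : {x} ∈ F) :
    ((lev F k).filter fun S => x ∉ S).card ≤ (MM F x).card := by
  classical
  refine Finset.card_le_card_of_injOn (fun S => insert x S) ?_ ?_
  · intro S hS
    rw [mem_coe, mem_filter, mem_lev] at hS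
    obtain ⟨⟨hSF, hSc⟩, hxS⟩ := hS
    rw [mem_coe, mem_MM]
    refine ⟨mem_insert_self _ _, ?_, ?_⟩
    · rw [card_insert_of_notMem hxS, hSc]
    · intro h
      refine (hF S hSF {x} hx _ h ?_ ?_ ?_).1 ?_
      · rintro rfl; exact hxS (mem_singleton_self x)
      · intro h'; exact hxS (h' ▸ mem_insert_self x S)
      · intro h'
        have := congrArg Finset.card h'
        rw [card_singleton, card_insert_of_notMem hxS] at this
        omega
      · rw [union_comm]; rfl
  · intro S hS S' hS' h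
    rw [mem_coe, mem_filter] at hS hS'
    have h' : insert x S = insert x S' := h
    rw [← erase_insert hS.2, ← erase_insert hS'.2, h']

/-- Members of size `k-1` avoiding `x` and `y`. -/
lemma card_Nk1 (hk : 4 ≤ k) {F : Finset (Finset (Fin (2 * k)))} (hF : Admissible F)
    {x y : Fin (2 * k)} (hxy : x ≠ y) :
    ((lev F (k - 1)).filter fun S => x ∉ S ∧ y ∉ S).card ≤
      (MM F x).card * (2 * k) + (MM F y).card * (2 * k) := by
  classical
  set T := (lev F (k - 1)).filter fun S => x ∉ S ∧ y ∉ S with hT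
  have hz : ∀ S ∈ T, ∃ z w, z ≠ w ∧ z ∉ S ∧ w ∉ S ∧ z ≠ x ∧ z ≠ y ∧ w ≠ x ∧ w ≠ y := by
    intro S hS
    rw [hT, mem_filter, mem_lev] at hS
    obtain ⟨⟨_, hSc⟩, hxS, hyS⟩ := hS
    have hc : 1 < (Sᶜ \ {x, y}).card := by
      have h1 : ({x, y} : Finset (Fin (2 * k))) ⊆ Sᶜ := by
        intro w hw
        rw [mem_insert, mem_singleton] at hw
        rcases hw with rfl | rfl
        · simpa using hxS
        · simpa using hyS
      rw [card_sdiff_of_subset h1, card_compl, Fintype.card_fin, hSc, card_pair hxy]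
      omega
    obtain ⟨z, hz, w, hw, hzw⟩ := Finset.one_lt_card.1 hc
    simp only [mem_sdiff, mem_compl, mem_insert, mem_singleton, not_or] at hz hw
    exact ⟨z, w, hzw, hz.1, hw.1, hz.2.1, hz.2.2, hw.2.1, hw.2.2⟩
  have : Nonempty (Fin (2 * k)) := ⟨x⟩
  choose! z w h1 h2 h3 h4 h5 h6 h7 using hz
  -- not both
  have hnot : ∀ S ∈ T, insert (z S) (insert x S) ∈ F → insert (w S) (insert y S) ∉ F := by
    intro S hS ha hb
    have hS' := hS
    rw [hT, mem_filter, mem_lev] at hS'
    obtain ⟨⟨hSF, hSc⟩, hxS, hyS⟩ := hS'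
    refine (hF _ ha _ hb S hSF ?_ ?_ ?_).2 ?_
    · intro h
      have : x ∈ insert (w S) (insert y S) := h ▸ mem_insert_of_mem (mem_insert_self _ _)
      rw [mem_insert, mem_insert] at this
      rcases this with h' | h' | h'
      · exact h6 S hS h'.symm
      · exact hxy h'
      · exact hxS h'
    · intro h; exact hxS (h ▸ mem_insert_of_mem (mem_insert_self _ _))
    · intro h; exact hyS (h ▸ mem_insert_of_mem (mem_insert_self _ _))
    · ext v
      simp only [mem_inter, mem_insert]
      constructor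
      · rintro ⟨a, b⟩
        rcases a with a | a | a
        · rcases b with b | b | b
          · exact absurd (a.symm.trans b) (h1 S hS)
          · exact absurd (a.symm.trans b) (h5 S hS)
          · exact b
        · rcases b with b | b | b
          · exact absurd (b.symm.trans a) (h6 S hS)
          · exact absurd (a.symm.trans b) hxy
          · exact b
        · exact a
      · intro h; exact ⟨Or.inr (Or.inr h), Or.inr (Or.inr h)⟩
  have hsplit : T.card = (T.filter fun S => insert (z S) (insert x S) ∉ F).card +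
      (T.filter fun S => ¬ insert (z S) (insert x S) ∉ F).card :=
    (Finset.card_filter_add_card_filter_not _).symm
  rw [hsplit]
  have hpx : (MM F x).card * (2 * k) = (MM F x ×ˢ (univ : Finset (Fin (2 * k)))).card := by
    rw [card_product, card_univ, Fintype.card_fin]
  have hpy : (MM F y).card * (2 * k) = (MM F y ×ˢ (univ : Finset (Fin (2 * k)))).card := by
    rw [card_product, card_univ, Fintype.card_fin]
  rw [hpx, hpy]
  refine add_le_add ?_ ?_
  · refine Finset.card_le_card_of_injOn (fun S => (insert (z S) (insert x S), z S)) ?_ ?_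
    · intro S hS
      rw [mem_coe, mem_filter] at hS
      have hS' := hS.1
      rw [hT, mem_filter, mem_lev] at hS'
      obtain ⟨⟨hSF, hSc⟩, hxS, hyS⟩ := hS'
      rw [mem_coe, mem_product, mem_MM]
      refine ⟨⟨mem_insert_of_mem (mem_insert_self _ _), ?_, hS.2⟩, mem_univ _⟩
      rw [card_insert_of_notMem, card_insert_of_notMem hxS, hSc]
      · omega
      · rw [mem_insert]; rintro (h | h)
        · exact h4 S hS.1 h
        · exact h2 S hS.1 h
    · intro S hS S' hS' h
      rw [mem_coe, mem_filter] at hS hS'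
      simp only [Prod.mk.injEq] at h
      obtain ⟨ha, hb⟩ := h
      have b1 := (mem_filter.1 (hT ▸ hS.1)).2.1
      have b2 := (mem_filter.1 (hT ▸ hS'.1)).2.1
      have a1 : z S ∉ insert x S := by
        rw [mem_insert]; rintro (h | h)
        · exact h4 S hS.1 h
        · exact h2 S hS.1 h
      have a2 : z S' ∉ insert x S' := by
        rw [mem_insert]; rintro (h | h)
        · exact h4 S' hS'.1 h
        · exact h2 S' hS'.1 h
      have e1 : insert x S = insert x S' := by
        rw [← erase_insert a1, ← erase_insert a2, ha, hb]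
      rw [← erase_insert b1, ← erase_insert b2, e1]
  · refine Finset.card_le_card_of_injOn (fun S => (insert (w S) (insert y S), w S)) ?_ ?_
    · intro S hS
      rw [mem_coe, mem_filter, not_not] at hS
      have hS' := hS.1
      rw [hT, mem_filter, mem_lev] at hS'
      obtain ⟨⟨hSF, hSc⟩, hxS, hyS⟩ := hS'
      rw [mem_coe, mem_product, mem_MM]
      refine ⟨⟨mem_insert_of_mem (mem_insert_self _ _), ?_, hnot S hS.1 hS.2⟩, mem_univ _⟩
      rw [card_insert_of_notMem, card_insert_of_notMem hyS, hSc]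
      · omega
      · rw [mem_insert]; rintro (h | h)
        · exact h7 S hS.1 h
        · exact h3 S hS.1 h
    · intro S hS S' hS' h
      rw [mem_coe, mem_filter] at hS hS'
      simp only [Prod.mk.injEq] at h
      obtain ⟨ha, hb⟩ := h
      have b1 := (mem_filter.1 (hT ▸ hS.1)).2.2
      have b2 := (mem_filter.1 (hT ▸ hS'.1)).2.2
      have a1 : w S ∉ insert y S := by
        rw [mem_insert]; rintro (h | h)
        · exact h7 S hS.1 h
        · exact h3 S hS.1 h
      have a2 : w S' ∉ insert y S' := by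
        rw [mem_insert]; rintro (h | h)
        · exact h7 S' hS'.1 h
        · exact h3 S' hS'.1 h
      have e1 : insert y S = insert y S' := by
        rw [← erase_insert a1, ← erase_insert a2, ha, hb]
      rw [← erase_insert b1, ← erase_insert b2, e1]

/-- Case (d): two singletons, the near sum. -/
lemma case_d (hk : 4 ≤ k) {F : Finset (Finset (Fin (2 * k)))} (hF : Admissible F)
    {x y : Fin (2 * k)} (hxy : x ≠ y) (hx : {x} ∈ F) (hy : {y} ∈ F) :
    ∑ i ∈ nearS (2 * k), ((lev F i).card : ℝ) ≤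
      ((2 * k).choose k : ℝ) * ((k : ℝ) / ((k : ℝ) + 1)) +
        26 * (k : ℝ) ^ 4 * ((2 * k).choose k : ℝ) * Q F := by
  classical
  have hN : (0 : ℝ) < ((2 * k).choose k : ℝ) := by
    exact_mod_cast Nat.choose_pos (show k ≤ 2 * k by omega)
  have hk0 : (0 : ℝ) < (k : ℝ) := by exact_mod_cast (show 0 < k by omega)
  have hk4 : (4 : ℝ) ≤ (k : ℝ) := by exact_mod_cast hk
  have hQ := Q_nonneg F
  set N := ((2 * k).choose k : ℝ) with hNdef
  have hRx := card_RR hk (F := F) x
  have hRy := card_RR hk (F := F) y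
  have hMx := card_MM hk hF hx
  have hMy := card_MM hk hF hy
  rw [← hNdef] at hRx hRy hMx hMy
  -- level k
  have e1 : ((lev F k).card : ℝ) ≤ (k : ℝ) * N * Q F + 4 * (k : ℝ) ^ 3 * N * Q F := by
    have h1 : (lev F k).card = ((lev F k).filter fun S => x ∈ S).card +
        ((lev F k).filter fun S => x ∉ S).card :=
      (Finset.card_filter_add_card_filter_not _).symm
    have h2 : (((lev F k).filter fun S => x ∈ S).card : ℝ) ≤ ((RR F x).card : ℝ) := by
      exact_mod_cast card_Lk hk hF hx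
    have h3 : (((lev F k).filter fun S => x ∉ S).card : ℝ) ≤ ((MM F x).card : ℝ) := by
      exact_mod_cast card_Nk hk hF hx
    rw [h1]; push_cast; linarith
  -- level k - 1
  have e2 : ((lev F (k - 1)).card : ℝ) ≤ 4 * (k : ℝ) ^ 2 * N * Q F + 16 * (k : ℝ) ^ 4 * N * Q F := by
    have h1 : (lev F (k - 1)) ⊆ ((lev F (k - 1)).filter fun S => x ∈ S) ∪
        ((lev F (k - 1)).filter fun S => y ∈ S) ∪
        ((lev F (k - 1)).filter fun S => x ∉ S ∧ y ∉ S) := by
      intro S hS
      simp only [mem_union, mem_filter]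
      tauto
    have h2 := (Finset.card_le_card h1).trans ((Finset.card_union_le _ _).trans
      (add_le_add (Finset.card_union_le _ _) le_rfl))
    have h3 := card_Lk1 hk hF hx
    have h4 := card_Lk1 hk hF hy
    have h5 := card_Nk1 hk hF hxy
    have h6 : (lev F (k - 1)).card ≤ (RR F x).card * (2 * k) + (RR F y).card * (2 * k) +
        ((MM F x).card * (2 * k) + (MM F y).card * (2 * k)) := by omega
    have h7 : ((lev F (k - 1)).card : ℝ) ≤ ((RR F x).card : ℝ) * (2 * k) + ((RR F y).card : ℝ) * (2 * k) +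
        (((MM F x).card : ℝ) * (2 * k) + ((MM F y).card : ℝ) * (2 * k)) := by exact_mod_cast h6
    have hk2 : (0 : ℝ) ≤ 2 * k := by positivity
    have a1 := mul_le_mul_of_nonneg_right hRx hk2
    have a2 := mul_le_mul_of_nonneg_right hRy hk2
    have a3 := mul_le_mul_of_nonneg_right hMx hk2
    have a4 := mul_le_mul_of_nonneg_right hMy hk2
    refine h7.trans ?_
    nlinarith
  -- level k + 1
  have e3 : ((lev F (k + 1)).card : ℝ) ≤ N * ((k : ℝ) / ((k : ℝ) + 1)) := by
    have h1 := card_lev (F := F) (i := k + 1) (show k + 1 ≤ 2 * k by omega)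
    have h2 := dens_le_one F (i := k + 1) (show k + 1 ≤ 2 * k by omega)
    have h3 := choose_step (2 * k) k (by omega)
    have h4 : ((2 * k).choose (k + 1) : ℝ) = N * ((k : ℝ) / ((k : ℝ) + 1)) := by
      rw [mul_div_assoc', eq_div_iff (by positivity), h3]
      push_cast; ring
    rw [h1, ← h4]
    have h5 : (0 : ℝ) ≤ ((2 * k).choose (k + 1) : ℝ) := by positivity
    nlinarith
  -- rest
  have e4 : ∑ i ∈ restS k, ((lev F i).card : ℝ) ≤ N * Q F := by
    have h1 : ∀ i ∈ restS k, ((lev F i).card : ℝ) ≤ N * dens F i := by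
      intro i hi
      simp only [restS, mem_filter] at hi
      rw [card_lev (nearS_le hi.1), mul_comm]
      refine mul_le_mul_of_nonneg_right ?_ (dens_nonneg _ _)
      rw [hNdef]
      have := Nat.choose_le_middle i (2 * k)
      rw [show 2 * k / 2 = k by omega] at this
      exact_mod_cast this
    refine (Finset.sum_le_sum h1).trans ?_
    rw [← Finset.mul_sum]
    refine mul_le_mul_of_nonneg_left ?_ hN.le
    exact le_add_of_nonneg_left (Pr_nonneg _)
  have e5 : ∑ i ∈ nearS (2 * k), ((lev F i).card : ℝ) ≤ ((lev F (k - 1)).card : ℝ) +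
      (((lev F k).card : ℝ) + (((lev F (k + 1)).card : ℝ) + ∑ i ∈ restS k, ((lev F i).card : ℝ))) := by
    have h1 : nearS (2 * k) ⊆ insert (k - 1) (insert k (insert (k + 1) (restS k))) := by
      intro i hi
      simp only [mem_insert, restS, mem_filter]
      by_cases a1 : i = k - 1
      · exact Or.inl a1
      by_cases a2 : i = k
      · exact Or.inr (Or.inl a2)
      by_cases a3 : i = k + 1
      · exact Or.inr (Or.inr (Or.inl a3))
      · exact Or.inr (Or.inr (Or.inr ⟨hi, a1, a2, a3⟩))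
    refine (Finset.sum_le_sum_of_subset_of_nonneg h1 (fun _ _ _ => by positivity)).trans ?_
    have n1 : k + 1 ∉ restS k := by simp [restS]
    have n2 : k ∉ insert (k + 1) (restS k) := by simp [restS]
    have n3 : k - 1 ∉ insert k (insert (k + 1) (restS k)) := by
      simp only [mem_insert, restS, mem_filter]
      rintro (h | h | h)
      · omega
      · omega
      · exact h.2.1 rfl
    rw [Finset.sum_insert n3, Finset.sum_insert n2, Finset.sum_insert n1]
  have hNQ : 0 ≤ N * Q F := mul_nonneg hN.le hQ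
  have hp : (k : ℝ) + 4 * (k : ℝ) ^ 3 + 4 * (k : ℝ) ^ 2 + 16 * (k : ℝ) ^ 4 + 1 ≤ 26 * (k : ℝ) ^ 4 := by
    have a1 : (k : ℝ) ^ 4 = (k : ℝ) ^ 3 * k := by ring
    have a2 : (k : ℝ) ^ 3 = (k : ℝ) ^ 2 * k := by ring
    have a3 : (16 : ℝ) ≤ (k : ℝ) ^ 2 := by nlinarith
    have a4 : 4 * (k : ℝ) ^ 2 ≤ (k : ℝ) ^ 3 := by nlinarith
    have a5 : 4 * (k : ℝ) ^ 3 ≤ (k : ℝ) ^ 4 := by nlinarith
    nlinarith
  have h9 := mul_le_mul_of_nonneg_right hp hNQ
  nlinarith

end caseD

end Pool.Agent.Lib_MP_b87ef1_ex
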