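import Mathlib

/-!
# Numerical facts about binomial coefficients
-/

namespace Pool.Agent.Lib_MP_b87ef1_ex

open Finset

/-- Geometric growth of binomials. -/
lemma choose_grow (n m t : ℕ) (h : ∀ i, m ≤ i → i < m + t → 7 * (i + 1) ≤ 6 * (n - i)) :
    7 ^ t * n.choose m ≤ 6 ^ t * n.choose (m + t) := by
  induction t with
  | zero => simp
  | succ t ih =>
    have h1 := ih (fun i h1 h2 => h i h1 (by omega))
    have h2 := h (m + t) (by omega) (by omega)
    have h3 := Nat.choose_succ_right_eq n (m + t)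
    -- C(n, m+t+1) (m+t+1) = C(n, m+t) (n - (m+t))
    have h4 : 7 * n.choose (m + t) ≤ 6 * n.choose (m + t + 1) := by
      have h5 : 7 * n.choose (m + t) * (m + t + 1) ≤ 6 * n.choose (m + t + 1) * (m + t + 1) := by
        calc 7 * n.choose (m + t) * (m + t + 1) = n.choose (m + t) * (7 * (m + t + 1)) := by ring
          _ ≤ n.choose (m + t) * (6 * (n - (m + t))) := Nat.mul_le_mul_left _ h2
          _ = 6 * (n.choose (m + t) * (n - (m + t))) := by ring
          _ = 6 * n.choose (m + t + 1) * (m + t + 1) := by rw [← h3]; ring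
      exact Nat.le_of_mul_le_mul_right h5 (by omega)
    calc 7 ^ (t + 1) * n.choose m = 7 * (7 ^ t * n.choose m) := by ring
      _ ≤ 7 * (6 ^ t * n.choose (m + t)) := Nat.mul_le_mul_left _ h1
      _ = 6 ^ t * (7 * n.choose (m + t)) := by ring
      _ ≤ 6 ^ t * (6 * n.choose (m + t + 1)) := Nat.mul_le_mul_left _ h4
      _ = 6 ^ (t + 1) * n.choose (m + (t + 1)) := by ring_nf

lemma choose_mono_half' {n i j : ℕ} (hij : i ≤ j) (hj : 2 * j ≤ n) :
    n.choose i ≤ n.choose j := by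
  induction j, hij using Nat.le_induction with
  | base => exact le_rfl
  | succ j hij ih =>
    refine (ih (by omega)).trans ?_
    exact Nat.choose_le_succ_of_lt_half_left (by omega)

/-- A low binomial is exponentially smaller than the middle one. -/
lemma choose_low {n t a : ℕ} (hn : 24 * t + 200 ≤ n) (ha : 3 * a < n) :
    7 ^ t * n.choose a ≤ 6 ^ t * n.choose (n / 2) := by
  have h1 : n.choose a ≤ n.choose ((n + 2) / 3) := choose_mono_half' (by omega) (by omega)
  have h2 := choose_grow n ((n + 2) / 3) t (fun i h3 h4 => by omega)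
  have h3 : n.choose ((n + 2) / 3 + t) ≤ n.choose (n / 2) := Nat.choose_le_middle _ _
  calc 7 ^ t * n.choose a ≤ 7 ^ t * n.choose ((n + 2) / 3) := Nat.mul_le_mul_left _ h1
    _ ≤ 6 ^ t * n.choose ((n + 2) / 3 + t) := h2
    _ ≤ 6 ^ t * n.choose (n / 2) := Nat.mul_le_mul_left _ h3

lemma two_pow_le (n : ℕ) : 2 ^ n ≤ (n + 1) * n.choose (n / 2) := by
  rw [← Nat.sum_range_choose n]
  refine (Finset.sum_le_card_nsmul _ _ (n.choose (n / 2)) (fun i _ => Nat.choose_le_middle i n)).trans ?_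
  simp

/-- `6400 n^7 ≤ C(n, n/2)` for large `n`. -/
theorem num2 : ∃ n0, ∀ n ≥ n0, 6400 * n ^ 7 ≤ n.choose (n / 2) := by
  have h := tendsto_pow_const_div_const_pow_of_one_lt 8 (r := (2 : ℝ)) (by norm_num)
  have h1 := (tendsto_order.1 h).2 (1 / 12800) (by norm_num)
  obtain ⟨n0, hn0⟩ := Filter.eventually_atTop.1 h1
  refine ⟨max n0 1, fun n hn => ?_⟩
  have h2 := hn0 n (le_of_max_le_left hn)
  have hn1 : 1 ≤ n := le_of_max_le_right hn
  rw [div_lt_iff₀ (by positivity)] at h2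
  have h3 : (12800 : ℝ) * (n : ℝ) ^ 8 ≤ 2 ^ n := by linarith
  have h4 : 12800 * n ^ 8 ≤ 2 ^ n := by exact_mod_cast h3
  have h5 := h4.trans (two_pow_le n)
  have h6 : 12800 * n ^ 8 = (2 * n) * (6400 * n ^ 7) := by ring
  have h7 : (n + 1) * n.choose (n / 2) ≤ (2 * n) * n.choose (n / 2) :=
    Nat.mul_le_mul_right _ (by omega)
  rw [h6] at h5
  exact Nat.le_of_mul_le_mul_left (h5.trans h7) (by omega)

/-- The far levels are negligible. -/
theorem num1 : ∃ n0, ∀ n ≥ n0,
    64 * n * (∑ a ∈ (range (n + 1)).filter (fun a => 3 * a < n), n.choose a) ≤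
      n.choose (n / 2) := by
  have h := tendsto_pow_const_div_const_pow_of_one_lt 2 (r := (7 / 6 : ℝ)) (by norm_num)
  have h1 := (tendsto_order.1 h).2 (1 / 1000000) (by norm_num)
  obtain ⟨t0, ht0⟩ := Filter.eventually_atTop.1 h1
  refine ⟨24 * (max t0 100) + 400, fun n hn => ?_⟩
  set t := (n - 200) / 24 with ht
  have ht1 : 24 * t + 200 ≤ n := by omega
  have htt0 : t0 ≤ t := by
    have := le_max_left t0 100; omega
  have htt1 : 100 ≤ t := by
    have := le_max_right t0 100; omega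
  have h2 := ht0 t htt0
  rw [div_lt_iff₀ (by positivity)] at h2
  -- `1000000 t^2 * 6^t ≤ 7^t`
  have h3 : (1000000 : ℝ) * (t : ℝ) ^ 2 * 6 ^ t ≤ 7 ^ t := by
    have h4 : (7 / 6 : ℝ) ^ t * 6 ^ t = 7 ^ t := by rw [← mul_pow]; norm_num
    have h5 : (0 : ℝ) < 6 ^ t := by positivity
    rw [← h4]
    have h6 : (1000000 : ℝ) * (t : ℝ) ^ 2 ≤ (7 / 6) ^ t := by linarith
    exact mul_le_mul_of_nonneg_right h6 h5.le
  have h3' : 1000000 * t ^ 2 * 6 ^ t ≤ 7 ^ t := by exact_mod_cast h3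
  have hn30 : n ≤ 30 * t := by omega
  have h7 : (∑ a ∈ (range (n + 1)).filter (fun a => 3 * a < n), 7 ^ t * n.choose a) ≤
      (n + 1) * (6 ^ t * n.choose (n / 2)) := by
    refine (Finset.sum_le_card_nsmul _ _ (6 ^ t * n.choose (n / 2)) (fun a ha => ?_)).trans ?_
    · exact choose_low ht1 (mem_filter.1 ha).2
    · rw [smul_eq_mul]
      refine Nat.mul_le_mul_right _ ((Finset.card_filter_le _ _).trans ?_)
      simp
  rw [← Finset.mul_sum] at h7
  set S := ∑ a ∈ (range (n + 1)).filter (fun a => 3 * a < n), n.choose a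
  have h8 : 7 ^ t * (64 * n * S) ≤ 7 ^ t * n.choose (n / 2) := by
    calc 7 ^ t * (64 * n * S) = 64 * n * (7 ^ t * S) := by ring
      _ ≤ 64 * n * ((n + 1) * (6 ^ t * n.choose (n / 2))) := Nat.mul_le_mul_left _ h7
      _ = (64 * n * (n + 1) * 6 ^ t) * n.choose (n / 2) := by ring
      _ ≤ (1000000 * t ^ 2 * 6 ^ t) * n.choose (n / 2) := by
          refine Nat.mul_le_mul_right _ (Nat.mul_le_mul_right _ ?_)
          have h9 : n * (n + 1) ≤ (30 * t) * (31 * t) :=
            Nat.mul_le_mul hn30 (by omega)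
          nlinarith
      _ ≤ 7 ^ t * n.choose (n / 2) := Nat.mul_le_mul_right _ h3'
  exact Nat.le_of_mul_le_mul_left h8 (by positivity)

end Pool.Agent.Lib_MP_b87ef1_ex
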