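import Pool.Agent.Lib_MP_b87ef1_ex.Even5
import Pool.Agent.Lib_MP_b87ef1_ex.Num

/-!
# Even `n = 2k`: the upper bound
-/

namespace Pool.Agent.Lib_MP_b87ef1_ex

open Finset
open Pool.Agent.Results.MP_b87ef1_co.ConjectureFalse

/-- The two special situations. -/
def Spec {n : ℕ} (F : Finset (Finset (Fin n))) : Prop :=
  (∅ ∈ F ∧ ∃ x : Fin n, {x} ∈ F) ∨ ∃ x y : Fin n, x ≠ y ∧ {x} ∈ F ∧ {y} ∈ F

lemma lev_zero {n : ℕ} (F : Finset (Finset (Fin n))) : (lev F 0).card ≤ 1 ∧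
    ((lev F 0).card ≠ 0 → ∅ ∈ F) := by
  have h1 : lev F 0 ⊆ {∅} := by
    intro A hA
    rw [mem_lev] at hA
    rw [mem_singleton]
    exact card_eq_zero.1 hA.2
  refine ⟨by simpa using card_le_card h1, fun h => ?_⟩
  obtain ⟨A, hA⟩ := card_pos.1 (Nat.pos_of_ne_zero h)
  have := h1 hA
  rw [mem_singleton] at this
  exact this ▸ (mem_lev.1 hA).1

lemma lev_one {n : ℕ} (F : Finset (Finset (Fin n))) :
    (1 ≤ (lev F 1).card → ∃ x : Fin n, {x} ∈ F) ∧
    (2 ≤ (lev F 1).card → ∃ x y : Fin n, x ≠ y ∧ {x} ∈ F ∧ {y} ∈ F) := by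
  constructor
  · intro h
    obtain ⟨A, hA⟩ := card_pos.1 (show 0 < (lev F 1).card by omega)
    rw [mem_lev] at hA
    obtain ⟨x, rfl⟩ := card_eq_one.1 hA.2
    exact ⟨x, hA.1⟩
  · intro h
    obtain ⟨A, hA, B, hB, hAB⟩ := one_lt_card.1 (show 1 < (lev F 1).card by omega)
    rw [mem_lev] at hA hB
    obtain ⟨x, rfl⟩ := card_eq_one.1 hA.2
    obtain ⟨y, rfl⟩ := card_eq_one.1 hB.2
    exact ⟨x, y, fun h => hAB (by rw [h]), hA.1, hB.1⟩

lemma spec_of_ext {n : ℕ} (hn : 1 ≤ n) {F : Finset (Finset (Fin n))} (h : 3 ≤ ext F) :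
    Spec F ∨ Spec (cmp F) := by
  unfold ext at h
  have a0 := lev_zero F
  have b0 := lev_zero (cmp F)
  have a1 := lev_one F
  have b1 := lev_one (cmp F)
  rw [card_lev_cmp F (Nat.zero_le _), Nat.sub_zero] at b0
  rw [card_lev_cmp F hn] at b1
  by_cases h1 : 2 ≤ (lev F 1).card
  · exact Or.inl (Or.inr (a1.2 h1))
  by_cases h2 : 2 ≤ (lev F (n - 1)).card
  · exact Or.inr (Or.inr (b1.2 h2))
  by_cases h3 : (lev F 0).card ≠ 0 ∧ 1 ≤ (lev F 1).card
  · exact Or.inl (Or.inl ⟨a0.2 h3.1, a1.1 h3.2⟩)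
  · have h4 : (lev F n).card ≠ 0 ∧ 1 ≤ (lev F (n - 1)).card := by
      have := a0.1
      have := b0.1
      constructor <;> omega
    exact Or.inr (Or.inl ⟨b0.2 h4.1, b1.1 h4.2⟩)

/-- The bound in the special situations. -/
lemma spec_bound {k : ℕ} (hk : 4 ≤ k) {F : Finset (Finset (Fin (2 * k)))} (hF : Admissible F)
    (hnum : 64 * (k : ℝ) * (∑ a ∈ farS (2 * k), ((2 * k).choose a : ℝ)) ≤ ((2 * k).choose k : ℝ))
    (hN7 : 12800 * (k : ℝ) ^ 7 ≤ ((2 * k).choose k : ℝ)) (hS : Spec F) :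
    (F.card : ℝ) ≤ ((2 * k).choose k : ℝ) + 2 := by
  have hk0 : (0 : ℝ) < (k : ℝ) := by exact_mod_cast (show 0 < k by omega)
  have hk4 : (4 : ℝ) ≤ (k : ℝ) := by exact_mod_cast hk
  have hN : (0 : ℝ) < ((2 * k).choose k : ℝ) := by
    exact_mod_cast Nat.choose_pos (show k ≤ 2 * k by omega)
  set N := ((2 * k).choose k : ℝ) with hNdef
  have hext : ((ext F : ℕ) : ℝ) ≤ 4 * k + 2 := by
    have := ext_le (show 1 ≤ 2 * k by omega) F
    have h' : ((ext F : ℕ) : ℝ) ≤ ((2 * (2 * k) + 2 : ℕ) : ℝ) := by exact_mod_cast this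
    push_cast at h'
    linarith
  have hm := even_master hk hF hnum
  rw [← hNdef] at hm
  have hQ := Q_nonneg F
  -- a sufficient condition
  have hsuff : 4 * (k : ℝ) ≤ N * Q F / (16 * k) → (F.card : ℝ) ≤ N + 2 := by
    intro h; linarith
  have hbig : ∀ q : ℝ, q ≤ Q F → 64 * (k : ℝ) ^ 2 ≤ N * q → (F.card : ℝ) ≤ N + 2 := by
    intro q hq h
    apply hsuff
    rw [le_div_iff₀ (by positivity)]
    have := mul_le_mul_of_nonneg_left hq hN.le
    nlinarith
  rcases hS with ⟨h0, x, hx⟩ | ⟨x, y, hxy, hx, hy⟩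
  · refine hbig _ (case_a (by omega) hF h0 hx) ?_
    rw [mul_one_div, le_div_iff₀ (by positivity)]
    have h3 : (k : ℝ) ^ 3 * 128 ≤ 12800 * (k : ℝ) ^ 7 := by
      have h4 : (1 : ℝ) ≤ (k : ℝ) ^ 4 := one_le_pow₀ (by linarith)
      have h5 : (0 : ℝ) ≤ (k : ℝ) ^ 3 := by positivity
      have h6 : (k : ℝ) ^ 7 = (k : ℝ) ^ 3 * (k : ℝ) ^ 4 := by ring
      rw [h6]
      nlinarith
    calc 64 * (k : ℝ) ^ 2 * (2 * k) = (k : ℝ) ^ 3 * 128 := by ring
      _ ≤ N := h3.trans hN7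
  · by_cases hq : 1 / (200 * (k : ℝ) ^ 5) ≤ Q F
    · refine hbig _ hq ?_
      rw [mul_one_div, le_div_iff₀ (by positivity)]
      calc 64 * (k : ℝ) ^ 2 * (200 * (k : ℝ) ^ 5) = 12800 * (k : ℝ) ^ 7 := by ring
        _ ≤ N := hN7
    · push Not at hq
      have hd := case_d hk hF hxy hx hy
      have hmn := even_master_near hk hF hnum
      rw [← hNdef] at hd hmn
      -- bound the pieces
      have e1 : 26 * (k : ℝ) ^ 4 * N * Q F ≤ 26 / 200 * (N / k) := by
        have h1 : 26 * (k : ℝ) ^ 4 * N * Q F ≤ 26 * (k : ℝ) ^ 4 * N * (1 / (200 * (k : ℝ) ^ 5)) :=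
          mul_le_mul_of_nonneg_left hq.le (by positivity)
        refine h1.trans (le_of_eq ?_)
        field_simp
      have e2 : N * Q F / (16 * k) ≤ 1 / 3200 * (N / k) := by
        have h1 : Q F ≤ 1 / 200 := by
          refine hq.le.trans ?_
          refine div_le_div_of_nonneg_left (by norm_num) (by norm_num) ?_
          have : (1 : ℝ) ≤ (k : ℝ) ^ 5 := one_le_pow₀ (by linarith)
          linarith
        have h2 : N * Q F ≤ N * (1 / 200) := mul_le_mul_of_nonneg_left h1 hN.le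
        rw [div_le_iff₀ (by positivity)]
        have h3 : 1 / 3200 * (N / k) * (16 * k) = N * (1 / 200) := by
          field_simp; norm_num
        rw [h3]; exact h2
      have e3 : N * ((k : ℝ) / ((k : ℝ) + 1)) ≤ N - 1 / 2 * (N / k) := by
        have h1 : (k : ℝ) / ((k : ℝ) + 1) ≤ 1 - 1 / (2 * k) := by
          rw [div_le_iff₀ (by positivity)]
          have h2 : (1 - 1 / (2 * (k : ℝ))) * (k + 1) = k + 1 - 1 / 2 - 1 / (2 * k) := by
            field_simp; ring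
          rw [h2]
          have h3 : 1 / (2 * (k : ℝ)) ≤ 1 / 2 := by
            refine div_le_div_of_nonneg_left (by norm_num) (by norm_num) (by linarith)
          linarith
        have h2 := mul_le_mul_of_nonneg_left h1 hN.le
        refine h2.trans (le_of_eq ?_)
        field_simp
      have e4 : 16 * (k : ℝ) ≤ N / k := by
        rw [le_div_iff₀ hk0]
        have h3 : 16 * (k : ℝ) * k ≤ 12800 * (k : ℝ) ^ 7 := by
          have h4 : (1 : ℝ) ≤ (k : ℝ) ^ 5 := one_le_pow₀ (by linarith)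
          have h5 : (0 : ℝ) ≤ (k : ℝ) ^ 2 := by positivity
          have h6 : (k : ℝ) ^ 7 = (k : ℝ) ^ 2 * (k : ℝ) ^ 5 := by ring
          rw [h6]
          nlinarith
        exact h3.trans hN7
      linarith

/-- The upper bound for large even `n`. -/
theorem even_upper : ∃ k0, ∀ k ≥ k0, ∀ F : Finset (Finset (Fin (2 * k))), Admissible F →
    F.card ≤ (2 * k).choose k + 2 := by
  obtain ⟨n1, h1⟩ := num1
  obtain ⟨n2, h2⟩ := num2
  refine ⟨max (max n1 n2) 4, fun k hk F hF => ?_⟩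
  have hk1 : n1 ≤ k := (le_max_left n1 n2).trans ((le_max_left _ _).trans hk)
  have hk2 : n2 ≤ k := (le_max_right n1 n2).trans ((le_max_left _ _).trans hk)
  have hk4 : 4 ≤ k := (le_max_right _ _).trans hk
  have hk0 : (0 : ℝ) < (k : ℝ) := by exact_mod_cast (show 0 < k by omega)
  have hnum : 64 * (k : ℝ) * (∑ a ∈ farS (2 * k), ((2 * k).choose a : ℝ)) ≤
      ((2 * k).choose k : ℝ) := by
    have h3 := h1 (2 * k) (by omega)
    rw [show 2 * k / 2 = k by omega] at h3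
    have h4 : (∑ a ∈ farS (2 * k), (2 * k).choose a) ≤
        ∑ a ∈ (range (2 * k + 1)).filter (fun a => 3 * a < 2 * k), (2 * k).choose a := by
      refine Finset.sum_le_sum_of_subset ?_
      intro a ha
      rw [mem_farS] at ha
      rw [mem_filter, mem_range]
      omega
    have h5 : 64 * k * (∑ a ∈ farS (2 * k), (2 * k).choose a) ≤ (2 * k).choose k := by
      refine le_trans ?_ h3
      exact Nat.mul_le_mul (by omega) h4
    exact_mod_cast h5
  have hN7 : 12800 * (k : ℝ) ^ 7 ≤ ((2 * k).choose k : ℝ) := by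
    have h3 := h2 (2 * k) (by omega)
    rw [show 2 * k / 2 = k by omega] at h3
    have h4 : 12800 * k ^ 7 ≤ 6400 * (2 * k) ^ 7 := by
      have : (2 * k) ^ 7 = 128 * k ^ 7 := by ring
      rw [this]; omega
    exact_mod_cast h4.trans h3
  have hN : (0 : ℝ) < ((2 * k).choose k : ℝ) := by
    exact_mod_cast Nat.choose_pos (show k ≤ 2 * k by omega)
  by_cases hE : ext F ≤ 2
  · have hm := even_master hk4 hF hnum
    have hQ := Q_nonneg F
    have h3 : ((ext F : ℕ) : ℝ) ≤ 2 := by exact_mod_cast hE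
    have h4 : 0 ≤ ((2 * k).choose k : ℝ) * Q F / (16 * k) := by positivity
    have h5 : (F.card : ℝ) ≤ ((2 * k).choose k : ℝ) + 2 := by linarith
    exact_mod_cast h5
  · rcases spec_of_ext (show 1 ≤ 2 * k by omega) (show 3 ≤ ext F by omega) with h | h
    · exact_mod_cast spec_bound hk4 hF hnum hN7 h
    · have := spec_bound hk4 (adm_cmp hF) hnum hN7 h
      rw [card_cmp] at this
      exact_mod_cast this

end Pool.Agent.Lib_MP_b87ef1_ex
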