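import Pool.Agent.Lib_MP_b87ef1_ex.Main1

/-!
# Low levels
-/

namespace Pool.Agent.Lib_MP_b87ef1_ex

open Finset
open Pool.Agent.Results.MP_b87ef1_co.ConjectureFalse

variable {n : ℕ}

/-- `P(pre a = A` and some `pre c`, `a < c ≤ a + D`, is a member`)`. -/
noncomputable def U (F : Finset (Finset (Fin n))) (A : Finset (Fin n)) (a D : ℕ) : ℝ :=
  Pr (fun s : Equiv.Perm (Fin n) => pre s a = A ∧ ∃ c, a < c ∧ c ≤ a + D ∧ pre s c ∈ F)

/-- The EKR step in terms of `U`. -/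
lemma U_le {F : Finset (Finset (Fin n))} (hF : Admissible F) {A : Finset (Fin n)} {a D : ℕ}
    (hA : A ∈ F) (ha : A.card = a) (hD : 1 ≤ D) (hDn : 2 * D ≤ n - a) :
    U F A a D ≤ 1 / (n.choose a : ℝ) * ((D : ℝ) / ((n - a : ℕ) : ℝ)) :=
  ekr_step hF hA ha hD hDn

/-- Low levels: `W` as a sum over the members of the level. -/
lemma W_low_sum (F : Finset (Finset (Fin n))) {i : ℕ} (hi : 2 * i < n) :
    W F i ≤ ∑ A ∈ lev F i, (U F A i (n - 2 * i - 1) + U F A i (n - 2 * i)) / 2 := by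
  have hin : i ≤ n := by omega
  unfold W
  rw [Pr_lev_and F hin, Pr_lev_and F hin, ← Finset.sum_add_distrib, Finset.sum_div]
  refine Finset.sum_le_sum fun A _ => ?_
  refine div_le_div_of_nonneg_right (add_le_add ?_ ?_) (by norm_num)
  · refine Pr_mono ?_
    rintro s ⟨h1, c, h2, h3, h4⟩
    refine ⟨h1, c, ?_, ?_, h4⟩
    · unfold dst at h3; omega
    · unfold dst at h3; omega
  · refine Pr_mono ?_
    rintro s ⟨h1, c, h2, h3, h3', h4⟩
    refine ⟨h1, c, ?_, ?_, h4⟩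
    · unfold dst at h3'; omega
    · unfold dst at h3'; omega

/-- Low levels, EKR bound. -/
lemma W_low {F : Finset (Finset (Fin n))} (hF : Admissible F) {i : ℕ} (h1 : n ≤ 3 * i)
    (h2 : 2 * i + 2 ≤ n) :
    W F i ≤ dens F i * (((n : ℝ) - 2 * i - 1 / 2) / ((n : ℝ) - i)) := by
  refine (W_low_sum F (by omega)).trans ?_
  have hin : i ≤ n := by omega
  have hpos : (0 : ℝ) < (n : ℝ) - i := by
    have : (i : ℝ) < n := by exact_mod_cast (show i < n by omega)
    linarith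
  have key : ∀ A ∈ lev F i, (U F A i (n - 2 * i - 1) + U F A i (n - 2 * i)) / 2 ≤
      1 / (n.choose i : ℝ) * (((n : ℝ) - 2 * i - 1 / 2) / ((n : ℝ) - i)) := by
    intro A hA
    rw [mem_lev] at hA
    have h3 := U_le hF hA.1 hA.2 (D := n - 2 * i - 1) (by omega) (by omega)
    have h4 := U_le hF hA.1 hA.2 (D := n - 2 * i) (by omega) (by omega)
    have e1 : ((n - 2 * i - 1 : ℕ) : ℝ) = (n : ℝ) - 2 * i - 1 := by
      rw [Nat.cast_sub (by omega), Nat.cast_sub (by omega)]; push_cast; ring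
    have e2 : ((n - 2 * i : ℕ) : ℝ) = (n : ℝ) - 2 * i := by
      rw [Nat.cast_sub (by omega)]; push_cast; ring
    have e3 : ((n - i : ℕ) : ℝ) = (n : ℝ) - i := by
      rw [Nat.cast_sub (by omega)]
    rw [e1, e3] at h3
    rw [e2, e3] at h4
    refine (div_le_div_of_nonneg_right (add_le_add h3 h4) (by norm_num)).trans (le_of_eq ?_)
    field_simp
    ring
  refine (Finset.sum_le_card_nsmul _ _ _ key).trans (le_of_eq ?_)
  rw [nsmul_eq_mul, dens]
  ring

/-- Far levels: members at level `a` force chains without members in `(a, m]`. -/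
lemma far_general {F : Finset (Finset (Fin n))} (hF : Admissible F) {a m : ℕ} (ham : a < m)
    (h : 2 * (m - a) ≤ n - a) :
    ((lev F a).card : ℝ) ≤ 2 * (n.choose a : ℝ) *
      Pr (fun s : Equiv.Perm (Fin n) => ∀ c, a < c → c ≤ m → pre s c ∉ F) := by
  have han : a ≤ n := by omega
  have hC : (0 : ℝ) < (n.choose a : ℝ) := by exact_mod_cast Nat.choose_pos han
  have h1 : ∀ A ∈ lev F a, 1 / (2 * (n.choose a : ℝ)) ≤
      Pr (fun s : Equiv.Perm (Fin n) => pre s a = A ∧ ∀ c, a < c → c ≤ m → pre s c ∉ F) := by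
    intro A hA
    rw [mem_lev] at hA
    have h2 := U_le hF hA.1 hA.2 (D := m - a) (by omega) h
    have h3 := Pr_split (fun s : Equiv.Perm (Fin n) => pre s a = A)
      (fun s => ∃ c, a < c ∧ c ≤ a + (m - a) ∧ pre s c ∈ F)
    rw [Pr_pre hA.2] at h3
    have h4 : Pr (fun s : Equiv.Perm (Fin n) => pre s a = A ∧
        ¬ ∃ c, a < c ∧ c ≤ a + (m - a) ∧ pre s c ∈ F) ≤
        Pr (fun s : Equiv.Perm (Fin n) => pre s a = A ∧ ∀ c, a < c → c ≤ m → pre s c ∉ F) := by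
      refine Pr_mono ?_
      rintro s ⟨h5, h6⟩
      refine ⟨h5, fun c h7 h8 h9 => h6 ⟨c, h7, by omega, h9⟩⟩
    have h5 : ((m - a : ℕ) : ℝ) / ((n - a : ℕ) : ℝ) ≤ 1 / 2 := by
      rw [div_le_div_iff₀ (by exact_mod_cast (show 0 < n - a by omega)) (by norm_num)]
      have : (2 : ℝ) * ((m - a : ℕ) : ℝ) ≤ ((n - a : ℕ) : ℝ) := by exact_mod_cast h
      linarith
    have h6 : 1 / (n.choose a : ℝ) * (((m - a : ℕ) : ℝ) / ((n - a : ℕ) : ℝ)) ≤
        1 / (n.choose a : ℝ) * (1 / 2) := mul_le_mul_of_nonneg_left h5 (by positivity)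
    have h7 : 1 / (2 * (n.choose a : ℝ)) = 1 / (n.choose a : ℝ) - 1 / (n.choose a : ℝ) * (1 / 2) := by
      field_simp; norm_num
    unfold U at h2
    rw [h7]
    linarith
  have h2 := Pr_lev_and F han (fun s => ∀ c, a < c → c ≤ m → pre s c ∉ F)
  have h3 : Pr (fun s : Equiv.Perm (Fin n) => pre s a ∈ F ∧ ∀ c, a < c → c ≤ m → pre s c ∉ F) ≤
      Pr (fun s : Equiv.Perm (Fin n) => ∀ c, a < c → c ≤ m → pre s c ∉ F) :=
    Pr_mono fun s h => h.2
  have h4 := Finset.card_nsmul_le_sum _ _ _ h1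
  rw [nsmul_eq_mul, ← h2] at h4
  have h5 := h4.trans h3
  rw [mul_one_div, div_le_iff₀ (by positivity)] at h5
  linarith

end Pool.Agent.Lib_MP_b87ef1_ex
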