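import Pool.Agent.Lib_MP_b87ef1_ex.Defs

/-!
# The main inequality
-/

namespace Pool.Agent.Lib_MP_b87ef1_ex

open Finset
open Pool.Agent.Results.MP_b87ef1_co.ConjectureFalse

variable {n : ℕ}

/-- Pointwise form: in a finite set `I` of levels `≤ n` the terms add up to at most `1`. -/
lemma point_ineq (n : ℕ) (I : Finset ℕ) (hI : ∀ i ∈ I, i ≤ n) :
    (I.card : ℝ) ≤ (if I.Nonempty then 1 else 0) +
      ∑ i ∈ I, ((if ∃ c ∈ I, dst n c < dst n i then (1 : ℝ) else 0) +
        (if ∃ c ∈ I, c ≠ i ∧ dst n c ≤ dst n i then (1 : ℝ) else 0)) / 2 := by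
  classical
  rcases I.eq_empty_or_nonempty with rfl | hne
  · simp
  rw [if_pos hne]
  obtain ⟨m, hm, hmin⟩ := Finset.exists_min_image I (dst n) hne
  set J := I.filter fun i => dst n i = dst n m with hJ
  have hJsub : J ⊆ I := Finset.filter_subset _ _
  have hmJ : m ∈ J := by rw [hJ, mem_filter]; exact ⟨hm, rfl⟩
  have hJsub2 : J ⊆ {m, n - m} := by
    intro i hi
    rw [hJ, mem_filter] at hi
    rw [mem_insert, mem_singleton]
    have h1 := hi.2
    have h2 := hI i hi.1
    have h3 := hI m hm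
    unfold dst at h1
    omega
  rw [← Finset.sum_sdiff hJsub]
  have h1 : ∑ i ∈ I \ J, ((if ∃ c ∈ I, dst n c < dst n i then (1 : ℝ) else 0) +
        (if ∃ c ∈ I, c ≠ i ∧ dst n c ≤ dst n i then (1 : ℝ) else 0)) / 2 = ((I \ J).card : ℝ) := by
    rw [Finset.card_eq_sum_ones, Nat.cast_sum]
    refine Finset.sum_congr rfl fun i hi => ?_
    rw [mem_sdiff, hJ, mem_filter] at hi
    obtain ⟨hi1, hi2⟩ := hi
    have h2 : dst n m < dst n i := by
      have := hmin i hi1
      refine lt_of_le_of_ne this fun h => hi2 ⟨hi1, h.symm⟩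
    rw [if_pos ⟨m, hm, h2⟩, if_pos ⟨m, hm, fun h => by rw [h] at h2; exact lt_irrefl _ h2, h2.le⟩]
    norm_num
  rw [h1]
  have h3 : (I.card : ℝ) = ((I \ J).card : ℝ) + (J.card : ℝ) := by
    rw [← Finset.card_sdiff_add_card_eq_card hJsub]; push_cast; ring
  rw [h3]
  by_cases h4 : J = {m}
  · have h5 : (J.card : ℝ) = 1 := by rw [h4]; simp
    have h6 : 0 ≤ ∑ i ∈ J, ((if ∃ c ∈ I, dst n c < dst n i then (1 : ℝ) else 0) +
        (if ∃ c ∈ I, c ≠ i ∧ dst n c ≤ dst n i then (1 : ℝ) else 0)) / 2 := by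
      refine Finset.sum_nonneg fun i _ => ?_
      positivity
    linarith
  · -- `J = {m, n - m}` with two elements
    have h5 : J = {m, n - m} := by
      refine Finset.Subset.antisymm hJsub2 ?_
      intro i hi
      rw [mem_insert, mem_singleton] at hi
      rcases hi with rfl | rfl
      · exact hmJ
      · by_contra h7
        apply h4
        refine Finset.Subset.antisymm ?_ (by simpa using hmJ)
        intro j hj
        have := hJsub2 hj
        rw [mem_insert, mem_singleton] at this
        rcases this with rfl | rfl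
        · simp
        · exact absurd hj h7
    have h6 : m ≠ n - m := by
      intro h7
      apply h4
      rw [h5, ← h7]; simp
    have h8 : (J.card : ℝ) = 2 := by
      rw [h5, Finset.card_pair h6]; norm_num
    have h9 : ∀ i ∈ J, (1 : ℝ) / 2 ≤ ((if ∃ c ∈ I, dst n c < dst n i then (1 : ℝ) else 0) +
        (if ∃ c ∈ I, c ≠ i ∧ dst n c ≤ dst n i then (1 : ℝ) else 0)) / 2 := by
      intro i hi
      have h10 : ∃ c ∈ I, c ≠ i ∧ dst n c ≤ dst n i := by
        have hnm : n - m ∈ J := by rw [h5]; simp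
        have hi' := (mem_filter.1 (hJ ▸ hi)).2
        rw [h5, mem_insert, mem_singleton] at hi
        rcases hi with rfl | rfl
        · exact ⟨n - i, hJsub hnm, h6.symm, (mem_filter.1 (hJ ▸ hnm)).2.le⟩
        · exact ⟨m, hm, h6, hi'.symm.le⟩
      rw [if_pos h10]
      have : (0 : ℝ) ≤ (if ∃ c ∈ I, dst n c < dst n i then (1 : ℝ) else 0) := by positivity
      linarith
    have h11 := Finset.card_nsmul_le_sum J _ _ h9
    rw [nsmul_eq_mul, h8] at h11
    linarith

/-- Expectation. -/
lemma Pr_eq_sum (E : Equiv.Perm (Fin n) → Prop) [DecidablePred E] :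
    Pr E = (∑ s : Equiv.Perm (Fin n), if E s then (1 : ℝ) else 0) / (n.factorial : ℝ) := by
  rw [Pr_eq, Finset.sum_boole]

/-- The main inequality. -/
theorem main_ineq (F : Finset (Finset (Fin n))) :
    ∑ i ∈ nearS n, dens F i ≤ Pr (hit F) + ∑ i ∈ nearS n, W F i := by
  classical
  have h1 : ∑ i ∈ nearS n, dens F i =
      (∑ s : Equiv.Perm (Fin n), (((nearS n).filter fun i => pre s i ∈ F).card : ℝ)) /
        (n.factorial : ℝ) := by
    have : ∀ i ∈ nearS n, dens F i =
        (∑ s : Equiv.Perm (Fin n), if pre s i ∈ F then (1 : ℝ) else 0) / (n.factorial : ℝ) := by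
      intro i hi
      rw [← Pr_lev F (nearS_le hi), Pr_eq_sum]
    rw [Finset.sum_congr rfl this, ← Finset.sum_div, Finset.sum_comm]
    congr 1
    refine Finset.sum_congr rfl fun s _ => ?_
    rw [Finset.sum_boole]
  have h2 : Pr (hit F) =
      (∑ s : Equiv.Perm (Fin n), (if ((nearS n).filter fun i => pre s i ∈ F).Nonempty
        then (1 : ℝ) else 0)) / (n.factorial : ℝ) := by
    rw [Pr_eq_sum]
    congr 1
    refine Finset.sum_congr rfl fun s _ => ?_
    refine if_congr ?_ rfl rfl
    unfold hit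
    constructor
    · rintro ⟨c, hc, h⟩; exact ⟨c, mem_filter.2 ⟨hc, h⟩⟩
    · rintro ⟨c, hc⟩; exact ⟨c, (mem_filter.1 hc).1, (mem_filter.1 hc).2⟩
  have h3 : ∑ i ∈ nearS n, W F i =
      (∑ s : Equiv.Perm (Fin n), ∑ i ∈ (nearS n).filter (fun i => pre s i ∈ F),
        ((if ∃ c ∈ (nearS n).filter (fun i => pre s i ∈ F), dst n c < dst n i
            then (1 : ℝ) else 0) +
          (if ∃ c ∈ (nearS n).filter (fun i => pre s i ∈ F), c ≠ i ∧ dst n c ≤ dst n i
            then (1 : ℝ) else 0)) / 2) / (n.factorial : ℝ) := by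
    have : ∀ i ∈ nearS n, W F i = (∑ s : Equiv.Perm (Fin n),
        if pre s i ∈ F then ((if ∃ c ∈ (nearS n).filter (fun i => pre s i ∈ F), dst n c < dst n i
            then (1 : ℝ) else 0) +
          (if ∃ c ∈ (nearS n).filter (fun i => pre s i ∈ F), c ≠ i ∧ dst n c ≤ dst n i
            then (1 : ℝ) else 0)) / 2 else 0) / (n.factorial : ℝ) := by
      intro i _
      unfold W
      rw [Pr_eq_sum, Pr_eq_sum, ← add_div, ← Finset.sum_add_distrib, div_right_comm, Finset.sum_div]
      congr 1
      refine Finset.sum_congr rfl fun s _ => ?_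
      by_cases hi : pre s i ∈ F
      · simp only [hi, true_and, if_true]
        congr 2
        · refine if_congr ?_ rfl rfl
          refine exists_congr fun c => ?_
          rw [mem_filter]; tauto
        · refine if_congr ?_ rfl rfl
          refine exists_congr fun c => ?_
          rw [mem_filter]; tauto
      · simp [hi]
    rw [Finset.sum_congr rfl this, ← Finset.sum_div, Finset.sum_comm]
    congr 1
    refine Finset.sum_congr rfl fun s _ => ?_
    rw [Finset.sum_filter]
  rw [h1, h2, h3, ← add_div, ← Finset.sum_add_distrib]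
  refine div_le_div_of_nonneg_right ?_ (fact_pos' n).le
  refine Finset.sum_le_sum fun s _ => ?_
  exact point_ineq n _ (fun i hi => nearS_le (mem_filter.1 hi).1)

end Pool.Agent.Lib_MP_b87ef1_ex
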