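import Pool.Agent.Lib_MP_b87ef1_ex.Low

/-!
# Odd `n = 2k+1`: the level `k-1`
-/

namespace Pool.Agent.Lib_MP_b87ef1_ex

open Finset
open Pool.Agent.Results.MP_b87ef1_co.ConjectureFalse

/-- An intersecting family of `2`-sets with at least four members is a star. -/
lemma odd1_star {α : Type*} [DecidableEq α] (𝒟 : Finset (Finset α))
    (h2 : ∀ S ∈ 𝒟, S.card = 2) (hint : ∀ S ∈ 𝒟, ∀ T ∈ 𝒟, ¬ Disjoint S T)
    (h4 : 4 ≤ 𝒟.card) : ∃ x, ∀ S ∈ 𝒟, x ∈ S := by
  have hne : 𝒟.Nonempty := Finset.card_pos.1 (by omega)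
  obtain ⟨S, hS⟩ := hne
  obtain ⟨a, b, hab, rfl⟩ := Finset.card_eq_two.1 (h2 S hS)
  by_contra hcon
  push Not at hcon
  obtain ⟨T, hT, haT⟩ := hcon a
  obtain ⟨R, hR, hbR⟩ := hcon b
  have hbT : b ∈ T := by
    by_contra hbT
    refine hint _ hS T hT ?_
    rw [Finset.disjoint_left]
    intro x hx
    rw [mem_insert, mem_singleton] at hx
    rcases hx with rfl | rfl <;> assumption
  have haR : a ∈ R := by
    by_contra haR
    refine hint _ hS R hR ?_
    rw [Finset.disjoint_left]
    intro x hx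
    rw [mem_insert, mem_singleton] at hx
    rcases hx with rfl | rfl <;> assumption
  obtain ⟨c, hcT, hcR⟩ := Finset.not_disjoint_iff.1 (hint T hT R hR)
  have hca : c ≠ a := by rintro rfl; exact haT hcT
  have hcb : c ≠ b := by rintro rfl; exact hbR hcR
  have hTe : T = {b, c} := by
    symm
    refine Finset.eq_of_subset_of_card_le ?_ ?_
    · intro x hx
      rw [mem_insert, mem_singleton] at hx
      rcases hx with rfl | rfl <;> assumption
    · rw [h2 T hT, Finset.card_pair hcb.symm]
  have hRe : R = {a, c} := by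
    symm
    refine Finset.eq_of_subset_of_card_le ?_ ?_
    · intro x hx
      rw [mem_insert, mem_singleton] at hx
      rcases hx with rfl | rfl <;> assumption
    · rw [h2 R hR, Finset.card_pair hca.symm]
  have hsub : 𝒟 ⊆ {{a, b}, {b, c}, {a, c}} := by
    intro D hD
    have hc := h2 D hD
    have h5 := hint D hD _ hS
    have h6 := hint D hD T hT
    have h7 := hint D hD R hR
    rw [hTe] at h6
    rw [hRe] at h7
    rw [Finset.not_disjoint_iff] at h5 h6 h7
    simp only [mem_insert, mem_singleton] at h5 h6 h7 ⊢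
    have heq : ∀ x y : α, x ≠ y → x ∈ D → y ∈ D → D = {x, y} := by
      intro x y hxy hx hy
      symm
      refine Finset.eq_of_subset_of_card_le ?_ ?_
      · intro z hz
        rw [mem_insert, mem_singleton] at hz
        rcases hz with rfl | rfl <;> assumption
      · rw [hc, Finset.card_pair hxy]
    by_cases haD : a ∈ D
    · by_cases hbD : b ∈ D
      · exact Or.inl (heq a b hab haD hbD)
      · obtain ⟨z, hz, hz'⟩ := h6
        rcases hz' with rfl | rfl
        · exact absurd hz hbD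
        · exact Or.inr (Or.inr (heq a z hca.symm haD hz))
    · obtain ⟨z, hz, hz'⟩ := h5
      have hbD : b ∈ D := by
        rcases hz' with rfl | rfl
        · exact absurd hz haD
        · exact hz
      obtain ⟨w, hw, hw'⟩ := h7
      rcases hw' with rfl | rfl
      · exact absurd hw haD
      · exact Or.inr (Or.inl (heq b w hcb.symm hbD hw))
  have h8 := (Finset.card_le_card hsub).trans Finset.card_le_three
  omega

variable {n : ℕ}

/-- The parts outside `A` of the members of size `|A| + t` containing `A`. -/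
def upS (F : Finset (Finset (Fin n))) (A : Finset (Fin n)) (t : ℕ) : Finset (Finset (Fin n)) :=
  (powersetCard t Aᶜ).filter fun D => A ∪ D ∈ F

lemma mem_upS {F : Finset (Finset (Fin n))} {A D : Finset (Fin n)} {t : ℕ} :
    D ∈ upS F A t ↔ (D ⊆ Aᶜ ∧ D.card = t) ∧ A ∪ D ∈ F := by
  rw [upS, mem_filter, mem_powersetCard]

lemma disj_of_sub {A D : Finset (Fin n)} (h : D ⊆ Aᶜ) : Disjoint A D :=
  Finset.disjoint_left.2 fun _ hx hx' => (mem_compl.1 (h hx')) hx

lemma Pr_up_le (F : Finset (Finset (Fin n))) {A : Finset (Fin n)} {a t : ℕ} (hA : A.card = a)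
    (hat : a + t ≤ n) :
    Pr (fun s : Equiv.Perm (Fin n) => pre s a = A ∧ pre s (a + t) ∈ F) ≤
      1 / (n.choose a : ℝ) * (((upS F A t).card : ℝ) / ((n - a).choose t : ℝ)) := by
  classical
  have h1 : Pr (fun s : Equiv.Perm (Fin n) => pre s a = A ∧ pre s (a + t) ∈ F) ≤
      Pr (fun s : Equiv.Perm (Fin n) => pre s a = A ∧
        pre s (a + t) ∈ (upS F A t).image (A ∪ ·)) := by
    refine Pr_mono ?_
    rintro s ⟨h2, h3⟩
    refine ⟨h2, ?_⟩
    have h4 : A ⊆ pre s (a + t) := by rw [← h2]; exact pre_mono s (by omega)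
    rw [mem_image]
    refine ⟨pre s (a + t) \ A, ?_, by rw [Finset.union_sdiff_of_subset h4]⟩
    rw [mem_upS]
    refine ⟨⟨fun x hx => mem_compl.2 (mem_sdiff.1 hx).2, ?_⟩, ?_⟩
    · rw [Finset.card_sdiff_of_subset h4, card_pre s hat, hA]; omega
    · rw [Finset.union_sdiff_of_subset h4]; exact h3
  refine h1.trans ?_
  rw [Pr_flag_mem hA _ (fun C hC => by
    obtain ⟨D, hD, rfl⟩ := mem_image.1 hC
    rw [mem_upS] at hD
    refine ⟨?_, subset_union_left⟩
    show (A ∪ D).card = a + t
    rw [Finset.card_union_of_disjoint (disj_of_sub hD.1.1), hA, hD.1.2])]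
  rw [show a + t - a = t by omega]
  have hp1 : (0 : ℝ) < (n.choose a : ℝ) := by exact_mod_cast Nat.choose_pos (by omega)
  have hp2 : (0 : ℝ) < ((n - a).choose t : ℝ) := by
    exact_mod_cast Nat.choose_pos (show t ≤ n - a by omega)
  have hc : (((upS F A t).image (A ∪ ·)).card : ℝ) ≤ ((upS F A t).card : ℝ) := by
    exact_mod_cast Finset.card_image_le
  rw [one_div, ← div_eq_inv_mul, div_div, mul_comm ((n - a).choose t : ℝ)]
  exact div_le_div_of_nonneg_right hc (by positivity)

section

variable {F : Finset (Finset (Fin n))} (hF : Admissible F) {A : Finset (Fin n)} (hA : A ∈ F)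

include hF hA

lemma upS_meet {D D' : Finset (Fin n)} {t t' : ℕ} (ht : 1 ≤ t) (ht' : 1 ≤ t')
    (hD : D ∈ upS F A t) (hD' : D' ∈ upS F A t') : ¬ Disjoint D D' := by
  rw [mem_upS] at hD hD'
  have key : ∀ {E : Finset (Fin n)}, E ⊆ Aᶜ → 1 ≤ E.card → A ⊂ A ∪ E := by
    intro E hE hc
    refine Finset.ssubset_iff_subset_ne.2 ⟨subset_union_left, fun h => ?_⟩
    have h1 := congrArg Finset.card h
    rw [Finset.card_union_of_disjoint (disj_of_sub hE)] at h1
    omega
  have h := above_meet hF hA hD.2 hD'.2 (key hD.1.1 (by rw [hD.1.2]; exact ht))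
    (key hD'.1.1 (by rw [hD'.1.2]; exact ht'))
  rw [Finset.union_sdiff_cancel_left (disj_of_sub hD.1.1),
    Finset.union_sdiff_cancel_left (disj_of_sub hD'.1.1)] at h
  exact h

/-- If there is a member `A + x`, there is at most one member `A + y + z`. -/
lemma upS_two_le_one (h1 : (upS F A 1).Nonempty) : (upS F A 2).card ≤ 1 := by
  classical
  obtain ⟨S, hS⟩ := h1
  rw [Finset.card_le_one]
  intro D hD D' hD'
  by_contra hne
  have hm1 := upS_meet hF hA le_rfl (by norm_num) hS hD
  have hm2 := upS_meet hF hA le_rfl (by norm_num) hS hD'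
  rw [mem_upS] at hS hD hD'
  obtain ⟨x, rfl⟩ := Finset.card_eq_one.1 hS.1.2
  rw [Finset.disjoint_singleton_left, not_not] at hm1 hm2
  have hi : D ∩ D' = {x} := by
    symm
    refine Finset.eq_of_subset_of_card_le ?_ ?_
    · rw [Finset.singleton_subset_iff, mem_inter]; exact ⟨hm1, hm2⟩
    · rw [Finset.card_singleton]
      by_contra hc
      push Not at hc
      have e1 : D ∩ D' = D := Finset.eq_of_subset_of_card_le inter_subset_left
        (by rw [hD.1.2]; omega)
      have e2 : D ∩ D' = D' := Finset.eq_of_subset_of_card_le inter_subset_right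
        (by rw [hD'.1.2]; omega)
      exact hne (e1.symm.trans e2)
  have hu : (A ∪ D) ∩ (A ∪ D') = A ∪ {x} := by
    rw [← Finset.union_inter_distrib_left, hi]
  have hcard : ∀ {E : Finset (Fin n)} {t : ℕ}, E ⊆ Aᶜ ∧ E.card = t → (A ∪ E).card = A.card + t := by
    intro E t hE
    rw [Finset.card_union_of_disjoint (disj_of_sub hE.1), hE.2]
  have h3 := hcard hD.1
  have h4 := hcard hD'.1
  have h5 := hcard hS.1
  refine (hF _ hD.2 _ hD'.2 _ hS.2 ?_ ?_ ?_).2 hu
  · intro h
    apply hne
    have := congrArg (· \ A) h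
    rwa [Finset.union_sdiff_cancel_left (disj_of_sub hD.1.1),
      Finset.union_sdiff_cancel_left (disj_of_sub hD'.1.1)] at this
  · intro h; rw [h] at h3; omega
  · intro h; rw [h] at h4; omega

/-- The star case: few members `A + x + y + z`. -/
lemma upS_three_le {m : ℕ} (hm : (Aᶜ).card = m + 1) (h4 : 4 ≤ (upS F A 2).card) :
    (upS F A 3).card + ((upS F A 2).card).choose 2 ≤ m.choose 2 := by
  classical
  obtain ⟨x, hx⟩ := odd1_star (upS F A 2) (fun S hS => (mem_upS.1 hS).1.2)
    (fun S hS T hT => upS_meet hF hA (by norm_num) (by norm_num) hS hT) h4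
  have hne : (upS F A 2).Nonempty := Finset.card_pos.1 (by omega)
  have hxA : x ∈ Aᶜ := by
    obtain ⟨S, hS⟩ := hne
    exact (mem_upS.1 hS).1.1 (hx S hS)
  set Y : Finset (Fin n) := (Aᶜ).filter fun y => y ≠ x ∧ A ∪ {x, y} ∈ F with hY
  have hYe : ∀ S ∈ upS F A 2, ∃ y ∈ Y, S = {x, y} := by
    intro S hS
    have hS' := mem_upS.1 hS
    have h1 : (S.erase x).card = 1 := by rw [Finset.card_erase_of_mem (hx S hS), hS'.1.2]
    obtain ⟨y, hy⟩ := Finset.card_eq_one.1 h1
    have hyS : y ∈ S.erase x := by rw [hy]; exact mem_singleton_self y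
    have hSe : S = {x, y} := by
      rw [← Finset.insert_erase (hx S hS), hy]
    refine ⟨y, ?_, hSe⟩
    rw [hY, mem_filter]
    refine ⟨hS'.1.1 (mem_of_mem_erase hyS), ne_of_mem_erase hyS, ?_⟩
    rw [← hSe]; exact hS'.2
  have hYc : Y.card = (upS F A 2).card := by
    refine Finset.card_bij (fun y _ => {x, y}) ?_ ?_ ?_
    · intro y hy
      rw [hY, mem_filter] at hy
      rw [mem_upS]
      refine ⟨⟨?_, Finset.card_pair hy.2.1.symm⟩, hy.2.2⟩
      intro z hz
      rw [mem_insert, mem_singleton] at hz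
      rcases hz with rfl | rfl
      · exact hxA
      · exact hy.1
    · intro y hy y' hy' h
      rw [hY, mem_filter] at hy hy'
      have : y ∈ ({x, y'} : Finset (Fin n)) := by rw [← h]; simp
      rw [mem_insert, mem_singleton] at this
      exact this.resolve_left hy.2.1
    · intro S hS
      obtain ⟨y, hy, rfl⟩ := hYe S hS
      exact ⟨y, hy, rfl⟩
  -- every member of `upS 3` contains `x`
  have hx3 : ∀ T ∈ upS F A 3, x ∈ T := by
    intro T hT
    by_contra hxT
    have hsub : Y ⊆ T := by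
      intro y hy
      rw [hY, mem_filter] at hy
      by_contra hyT
      have hS : ({x, y} : Finset (Fin n)) ∈ upS F A 2 := by
        rw [mem_upS]
        refine ⟨⟨?_, Finset.card_pair hy.2.1.symm⟩, hy.2.2⟩
        intro z hz
        rw [mem_insert, mem_singleton] at hz
        rcases hz with rfl | rfl
        · exact hxA
        · exact hy.1
      refine upS_meet hF hA (by norm_num) (by norm_num) hS hT ?_
      rw [Finset.disjoint_left]
      intro z hz
      rw [mem_insert, mem_singleton] at hz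
      rcases hz with rfl | rfl <;> assumption
    have h5 := Finset.card_le_card hsub
    rw [hYc, (mem_upS.1 hT).1.2] at h5
    omega
  set B : Finset (Fin n) := (Aᶜ).erase x with hB
  have hBc : B.card = m := by rw [hB, Finset.card_erase_of_mem hxA, hm]; rfl
  have hYB : Y ⊆ B := by
    intro y hy
    rw [hY, mem_filter] at hy
    rw [hB, mem_erase]; exact ⟨hy.2.1, hy.1⟩
  have hmap : ((upS F A 3).image fun T => T.erase x).card = (upS F A 3).card := by
    refine Finset.card_image_of_injOn ?_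
    intro T hT T' hT' h
    simp only at h
    rw [← Finset.insert_erase (hx3 T hT), ← Finset.insert_erase (hx3 T' hT'), h]
  have hdisj : Disjoint ((upS F A 3).image fun T => T.erase x) (powersetCard 2 Y) := by
    rw [Finset.disjoint_left]
    intro P hP hP'
    obtain ⟨T, hT, rfl⟩ := mem_image.1 hP
    rw [mem_powersetCard] at hP'
    obtain ⟨y, z, hyz, he⟩ := Finset.card_eq_two.1 hP'.2
    have hyY : y ∈ Y := hP'.1 (by rw [he]; simp)
    have hzY : z ∈ Y := hP'.1 (by rw [he]; simp)
    rw [hY, mem_filter] at hyY hzY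
    have hTe : T = insert x {y, z} := by rw [← he, Finset.insert_erase (hx3 T hT)]
    have hTF := (mem_upS.1 hT).2
    have hTc := (mem_upS.1 hT).1
    have hun : (A ∪ {x, y}) ∪ (A ∪ {x, z}) = A ∪ T := by
      rw [hTe]
      ext w
      simp only [mem_union, mem_insert, mem_singleton]
      tauto
    have hsubA : ∀ w, w ∈ Aᶜ → w ≠ x → (A ∪ {x, w}).card = A.card + 2 := by
      intro w hw hwx
      rw [Finset.card_union_of_disjoint, Finset.card_pair hwx.symm]
      refine disj_of_sub ?_
      intro v hv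
      rw [mem_insert, mem_singleton] at hv
      rcases hv with rfl | rfl
      · exact hxA
      · exact hw
    have c1 := hsubA y hyY.1 hyY.2.1
    have c2 := hsubA z hzY.1 hzY.2.1
    have c3 : (A ∪ T).card = A.card + 3 := by
      rw [Finset.card_union_of_disjoint (disj_of_sub hTc.1), hTc.2]
    refine (hF _ hyY.2.2 _ hzY.2.2 _ hTF ?_ ?_ ?_).1 hun
    · intro h
      have h6 : y ∈ A ∪ {x, z} := by rw [← h]; simp
      rw [mem_union, mem_insert, mem_singleton] at h6
      rcases h6 with h6 | h6 | h6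
      · exact (mem_compl.1 hyY.1) h6
      · exact hyY.2.1 h6
      · exact hyz h6
    · intro h; rw [h] at c1; omega
    · intro h; rw [h] at c2; omega
  have hsub : ((upS F A 3).image fun T => T.erase x) ∪ powersetCard 2 Y ⊆ powersetCard 2 B := by
    refine Finset.union_subset ?_ (Finset.powersetCard_mono hYB)
    intro P hP
    obtain ⟨T, hT, rfl⟩ := mem_image.1 hP
    have hT' := (mem_upS.1 hT).1
    rw [mem_powersetCard]
    refine ⟨Finset.erase_subset_erase x hT'.1, ?_⟩
    rw [Finset.card_erase_of_mem (hx3 T hT), hT'.2]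
  have h7 := Finset.card_le_card hsub
  rw [Finset.card_union_of_disjoint hdisj, hmap, Finset.card_powersetCard,
    Finset.card_powersetCard, hBc, hYc] at h7
  exact h7

end

/-- Odd `n`, level `k - 1`. -/
theorem odd_mid_set {k : ℕ} (hk : 12 ≤ k) {F : Finset (Finset (Fin (2 * k + 1)))}
    (hF : Admissible F) {A : Finset (Fin (2 * k + 1))} (hA : A ∈ F) (hc : A.card = k - 1) :
    (U F A (k - 1) 2 + U F A (k - 1) 3) / 2 ≤
      2.2 / ((k : ℝ) + 2) / ((2 * k + 1).choose (k - 1) : ℝ) := by
  classical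
  set N : ℝ := ((2 * k + 1).choose (k - 1) : ℝ) with hN
  have hNpos : 0 < N := by
    rw [hN]; exact_mod_cast Nat.choose_pos (by omega)
  have hna : 2 * k + 1 - (k - 1) = k + 2 := by omega
  have hkr : (12 : ℝ) ≤ (k : ℝ) := by exact_mod_cast hk
  -- the bounds of single levels
  have b1 := Pr_up_le F hc (t := 1) (by omega)
  have b2 := Pr_up_le F hc (t := 2) (by omega)
  have b3 := Pr_up_le F hc (t := 3) (by omega)
  rw [hna, ← hN] at b1 b2 b3
  have c1 : (((k + 2).choose 1 : ℕ) : ℝ) = (k : ℝ) + 2 := by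
    rw [Nat.choose_one_right]; push_cast; ring
  have c2 : (((k + 2).choose 2 : ℕ) : ℝ) = ((k : ℝ) + 2) * ((k : ℝ) + 1) / 2 := by
    rw [Nat.cast_choose_two]; push_cast; ring
  have c3 : (((k + 2).choose 3 : ℕ) : ℝ) = ((k : ℝ) + 2) * ((k : ℝ) + 1) * (k : ℝ) / 6 := by
    have h := Nat.add_one_mul_choose_eq (k + 1) 2
    have h' : ((k : ℝ) + 1 + 1) * (((k + 1).choose 2 : ℕ) : ℝ) =
        (((k + 1 + 1).choose (2 + 1) : ℕ) : ℝ) * 3 := by exact_mod_cast h
    rw [Nat.cast_choose_two] at h'
    push_cast at h'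
    have h'' : (((k + 2).choose 3 : ℕ) : ℝ) = (((k + 1 + 1).choose (2 + 1) : ℕ) : ℝ) := rfl
    rw [h'']
    linarith
  rw [c1] at b1
  rw [c2] at b2
  rw [c3] at b3
  -- EKR for three steps
  have e3 := U_le hF hA hc (D := 3) (by norm_num) (by omega)
  rw [hna, ← hN] at e3
  push_cast at e3
  -- splitting
  have s2 : U F A (k - 1) 2 ≤
      Pr (fun s : Equiv.Perm (Fin (2 * k + 1)) => pre s (k - 1) = A ∧ pre s (k - 1 + 1) ∈ F) +
      Pr (fun s : Equiv.Perm (Fin (2 * k + 1)) => pre s (k - 1) = A ∧ pre s (k - 1 + 2) ∈ F) := by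
    refine (Pr_mono ?_).trans (Pr_or_le _ _)
    rintro s ⟨h1, c, h2, h3, h4⟩
    have : c = k - 1 + 1 ∨ c = k - 1 + 2 := by omega
    rcases this with rfl | rfl
    · exact Or.inl ⟨h1, h4⟩
    · exact Or.inr ⟨h1, h4⟩
  have s3 : U F A (k - 1) 3 ≤
      Pr (fun s : Equiv.Perm (Fin (2 * k + 1)) => pre s (k - 1) = A ∧ pre s (k - 1 + 1) ∈ F) +
      (Pr (fun s : Equiv.Perm (Fin (2 * k + 1)) => pre s (k - 1) = A ∧ pre s (k - 1 + 2) ∈ F) +
      Pr (fun s : Equiv.Perm (Fin (2 * k + 1)) => pre s (k - 1) = A ∧ pre s (k - 1 + 3) ∈ F)) := by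
    refine (Pr_mono ?_).trans ((Pr_or_le _ _).trans (add_le_add le_rfl (Pr_or_le _ _)))
    rintro s ⟨h1, c, h2, h3, h4⟩
    have : c = k - 1 + 1 ∨ c = k - 1 + 2 ∨ c = k - 1 + 3 := by omega
    rcases this with rfl | rfl | rfl
    · exact Or.inl ⟨h1, h4⟩
    · exact Or.inr (Or.inl ⟨h1, h4⟩)
    · exact Or.inr (Or.inr ⟨h1, h4⟩)
  have goal_iff : 2.2 / ((k : ℝ) + 2) / N = 1 / N * (2.2 / ((k : ℝ) + 2)) := by ring
  rw [goal_iff]
  rcases (upS F A 1).eq_empty_or_nonempty with hU1 | hU1
  · -- no member `A + x`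
    rw [hU1] at b1
    simp only [card_empty, Nat.cast_zero, zero_div, mul_zero] at b1
    by_cases hs : (upS F A 2).card ≤ 3
    · have hs' : ((upS F A 2).card : ℝ) ≤ 3 := by exact_mod_cast hs
      have h5 : ((upS F A 2).card : ℝ) / (((k : ℝ) + 2) * ((k : ℝ) + 1) / 2) ≤
          (6 / 13) / ((k : ℝ) + 2) := by
        rw [div_le_div_iff₀ (by positivity) (by positivity)]
        nlinarith
      have h6 := mul_le_mul_of_nonneg_left h5 (show 0 ≤ 1 / N by positivity)
      have h7 : (U F A (k - 1) 2 + U F A (k - 1) 3) / 2 ≤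
          1 / N * ((6 / 13) / ((k : ℝ) + 2) + 3 / ((k : ℝ) + 2)) / 2 := by
        rw [mul_add]; linarith
      refine h7.trans ?_
      rw [mul_div_assoc]
      refine mul_le_mul_of_nonneg_left ?_ (by positivity)
      rw [← add_div, div_div, div_le_div_iff₀ (by positivity) (by positivity)]
      nlinarith
    · push Not at hs
      have h4 : 4 ≤ (upS F A 2).card := by omega
      have hm : (Aᶜ).card = (k + 1) + 1 := by
        rw [Finset.card_compl, Fintype.card_fin, hc]; omega
      have h8 := upS_three_le hF hA hm h4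
      have h8' : ((upS F A 3).card : ℝ) + (((upS F A 2).card).choose 2 : ℕ) ≤
          (((k + 1).choose 2 : ℕ) : ℝ) := by exact_mod_cast h8
      rw [Nat.cast_choose_two, Nat.cast_choose_two] at h8'
      push_cast at h8'
      set q : ℝ := ((upS F A 2).card : ℝ) with hq
      set r : ℝ := ((upS F A 3).card : ℝ) with hr
      have h9 : q / (((k : ℝ) + 2) * ((k : ℝ) + 1) / 2) * 2 +
          r / (((k : ℝ) + 2) * ((k : ℝ) + 1) * (k : ℝ) / 6) ≤ 4.4 / ((k : ℝ) + 2) := by
        have hk2 : (0 : ℝ) < (k : ℝ) + 2 := by linarith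
        have hk1 : (0 : ℝ) < (k : ℝ) + 1 := by linarith
        have hk0 : (0 : ℝ) < (k : ℝ) := by linarith
        have h10 : q / (((k : ℝ) + 2) * ((k : ℝ) + 1) / 2) * 2 +
          r / (((k : ℝ) + 2) * ((k : ℝ) + 1) * (k : ℝ) / 6) =
          ((4 * q * k + 6 * r) / (((k : ℝ) + 1) * k)) / ((k : ℝ) + 2) := by
          field_simp
          ring
        rw [h10]
        refine div_le_div_of_nonneg_right ?_ hk2.le
        rw [div_le_iff₀ (by positivity)]
        nlinarith [sq_nonneg (q - (4 * (k : ℝ) + 3) / 6)]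
      have h11 := mul_le_mul_of_nonneg_left h9 (show 0 ≤ 1 / N by positivity)
      have h12 : U F A (k - 1) 2 + U F A (k - 1) 3 ≤ 1 / N * (4.4 / ((k : ℝ) + 2)) := by
        refine le_trans ?_ h11
        rw [mul_add, ← mul_assoc]
        linarith
      have h13 : 1 / N * (4.4 / ((k : ℝ) + 2)) = 2 * (1 / N * (2.2 / ((k : ℝ) + 2))) := by
        ring
      rw [h13] at h12
      linarith
  · -- a member `A + x`
    have hu2 := upS_two_le_one hF hA hU1
    have hu1 : (upS F A 1).card ≤ 1 := by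
      rw [Finset.card_le_one]
      intro D hD D' hD'
      have h1 := upS_meet hF hA le_rfl le_rfl hD hD'
      rw [mem_upS] at hD hD'
      obtain ⟨x, rfl⟩ := Finset.card_eq_one.1 hD.1.2
      obtain ⟨y, rfl⟩ := Finset.card_eq_one.1 hD'.1.2
      rw [Finset.disjoint_singleton_left, not_not, mem_singleton] at h1
      rw [h1]
    have hu1' : ((upS F A 1).card : ℝ) ≤ 1 := by exact_mod_cast hu1
    have hu2' : ((upS F A 2).card : ℝ) ≤ 1 := by exact_mod_cast hu2
    have h5 : ((upS F A 1).card : ℝ) / ((k : ℝ) + 2) ≤ 1 / ((k : ℝ) + 2) :=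
      div_le_div_of_nonneg_right hu1' (by positivity)
    have h6 : ((upS F A 2).card : ℝ) / (((k : ℝ) + 2) * ((k : ℝ) + 1) / 2) ≤
        (2 / 13) / ((k : ℝ) + 2) := by
      rw [div_le_div_iff₀ (by positivity) (by positivity)]
      nlinarith
    have h5' := mul_le_mul_of_nonneg_left h5 (show 0 ≤ 1 / N by positivity)
    have h6' := mul_le_mul_of_nonneg_left h6 (show 0 ≤ 1 / N by positivity)
    have h7 : (U F A (k - 1) 2 + U F A (k - 1) 3) / 2 ≤
        1 / N * (1 / ((k : ℝ) + 2) + (2 / 13) / ((k : ℝ) + 2) + 3 / ((k : ℝ) + 2)) / 2 := by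
      rw [mul_add, mul_add]; linarith
    refine h7.trans ?_
    rw [mul_div_assoc]
    refine mul_le_mul_of_nonneg_left ?_ (by positivity)
    rw [← add_div, ← add_div, div_div, div_le_div_iff₀ (by positivity) (by positivity)]
    nlinarith

end Pool.Agent.Lib_MP_b87ef1_ex
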